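import Mathlib
import Pool.Agent.H825R3.Tsi.Func

/-!
Sums of normed spaces with respect to a sequence norm given by a family of test sequences.
-/
set_option autoImplicit false
open scoped ENNReal
open Finset Filter Topology
open Pool.Agent.H825R3.Tsi (pr)

namespace Pool.Agent.W696.TS

/-- A family of nonnegative test sequences, all bounded by one, which contains the unit vectors. -/
structure TestFam where
  /-- the set of test sequences -/
  B : Set (ℕ → ℝ≥0∞)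
  single_mem : ∀ n, Pi.single n 1 ∈ B
  le_one : ∀ t ∈ B, ∀ n, t n ≤ 1

namespace TestFam

variable (𝓑 : TestFam)

/-- the sequence norm `sup_t ∑ a_n t_n` -/
noncomputable def nrm (a : ℕ → ℝ≥0∞) : ℝ≥0∞ := ⨆ t : 𝓑.B, ∑' n, a n * t.1 n

lemma le_nrm (a : ℕ → ℝ≥0∞) {t : ℕ → ℝ≥0∞} (ht : t ∈ 𝓑.B) : ∑' n, a n * t n ≤ 𝓑.nrm a :=
  le_iSup (fun t : 𝓑.B => ∑' n, a n * t.1 n) ⟨t, ht⟩

variable {𝓑}

lemma nrm_le {a : ℕ → ℝ≥0∞} {C : ℝ≥0∞} (h : ∀ t ∈ 𝓑.B, ∑' n, a n * t n ≤ C) : 𝓑.nrm a ≤ C :=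
  iSup_le fun t => h t.1 t.2

lemma nrm_mono {a b : ℕ → ℝ≥0∞} (h : a ≤ b) : 𝓑.nrm a ≤ 𝓑.nrm b :=
  nrm_le fun t ht => le_trans (ENNReal.tsum_le_tsum fun n => mul_le_mul' (h n) le_rfl)
    (𝓑.le_nrm b ht)

lemma apply_le_nrm (a : ℕ → ℝ≥0∞) (n : ℕ) : a n ≤ 𝓑.nrm a := by
  have h := 𝓑.le_nrm a (𝓑.single_mem n)
  rw [tsum_eq_single n (fun m hm => by simp [hm])] at h
  simpa using h

lemma nrm_single_le (n : ℕ) (c : ℝ≥0∞) : 𝓑.nrm (Pi.single n c) ≤ c :=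
  nrm_le fun t ht => by
    rw [tsum_eq_single n (fun m hm => by simp [hm])]
    simp only [Pi.single_eq_same]
    calc c * t n ≤ c * 1 := mul_le_mul' le_rfl (𝓑.le_one t ht n)
      _ = c := mul_one c

lemma nrm_tsum_le (a : ℕ → ℕ → ℝ≥0∞) :
    𝓑.nrm (fun n => ∑' j, a j n) ≤ ∑' j, 𝓑.nrm (a j) :=
  nrm_le fun t ht => by
    calc ∑' n, (∑' j, a j n) * t n = ∑' n, ∑' j, a j n * t n := by
          refine tsum_congr fun n => ?_
          rw [ENNReal.tsum_mul_right]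
      _ = ∑' j, ∑' n, a j n * t n := ENNReal.tsum_comm
      _ ≤ _ := ENNReal.tsum_le_tsum fun j => 𝓑.le_nrm (a j) ht

lemma nrm_add_le (a b : ℕ → ℝ≥0∞) : 𝓑.nrm (fun n => a n + b n) ≤ 𝓑.nrm a + 𝓑.nrm b :=
  nrm_le fun t ht => by
    calc ∑' n, (a n + b n) * t n = ∑' n, a n * t n + ∑' n, b n * t n := by
          rw [← ENNReal.tsum_add]
          exact tsum_congr fun n => add_mul _ _ _
      _ ≤ _ := add_le_add (𝓑.le_nrm a ht) (𝓑.le_nrm b ht)

lemma nrm_sum_le {ι : Type*} (s : Finset ι) (a : ι → ℕ → ℝ≥0∞) :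
    𝓑.nrm (fun n => ∑ j ∈ s, a j n) ≤ ∑ j ∈ s, 𝓑.nrm (a j) := by
  classical
  induction s using Finset.induction_on with
  | empty =>
    simp only [Finset.sum_empty]
    exact nrm_le fun t _ => by simp
  | insert j s hj ih =>
    simp only [Finset.sum_insert hj]
    exact (nrm_add_le _ _).trans (by gcongr)

lemma nrm_mul (c : ℝ≥0∞) (a : ℕ → ℝ≥0∞) : 𝓑.nrm (fun n => c * a n) = c * 𝓑.nrm a := by
  unfold nrm
  rw [ENNReal.mul_iSup]
  refine iSup_congr fun t => ?_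
  rw [← ENNReal.tsum_mul_left]
  exact tsum_congr fun n => mul_assoc _ _ _

lemma nrm_zero : 𝓑.nrm (fun _ => 0) = 0 := by
  refine le_antisymm (nrm_le fun t _ => by simp) bot_le

end TestFam

section space

variable (𝓑 : TestFam) (Z : Type*) [NormedAddCommGroup Z] [NormedSpace ℝ Z]

/-- the sequences of finite norm, as a submodule -/
def ksub : Submodule ℝ (ℕ → Z) where
  carrier := {x | 𝓑.nrm (fun n => ‖x n‖ₑ) ≠ ∞}
  add_mem' := by
    intro x y hx hy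
    refine ne_top_of_le_ne_top (ENNReal.add_ne_top.2 ⟨hx, hy⟩) ?_
    exact le_trans (TestFam.nrm_mono fun n => enorm_add_le _ _) (TestFam.nrm_add_le _ _)
  zero_mem' := by
    show 𝓑.nrm (fun n => ‖(0 : Z)‖ₑ) ≠ ∞
    simp only [enorm_zero, TestFam.nrm_zero]
    exact ENNReal.zero_ne_top
  smul_mem' := by
    intro c x hx
    show 𝓑.nrm (fun n => ‖c • x n‖ₑ) ≠ ∞
    simp only [enorm_smul, TestFam.nrm_mul]
    exact ENNReal.mul_ne_top enorm_ne_top hx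

/-- The `𝓑`-sum of countably many copies of the normed space `Z`: the sequences `x` in `Z` with
`‖x‖ = sup_{t ∈ 𝓑} ∑ t_n ‖x_n‖ < ∞`. -/
def KSum : Type _ := ↥(ksub 𝓑 Z)

noncomputable instance : AddCommGroup (KSum 𝓑 Z) := inferInstanceAs (AddCommGroup ↥(ksub 𝓑 Z))
noncomputable instance : Module ℝ (KSum 𝓑 Z) := inferInstanceAs (Module ℝ ↥(ksub 𝓑 Z))

variable {𝓑 Z}

/-- the coordinates -/
def KSum.val (x : KSum 𝓑 Z) : ℕ → Z := x.1

/-- construct an element -/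
def KSum.mk (x : ℕ → Z) (hx : 𝓑.nrm (fun n => ‖x n‖ₑ) ≠ ∞) : KSum 𝓑 Z := ⟨x, hx⟩

@[simp] lemma KSum.val_mk (x : ℕ → Z) (hx : 𝓑.nrm (fun n => ‖x n‖ₑ) ≠ ∞) :
    (KSum.mk x hx).val = x := rfl
@[simp] lemma KSum.val_add (x y : KSum 𝓑 Z) : (x + y).val = x.val + y.val := rfl
@[simp] lemma KSum.val_sub (x y : KSum 𝓑 Z) : (x - y).val = x.val - y.val := rfl
@[simp] lemma KSum.val_neg (x : KSum 𝓑 Z) : (-x).val = -x.val := rfl
@[simp] lemma KSum.val_zero : (0 : KSum 𝓑 Z).val = 0 := rfl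
@[simp] lemma KSum.val_smul (c : ℝ) (x : KSum 𝓑 Z) : (c • x).val = c • x.val := rfl

lemma KSum.ext' {x y : KSum 𝓑 Z} (h : x.val = y.val) : x = y := Subtype.ext h

lemma KSum.prop (x : KSum 𝓑 Z) : 𝓑.nrm (fun n => ‖x.val n‖ₑ) ≠ ∞ := x.2

noncomputable instance : Norm (KSum 𝓑 Z) := ⟨fun x => (𝓑.nrm (fun n => ‖x.val n‖ₑ)).toReal⟩

lemma KSum.norm_def' (x : KSum 𝓑 Z) : ‖x‖ = (𝓑.nrm (fun n => ‖x.val n‖ₑ)).toReal := rfl

lemma KSum.core : NormedSpace.Core ℝ (KSum 𝓑 Z) where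
  norm_nonneg x := ENNReal.toReal_nonneg
  norm_smul c x := by
    rw [KSum.norm_def', KSum.norm_def']
    simp only [KSum.val_smul, Pi.smul_apply, enorm_smul, TestFam.nrm_mul, ENNReal.toReal_mul]
    simp
  norm_triangle x y := by
    rw [KSum.norm_def', KSum.norm_def', KSum.norm_def',
      ← ENNReal.toReal_add x.prop y.prop]
    refine ENNReal.toReal_mono (ENNReal.add_ne_top.2 ⟨x.prop, y.prop⟩) ?_
    exact le_trans (TestFam.nrm_mono fun n => enorm_add_le _ _) (TestFam.nrm_add_le _ _)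
  norm_eq_zero_iff x := by
    rw [KSum.norm_def']
    constructor
    · intro h
      rw [ENNReal.toReal_eq_zero_iff] at h
      rcases h with h | h
      · apply KSum.ext'
        funext n
        have h1 := TestFam.apply_le_nrm (𝓑 := 𝓑) (fun n => ‖x.val n‖ₑ) n
        rw [h] at h1
        simpa using h1
      · exact absurd h x.prop
    · rintro rfl
      simp [TestFam.nrm_zero]

noncomputable instance : NormedAddCommGroup (KSum 𝓑 Z) := NormedAddCommGroup.ofCore KSum.core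
noncomputable instance : NormedSpace ℝ (KSum 𝓑 Z) := NormedSpace.ofCore KSum.core

lemma KSum.norm_def (x : KSum 𝓑 Z) : ‖x‖ = (𝓑.nrm (fun n => ‖x.val n‖ₑ)).toReal := rfl

lemma KSum.enorm_eq (x : KSum 𝓑 Z) : ‖x‖ₑ = 𝓑.nrm (fun n => ‖x.val n‖ₑ) := by
  rw [← ofReal_norm, KSum.norm_def, ENNReal.ofReal_toReal x.prop]

lemma KSum.enorm_apply_le (x : KSum 𝓑 Z) (n : ℕ) : ‖x.val n‖ₑ ≤ ‖x‖ₑ := by
  rw [KSum.enorm_eq]
  exact TestFam.apply_le_nrm (fun n => ‖x.val n‖ₑ) n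

lemma KSum.norm_apply_le (x : KSum 𝓑 Z) (n : ℕ) : ‖x.val n‖ ≤ ‖x‖ := by
  have h := x.enorm_apply_le n
  rw [← ofReal_norm, ← ofReal_norm] at h
  exact (ENNReal.ofReal_le_ofReal_iff (norm_nonneg _)).1 h

/-- the coordinate maps -/
noncomputable def KSum.coord (n : ℕ) : KSum 𝓑 Z →L[ℝ] Z :=
  LinearMap.mkContinuous
    { toFun := fun x => x.val n
      map_add' := fun _ _ => rfl
      map_smul' := fun _ _ => rfl } 1 (fun x => by rw [one_mul]; exact x.norm_apply_le n)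

@[simp] lemma KSum.coord_apply (n : ℕ) (x : KSum 𝓑 Z) : KSum.coord n x = x.val n := rfl

instance [CompleteSpace Z] : CompleteSpace (KSum 𝓑 Z) := by
  refine Metric.complete_of_cauchySeq_tendsto fun u hu => ?_
  have h1 : ∀ n, ∃ z, Tendsto (fun m => (u m).val n) atTop (𝓝 z) := fun n => by
    have h2 : CauchySeq fun m => KSum.coord n (u m) :=
      hu.map (KSum.coord n).uniformContinuous
    exact cauchySeq_tendsto_of_complete h2
  choose y hy using h1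
  have key : ∀ ε : ℝ, 0 < ε → ∃ N, ∀ m ≥ N,
      𝓑.nrm (fun n => ‖y n - (u m).val n‖ₑ) ≤ ENNReal.ofReal ε := by
    intro ε hε
    obtain ⟨N, hN⟩ := Metric.cauchySeq_iff.1 hu ε hε
    refine ⟨N, fun m hm => TestFam.nrm_le fun t ht => ?_⟩
    rw [ENNReal.tsum_eq_iSup_nat]
    refine iSup_le fun r => ?_
    have h3 : Tendsto (fun k => ∑ n ∈ range r, ‖(u k).val n - (u m).val n‖ₑ * t n) atTop
        (𝓝 (∑ n ∈ range r, ‖y n - (u m).val n‖ₑ * t n)) := by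
      refine tendsto_finsetSum _ fun n _ => ?_
      refine ENNReal.Tendsto.mul_const ?_ (Or.inr (ne_top_of_le_ne_top (by simp) (𝓑.le_one t ht n)))
      exact (((hy n).sub_const _).enorm)
    refine le_of_tendsto h3 ?_
    filter_upwards [eventually_ge_atTop N] with k hk
    calc ∑ n ∈ range r, ‖(u k).val n - (u m).val n‖ₑ * t n
        ≤ ∑' n, ‖(u k - u m).val n‖ₑ * t n := ENNReal.sum_le_tsum _
      _ ≤ 𝓑.nrm (fun n => ‖(u k - u m).val n‖ₑ) := 𝓑.le_nrm (fun n => ‖(u k - u m).val n‖ₑ) ht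
      _ = ‖u k - u m‖ₑ := (KSum.enorm_eq _).symm
      _ ≤ ENNReal.ofReal ε := by
          rw [← ofReal_norm, ← dist_eq_norm]
          exact ENNReal.ofReal_le_ofReal (hN k hk m hm).le
  obtain ⟨N1, hN1⟩ := key 1 one_pos
  have hyfin : 𝓑.nrm (fun n => ‖y n‖ₑ) ≠ ∞ := by
    refine ne_top_of_le_ne_top (b := ENNReal.ofReal 1 + ‖u N1‖ₑ)
      (ENNReal.add_ne_top.2 ⟨ENNReal.ofReal_ne_top, enorm_ne_top⟩) ?_
    rw [KSum.enorm_eq]
    refine le_trans (TestFam.nrm_mono (b := fun n => ‖y n - (u N1).val n‖ₑ + ‖(u N1).val n‖ₑ)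
      fun n => ?_) ((TestFam.nrm_add_le _ _).trans (add_le_add (hN1 N1 le_rfl) le_rfl))
    have := enorm_add_le (y n - (u N1).val n) ((u N1).val n)
    simpa using this
  refine ⟨KSum.mk y hyfin, ?_⟩
  rw [Metric.tendsto_atTop]
  intro ε hε
  obtain ⟨N, hN⟩ := key (ε / 2) (by linarith)
  refine ⟨N, fun m hm => ?_⟩
  rw [dist_comm, dist_eq_norm]
  have h4 : ‖KSum.mk y hyfin - u m‖ₑ ≤ ENNReal.ofReal (ε / 2) := by
    rw [KSum.enorm_eq]
    exact hN m hm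
  rw [← ofReal_norm, ENNReal.ofReal_le_ofReal_iff (by linarith)] at h4
  linarith

end space

end Pool.Agent.W696.TS
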