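import Mathlib
import Pool.Agent.W696.TS.KSum

/-!
Equi-coarse embeddings of the Hamming graphs into sums of spaces with far-out copies of `ℓ_∞^n`.
-/
set_option autoImplicit false
open scoped ENNReal
open Finset Filter Topology

namespace Pool.Agent.W696.TS

/-- The vertices of the Hamming graph `H_k`: the `k`-element subsets of `ℕ`, written as strictly
increasing `k`-tuples. -/
def HV (k : ℕ) : Type := {m : Fin k → ℕ // StrictMono m}

/-- The Hamming distance: the number of `i` with `m_i ≠ n_i`. -/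
def dH (k : ℕ) (m n : HV k) : ℝ := ((univ.filter fun i => m.1 i ≠ n.1 i).card : ℝ)

/-- The family of metric spaces `(M i, d i)` equi-coarsely embeds into the normed space `Y`. -/
def EquiCoarselyEmbeds {I : Type} (M : I → Type) (d : ∀ i, M i → M i → ℝ) (Y : Type)
    [NormedAddCommGroup Y] : Prop :=
  ∃ ρ ω : ℝ → ℝ, MonotoneOn ρ (Set.Ici 0) ∧ MonotoneOn ω (Set.Ici 0) ∧
    (∀ t, 0 ≤ t → 0 ≤ ρ t ∧ 0 ≤ ω t) ∧ Tendsto ρ atTop atTop ∧
    ∀ i, ∃ f : M i → Y, ∀ x y, ρ (d i x y) ≤ ‖f x - f y‖ ∧ ‖f x - f y‖ ≤ ω (d i x y)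

/-- norms on nonnegative sequences with an upper `c₀`-estimate on admissible successive pieces -/
structure UpNorm (nz : (ℕ → ℝ≥0∞) → ℝ≥0∞) : Prop where
  mono : ∀ {a b : ℕ → ℝ≥0∞}, a ≤ b → nz a ≤ nz b
  add : ∀ a b : ℕ → ℝ≥0∞, nz (fun n => a n + b n) ≤ nz a + nz b
  single_le : ∀ n c, nz (Pi.single n c) ≤ c
  succ : ∀ (c : ℕ → ℕ), Monotone c → ∀ (S : Finset ℕ) (a : ℕ → ℝ≥0∞) (B : ℝ≥0∞),
    (∀ n, a n ≠ 0 → c n ∈ S ∧ S.card ≤ n + 1) →
    (∀ s ∈ S, nz (fun n => if c n = s then a n else 0) ≤ B) → nz a ≤ 2 * B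

/-! ### The codes -/

/-- codes at level `p` -/
abbrev CC (k p : ℕ) : Type := Fin k × Option (Fin k → Fin (p + 1))

/-- starting points of the blocks -/
def st (k : ℕ) : ℕ → ℕ
  | 0 => k + Fintype.card (CC k 0) + 1
  | p + 1 => st k p + Fintype.card (CC k p) + Fintype.card (CC k (p + 1)) + 1

lemma st_succ (k p : ℕ) :
    st k (p + 1) = st k p + Fintype.card (CC k p) + Fintype.card (CC k (p + 1)) + 1 := rfl

lemma st_lt_succ (k p : ℕ) : st k p < st k (p + 1) := by rw [st_succ]; omega

lemma st_strictMono (k : ℕ) : StrictMono (st k) := strictMono_nat_of_lt_succ (st_lt_succ k)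

lemma le_st (k p : ℕ) : k ≤ st k p := by
  induction p with
  | zero => simp only [st]; omega
  | succ p ih => exact ih.trans (st_lt_succ k p).le

lemma card_le_st (k p : ℕ) : Fintype.card (CC k p) ≤ st k p := by
  cases p with
  | zero => simp only [st]; omega
  | succ p => rw [st_succ]; omega

lemma self_le_st (k p : ℕ) : p ≤ st k p := (st_strictMono k).le_apply

/-- the level of an index -/
def lev (k q : ℕ) : ℕ := Nat.findGreatest (fun p => st k p ≤ q) q

lemma lev_mono (k : ℕ) : Monotone (lev k) := by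
  intro q q' h
  unfold lev
  rcases Nat.eq_zero_or_pos (Nat.findGreatest (fun p => st k p ≤ q) q) with h0 | h0
  · rw [h0]; exact Nat.zero_le _
  · have h1 : st k (Nat.findGreatest (fun p => st k p ≤ q) q) ≤ q :=
      Nat.findGreatest_of_ne_zero (m := Nat.findGreatest (fun p => st k p ≤ q) q)
        (P := fun p => st k p ≤ q) rfl h0.ne'
    exact Nat.le_findGreatest ((Nat.findGreatest_le q).trans h) (h1.trans h)

lemma lt_st_lev (k q : ℕ) : q < st k (lev k q + 1) := by
  by_contra h
  push Not at h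
  have h1 : lev k q + 1 ≤ q := (self_le_st k _).trans h
  have := Nat.findGreatest_is_greatest (P := fun p => st k p ≤ q) (n := q) (k := lev k q + 1)
    (Nat.lt_succ_self _) h1
  exact this h

lemma lev_eq {k q p : ℕ} (h1 : st k p ≤ q) (h2 : q < st k (p + 1)) : lev k q = p := by
  apply le_antisymm
  · by_contra hcon
    push Not at hcon
    have h3 : lev k q ≠ 0 := by omega
    have h4 : st k (lev k q) ≤ q :=
      Nat.findGreatest_of_ne_zero (m := lev k q) (P := fun p => st k p ≤ q) rfl h3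
    have h5 : st k (p + 1) ≤ st k (lev k q) := (st_strictMono k).monotone hcon
    omega
  · exact Nat.le_findGreatest ((self_le_st k p).trans h1) h1

/-- the index of a code -/
noncomputable def enc (k p : ℕ) (c : CC k p) : ℕ := st k p + (Fintype.equivFin (CC k p) c : ℕ)

lemma lev_enc (k p : ℕ) (c : CC k p) : lev k (enc k p c) = p := by
  apply lev_eq
  · unfold enc; omega
  · have := (Fintype.equivFin (CC k p) c).2
    rw [st_succ]; unfold enc; omega

/-- decoding -/
noncomputable def dec (k q : ℕ) : Option (CC k (lev k q)) :=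
  if h : st k (lev k q) ≤ q ∧ q - st k (lev k q) < Fintype.card (CC k (lev k q)) then
    some ((Fintype.equivFin (CC k (lev k q))).symm ⟨_, h.2⟩) else none

/-- the coefficient of a code -/
noncomputable def coef (k : ℕ) (β : ℝ) (m : Fin k → ℕ) (i : Fin k) {p : ℕ} :
    Option (Fin k → Fin (p + 1)) → ℝ
  | none => 1
  | some y => min 1 (β * ((univ.filter fun j : Fin k => j < i ∧ m j ≠ (y j : ℕ)).card : ℝ))

/-- value at a code -/
noncomputable def vcode (k : ℕ) (ν : ℕ → ℕ) (β : ℕ → ℝ) (κ : ℕ) (m : Fin k → ℕ) (p : ℕ) :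
    Option (CC k p) → ℝ
  | none => 0
  | some c => if m c.1 = p ∧ ν c.1 = κ then coef k (β κ) m c.1 c.2 else 0

/-- the coefficients of the `κ`-th block -/
noncomputable def bfun (k : ℕ) (ν : ℕ → ℕ) (β : ℕ → ℝ) (κ : ℕ) (m : Fin k → ℕ) (q : ℕ) : ℝ :=
  vcode k ν β κ m (lev k q) (dec k q)

lemma bfun_enc (k : ℕ) (ν : ℕ → ℕ) (β : ℕ → ℝ) (κ : ℕ) (m : Fin k → ℕ) (p : ℕ) (c : CC k p) :
    bfun k ν β κ m (enc k p c) = if m c.1 = p ∧ ν c.1 = κ then coef k (β κ) m c.1 c.2 else 0 := by
  unfold bfun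
  have h1 : ∀ (p' : ℕ) (h : p' = p), vcode k ν β κ m p'
      (if h : st k p' ≤ enc k p c ∧ enc k p c - st k p' < Fintype.card (CC k p') then
        some ((Fintype.equivFin (CC k p')).symm ⟨_, h.2⟩) else none) =
      if m c.1 = p ∧ ν c.1 = κ then coef k (β κ) m c.1 c.2 else 0 := by
    intro p' h
    subst h
    have h2 : enc k p' c - st k p' = (Fintype.equivFin (CC k p') c : ℕ) := by unfold enc; omega
    have h3 : st k p' ≤ enc k p' c ∧ enc k p' c - st k p' < Fintype.card (CC k p') := by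
      refine ⟨?_, ?_⟩
      · unfold enc; omega
      · rw [h2]; exact (Fintype.equivFin (CC k p') c).2
    rw [dif_pos h3]
    have h4 : (⟨enc k p' c - st k p', h3.2⟩ : Fin (Fintype.card (CC k p'))) =
        Fintype.equivFin (CC k p') c := Fin.ext h2
    rw [h4, Equiv.symm_apply_apply]
    rfl
  exact h1 _ (lev_enc k p c)

lemma coef_nonneg {k : ℕ} {β : ℝ} (hβ : 0 ≤ β) (m : Fin k → ℕ) (i : Fin k) {p : ℕ}
    (o : Option (Fin k → Fin (p + 1))) : 0 ≤ coef k β m i o := by
  cases o with
  | none => simp [coef]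
  | some y => simp only [coef]; positivity

lemma coef_le_one {k : ℕ} {β : ℝ} (m : Fin k → ℕ) (i : Fin k) {p : ℕ}
    (o : Option (Fin k → Fin (p + 1))) : coef k β m i o ≤ 1 := by
  cases o with
  | none => simp [coef]
  | some y => simp only [coef]; exact min_le_left _ _

lemma coef_sub_le {k : ℕ} {β : ℝ} (hβ : 0 ≤ β) (m n : Fin k → ℕ) (i : Fin k) {p : ℕ}
    (o : Option (Fin k → Fin (p + 1))) : coef k β m i o - coef k β n i o ≤
      β * ((univ.filter fun j : Fin k => m j ≠ n j).card : ℝ) := by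
  cases o with
  | none => simp only [coef, sub_self]; positivity
  | some y =>
    simp only [coef]
    have h1 : (univ.filter fun j : Fin k => j < i ∧ m j ≠ (y j : ℕ)).card ≤
        (univ.filter fun j : Fin k => j < i ∧ n j ≠ (y j : ℕ)).card +
        (univ.filter fun j : Fin k => m j ≠ n j).card := by
      refine le_trans (card_le_card ?_) (card_union_le _ _)
      intro j hj
      rw [mem_filter] at hj
      rw [mem_union, mem_filter, mem_filter]
      by_cases h : m j = n j
      · left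
        rw [← h]
        exact hj
      · right
        exact ⟨mem_univ _, h⟩
    have h2 : ((univ.filter fun j : Fin k => j < i ∧ m j ≠ (y j : ℕ)).card : ℝ) ≤
        ((univ.filter fun j : Fin k => j < i ∧ n j ≠ (y j : ℕ)).card : ℝ) +
        ((univ.filter fun j : Fin k => m j ≠ n j).card : ℝ) := by exact_mod_cast h1
    have h3 := mul_le_mul_of_nonneg_left h2 hβ
    have h4 : min (1 : ℝ) (β * ((univ.filter fun j : Fin k => j < i ∧ m j ≠ (y j : ℕ)).card : ℝ)) ≤
        min 1 (β * ((univ.filter fun j : Fin k => j < i ∧ n j ≠ (y j : ℕ)).card : ℝ)) +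
        β * ((univ.filter fun j : Fin k => m j ≠ n j).card : ℝ) := by
      have h5 : 0 ≤ β * ((univ.filter fun j : Fin k => m j ≠ n j).card : ℝ) := by positivity
      rw [← min_add_add_right]
      refine le_min ?_ ?_
      · exact (min_le_left _ _).trans (by linarith)
      · exact (min_le_right _ _).trans (by linarith)
    linarith

/-- finitely supported version -/
noncomputable def bfin (k : ℕ) (ν : ℕ → ℕ) (β : ℕ → ℝ) (κ : ℕ) (m : Fin k → ℕ) : ℕ →₀ ℝ :=
  Finsupp.onFinset (range (st k ((∑ i, m i) + 1))) (bfun k ν β κ m) (by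
    intro q hq
    rw [mem_range]
    have h : ∃ i, m i = lev k q := by
      unfold bfun vcode at hq
      rcases hd : dec k q with _ | c
      · rw [hd] at hq; exact absurd rfl hq
      · rw [hd] at hq
        simp only [ne_eq, ite_eq_right_iff, Classical.not_imp] at hq
        exact ⟨c.1, hq.1.1⟩
    obtain ⟨i, hi⟩ := h
    refine (lt_st_lev k q).trans_le ((st_strictMono k).monotone ?_)
    rw [← hi]
    have := Finset.single_le_sum (f := m) (fun _ _ => Nat.zero_le _) (mem_univ i)
    omega)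

@[simp] lemma bfin_apply (k : ℕ) (ν : ℕ → ℕ) (β : ℕ → ℝ) (κ : ℕ) (m : Fin k → ℕ) (q : ℕ) :
    bfin k ν β κ m q = bfun k ν β κ m q := rfl

/-- indices which are codes -/
def Inr (k q : ℕ) : Prop := st k (lev k q) ≤ q ∧ q - st k (lev k q) < Fintype.card (CC k (lev k q))

lemma inr_of_dec {k q : ℕ} {c : CC k (lev k q)} (h : dec k q = some c) : Inr k q := by
  unfold dec at h
  by_contra hcon
  unfold Inr at hcon
  rw [dif_neg hcon] at h
  exact absurd h (by simp)

lemma nz_level {nz : (ℕ → ℝ≥0∞) → ℝ≥0∞} (h : UpNorm nz) (k p : ℕ) (x : ℕ → ℝ≥0∞) (B : ℝ≥0∞)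
    (hx : ∀ q, x q ≠ 0 → lev k q = p ∧ Inr k q) (hB : ∀ q, x q ≤ B) : nz x ≤ 2 * B := by
  refine h.succ id monotone_id (Finset.Ico (st k p) (st k p + Fintype.card (CC k p))) x B ?_ ?_
  · intro q hq
    obtain ⟨h1, h2, h3⟩ := hx q hq
    rw [h1] at h2 h3
    refine ⟨?_, ?_⟩
    · simp only [id]
      rw [Finset.mem_Ico]
      omega
    · rw [Nat.card_Ico]
      have := card_le_st k p
      omega
  · intro s _
    have e : (fun n => if id n = s then x n else 0) = Pi.single s (x s) := by
      funext n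
      by_cases hn : n = s
      · subst hn; simp
      · simp [hn]
    rw [e]
    exact (h.single_le s (x s)).trans (hB s)

lemma nz_levels {nz : (ℕ → ℝ≥0∞) → ℝ≥0∞} (h : UpNorm nz) (k : ℕ) (P : Finset ℕ) (hP : P.card ≤ k)
    (x : ℕ → ℝ≥0∞) (B : ℝ≥0∞)
    (hx : ∀ q, x q ≠ 0 → lev k q ∈ P ∧ Inr k q) (hB : ∀ q, x q ≤ B) : nz x ≤ 4 * B := by
  have h1 : nz x ≤ 2 * (2 * B) := by
    refine h.succ (lev k) (lev_mono k) P x (2 * B) ?_ ?_
    · intro q hq
      obtain ⟨h1, h2, h3⟩ := hx q hq
      refine ⟨h1, ?_⟩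
      have := le_st k (lev k q)
      omega
    · intro s _
      refine nz_level h k s _ B ?_ ?_
      · intro q hq
        by_cases hs : lev k q = s
        · simp only [hs, if_true] at hq
          exact ⟨hs, (hx q hq).2⟩
        · simp [hs] at hq
      · intro q
        split_ifs
        · exact hB q
        · exact bot_le
  calc nz x ≤ 2 * (2 * B) := h1
    _ = 4 * B := by rw [← mul_assoc]; norm_num

lemma nz_zero {nz : (ℕ → ℝ≥0∞) → ℝ≥0∞} (h : UpNorm nz) : nz (fun _ => 0) = 0 := by
  have h1 := h.single_le 0 0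
  rw [Pi.single_zero] at h1
  exact le_antisymm h1 bot_le

lemma nz_sum {nz : (ℕ → ℝ≥0∞) → ℝ≥0∞} (h : UpNorm nz) {ι : Type*} (s : Finset ι)
    (a : ι → ℕ → ℝ≥0∞) : nz (fun n => ∑ j ∈ s, a j n) ≤ ∑ j ∈ s, nz (a j) := by
  classical
  induction s using Finset.induction_on with
  | empty =>
    simp only [Finset.sum_empty]
    rw [nz_zero h]
  | insert j s hj ih =>
    simp only [Finset.sum_insert hj]
    exact (h.add _ _).trans (by gcongr)

open Classical in
/-- the pointwise estimate for the difference of two coefficient sequences -/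
lemma bfun_sub_le (k : ℕ) (ν : ℕ → ℕ) (β : ℕ → ℝ) (hβ : ∀ κ, 0 ≤ β κ) (κ : ℕ) (m n : Fin k → ℕ)
    (q : ℕ) : ‖bfun k ν β κ m q - bfun k ν β κ n q‖ₑ ≤
      (if lev k q ∈ univ.image m ∧ Inr k q then
        ENNReal.ofReal (β κ * ((univ.filter fun j : Fin k => m j ≠ n j).card : ℝ)) else 0) +
      ∑ i ∈ univ.filter (fun i : Fin k => m i ≠ n i), (if ν i = κ then
        ((if lev k q = m i ∧ Inr k q then 1 else 0) + (if lev k q = n i ∧ Inr k q then 1 else 0))
        else 0) := by
  set l : ℝ := ((univ.filter fun j : Fin k => m j ≠ n j).card : ℝ) with hl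
  have hl0 : 0 ≤ l := by positivity
  rcases hd : dec k q with _ | c
  · unfold bfun
    rw [hd]
    simp [vcode]
  have hinr := inr_of_dec hd
  have hm : bfun k ν β κ m q = if m c.1 = lev k q ∧ ν c.1 = κ then coef k (β κ) m c.1 c.2 else 0 := by
    unfold bfun; rw [hd]; rfl
  have hn : bfun k ν β κ n q = if n c.1 = lev k q ∧ ν c.1 = κ then coef k (β κ) n c.1 c.2 else 0 := by
    unfold bfun; rw [hd]; rfl
  rw [hm, hn]
  have hc0m := coef_nonneg (hβ κ) m c.1 c.2
  have hc0n := coef_nonneg (hβ κ) n c.1 c.2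
  have hc1m := coef_le_one (β := β κ) m c.1 c.2
  have hc1n := coef_le_one (β := β κ) n c.1 c.2
  by_cases hν : ν c.1 = κ
  · by_cases hmn : m c.1 = n c.1
    · -- same value
      by_cases hlev : m c.1 = lev k q
      · rw [if_pos ⟨hlev, hν⟩, if_pos ⟨hmn ▸ hlev, hν⟩]
        have hmem : lev k q ∈ univ.image m := mem_image.2 ⟨c.1, mem_univ _, hlev⟩
        rw [if_pos ⟨hmem, hinr⟩]
        refine le_trans ?_ le_self_add
        rw [← ofReal_norm]
        apply ENNReal.ofReal_le_ofReal
        rw [Real.norm_eq_abs, abs_le]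
        constructor
        · have := coef_sub_le (hβ κ) n m c.1 c.2
          have e : (univ.filter fun j : Fin k => n j ≠ m j) = univ.filter fun j : Fin k => m j ≠ n j := by
            ext j; simp [eq_comm]
          rw [e] at this
          linarith
        · exact coef_sub_le (hβ κ) m n c.1 c.2
      · rw [if_neg (fun h => hlev h.1), if_neg (fun h => hlev (hmn.trans h.1))]
        simp
    · -- different values
      have hmem : c.1 ∈ univ.filter (fun i : Fin k => m i ≠ n i) := by simp [hmn]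
      refine le_trans ?_ (le_add_left (Finset.single_le_sum (f := fun i : Fin k => if ν i = κ then
        ((if lev k q = m i ∧ Inr k q then (1 : ℝ≥0∞) else 0) +
          (if lev k q = n i ∧ Inr k q then 1 else 0)) else 0) (fun _ _ => bot_le) hmem))
      simp only [hν, if_true, and_true, hinr]
      by_cases h1 : m c.1 = lev k q
      · have h2 : ¬ n c.1 = lev k q := fun h => hmn (h1.trans h.symm)
        rw [if_pos h1, if_neg h2, if_pos h1.symm, if_neg (fun h => h2 h.symm), sub_zero, add_zero,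
          ← ofReal_norm, Real.norm_eq_abs, abs_of_nonneg hc0m]
        rw [← ENNReal.ofReal_one]
        exact ENNReal.ofReal_le_ofReal hc1m
      · by_cases h2 : n c.1 = lev k q
        · rw [if_neg h1, if_pos h2, if_neg (fun h => h1 h.symm), if_pos h2.symm, zero_sub, zero_add,
            enorm_neg, ← ofReal_norm, Real.norm_eq_abs, abs_of_nonneg hc0n]
          rw [← ENNReal.ofReal_one]
          exact ENNReal.ofReal_le_ofReal hc1n
        · rw [if_neg h1, if_neg h2]
          simp
  · simp [hν]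

open Classical in
lemma nz_block_le {nz : (ℕ → ℝ≥0∞) → ℝ≥0∞} (h : UpNorm nz) (k : ℕ) (ν : ℕ → ℕ) (β : ℕ → ℝ)
    (hβ : ∀ κ, 0 ≤ β κ) (κ : ℕ) (m n : Fin k → ℕ) :
    nz (fun q => ‖bfun k ν β κ m q - bfun k ν β κ n q‖ₑ) ≤
      4 * ENNReal.ofReal (β κ * ((univ.filter fun j : Fin k => m j ≠ n j).card : ℝ)) +
      ∑ i ∈ univ.filter (fun i : Fin k => m i ≠ n i), (if ν i = κ then 4 else 0) := by
  refine (h.mono fun q => bfun_sub_le k ν β hβ κ m n q).trans ((h.add _ _).trans ?_)
  refine add_le_add ?_ ?_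
  · refine nz_levels h k (univ.image m) (card_image_le.trans (by simp)) _ _ ?_ ?_
    · intro q hq
      by_contra hcon
      rw [if_neg hcon] at hq
      exact hq rfl
    · intro q
      split_ifs
      · exact le_rfl
      · exact bot_le
  · refine (nz_sum h _ _).trans (Finset.sum_le_sum fun i _ => ?_)
    by_cases hν : ν i = κ
    · simp only [hν, if_true]
      refine (h.add _ _).trans ?_
      have h1 : ∀ p, nz (fun q => if lev k q = p ∧ Inr k q then (1 : ℝ≥0∞) else 0) ≤ 2 := by
        intro p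
        have := nz_level h k p (fun q => if lev k q = p ∧ Inr k q then (1 : ℝ≥0∞) else 0) 1 ?_ ?_
        · rwa [mul_one] at this
        · intro q hq
          by_contra hcon
          rw [if_neg hcon] at hq
          exact hq rfl
        · intro q
          split_ifs
          · exact le_rfl
          · exact bot_le
      calc _ ≤ (2 : ℝ≥0∞) + 2 := add_le_add (h1 _) (h1 _)
        _ = 4 := by norm_num
    · simp only [hν, if_false]
      rw [nz_zero h]


open Classical in
lemma nz_single_block_le {nz : (ℕ → ℝ≥0∞) → ℝ≥0∞} (h : UpNorm nz) (k : ℕ) (ν : ℕ → ℕ) (β : ℕ → ℝ)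
    (hβ : ∀ κ, 0 ≤ β κ) (κ : ℕ) (m : Fin k → ℕ) :
    nz (fun q => ‖bfun k ν β κ m q‖ₑ) ≤ ∑ i : Fin k, (if ν i = κ then 2 else 0) := by
  have h0 : ∀ q, ‖bfun k ν β κ m q‖ₑ ≤ ∑ i : Fin k,
      (if ν i = κ then (if lev k q = m i ∧ Inr k q then (1 : ℝ≥0∞) else 0) else 0) := by
    intro q
    rcases hd : dec k q with _ | c
    · unfold bfun
      rw [hd]
      simp [vcode]
    have hinr := inr_of_dec hd
    have hm : bfun k ν β κ m q =
        if m c.1 = lev k q ∧ ν c.1 = κ then coef k (β κ) m c.1 c.2 else 0 := by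
      unfold bfun; rw [hd]; rfl
    rw [hm]
    by_cases hc : m c.1 = lev k q ∧ ν c.1 = κ
    · rw [if_pos hc]
      refine le_trans ?_ (Finset.single_le_sum (f := fun i : Fin k => if ν i = κ then
        (if lev k q = m i ∧ Inr k q then (1 : ℝ≥0∞) else 0) else 0) (fun _ _ => bot_le)
        (mem_univ c.1))
      simp only [hc.2, if_true, hc.1.symm, hinr, and_self]
      rw [← ofReal_norm, Real.norm_eq_abs, abs_of_nonneg (coef_nonneg (hβ κ) m c.1 c.2),
        ← ENNReal.ofReal_one]
      exact ENNReal.ofReal_le_ofReal (coef_le_one m c.1 c.2)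
    · rw [if_neg hc]
      simp
  refine (h.mono h0).trans ((nz_sum h _ _).trans (Finset.sum_le_sum fun i _ => ?_))
  by_cases hν : ν i = κ
  · simp only [hν, if_true]
    have := nz_level h k (m i) (fun q => if lev k q = m i ∧ Inr k q then (1 : ℝ≥0∞) else 0) 1 ?_ ?_
    · rwa [mul_one] at this
    · intro q hq
      by_contra hcon
      rw [if_neg hcon] at hq
      exact hq rfl
    · intro q
      split_ifs
      · exact le_rfl
      · exact bot_le
  · simp only [hν, if_false]
    rw [nz_zero h]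

/-- choice of an index with prescribed ruler value after many differences -/
lemma exists_idx {k : ℕ} (m n : Fin k → ℕ) (h κ : ℕ)
    (hl : 2 * h ≤ (univ.filter fun j : Fin k => m j ≠ n j).card) (hκ : 2 ^ (κ + 1) ≤ h) :
    ∃ i : Fin k, padicValNat 2 ((i : ℕ) + 1) = κ ∧
      h ≤ (univ.filter fun j : Fin k => j < i ∧ m j ≠ n j).card := by
  classical
  set c : ℕ → ℕ := fun i => (univ.filter fun j : Fin k => (j : ℕ) < i ∧ m j ≠ n j).card with hc
  have hck : c k = (univ.filter fun j : Fin k => m j ≠ n j).card := by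
    simp only [hc]
    congr 1
    ext j
    simp
  have hc0 : c 0 = 0 := by simp [hc]
  have hstep : ∀ i, c (i + 1) ≤ c i + 1 := by
    intro i
    simp only [hc]
    by_cases hi : i < k
    · refine le_trans (card_le_card (t := insert (⟨i, hi⟩ : Fin k)
        (univ.filter fun j : Fin k => (j : ℕ) < i ∧ m j ≠ n j)) ?_) (card_insert_le _ _)
      intro j hj
      rw [mem_filter] at hj
      rw [mem_insert, mem_filter]
      rcases Nat.lt_succ_iff_lt_or_eq.1 hj.2.1 with h1 | h1
      · right; exact ⟨mem_univ _, h1, hj.2.2⟩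
      · left; exact Fin.ext h1
    · refine le_trans (card_le_card ?_) (Nat.le_succ _)
      intro j hj
      rw [mem_filter] at hj ⊢
      exact ⟨mem_univ _, by have := j.2; omega, hj.2.2⟩
  have hmono : ∀ a d, c (a + d) ≤ c a + d := by
    intro a d
    induction d with
    | zero => simp
    | succ d ih => have := hstep (a + d); rw [← add_assoc]; omega
  have hmono2 : Monotone c := by
    intro a b hab
    simp only [hc]
    refine card_le_card fun j hj => ?_
    rw [mem_filter] at hj ⊢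
    exact ⟨mem_univ _, by omega, hj.2.2⟩
  have hex : ∃ i, h ≤ c i := ⟨k, by rw [hck]; omega⟩
  set i0 := Nat.find hex with hi0
  have hi0' : h ≤ c i0 := Nat.find_spec hex
  have hi0k : i0 ≤ k := Nat.find_min' hex (by rw [hck]; omega)
  have hci0 : c i0 ≤ h := by
    rcases Nat.eq_zero_or_pos i0 with h1 | h1
    · rw [h1, hc0]; exact Nat.zero_le _
    · have h2 : ¬ h ≤ c (i0 - 1) := Nat.find_min hex (by omega)
      have h3 := hstep (i0 - 1)
      rw [Nat.sub_add_cancel h1] at h3
      omega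
  have hlen : i0 + h ≤ k := by
    have h1 := hmono i0 (k - i0)
    rw [Nat.add_sub_cancel' hi0k, hck] at h1
    omega
  set M := 2 ^ κ with hM
  have hM2 : 2 ^ (κ + 1) = 2 * M := by rw [hM, pow_succ]; ring
  have hM0 : 0 < M := by positivity
  set q := (i0 + M) / (2 * M) with hq
  have hq1 : 2 * M * q ≤ i0 + M := Nat.mul_div_le _ _
  have hq2 : i0 + M < 2 * M * (q + 1) := Nat.lt_mul_div_succ _ (by omega)
  have hx1 : i0 < 2 * M * q + M := by
    have : 2 * M * (q + 1) = 2 * M * q + 2 * M := by ring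
    omega
  have hx2 : 2 * M * q + M ≤ i0 + 2 * M := by omega
  have hik : 2 * M * q + M - 1 < k := by omega
  refine ⟨⟨2 * M * q + M - 1, hik⟩, ?_, ?_⟩
  · have e : (2 * M * q + M - 1) + 1 = M * (2 * q + 1) := by
      have : 2 * M * q + M = M * (2 * q + 1) := by ring
      omega
    simp only [e]
    rw [hM]
    have hp : Fact (Nat.Prime 2) := ⟨Nat.prime_two⟩
    rw [padicValNat.mul (by positivity) (by omega), padicValNat.prime_pow]
    have : padicValNat 2 (2 * q + 1) = 0 := padicValNat.eq_zero_of_not_dvd (by omega)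
    omega
  · have h1 : c i0 ≤ c (2 * M * q + M - 1) := hmono2 (by omega)
    have h2 : c (2 * M * q + M - 1) =
        (univ.filter fun j : Fin k => j < ⟨2 * M * q + M - 1, hik⟩ ∧ m j ≠ n j).card := by
      simp only [hc]
      congr 1
    omega

/-- the weights -/
noncomputable def bt (κ : ℕ) : ℝ := 1 / 2 / 2 ^ κ

lemma bt_nonneg (κ : ℕ) : 0 ≤ bt κ := by unfold bt; positivity

/-- the ruler function -/
noncomputable def rul (i : ℕ) : ℕ := padicValNat 2 (i + 1)

/-- the lower estimate for one coordinate -/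
lemma exists_big {k : ℕ} {m n : Fin k → ℕ} (hm : StrictMono m) (hn : StrictMono n) {h κ : ℕ}
    (hl : 2 * h ≤ (univ.filter fun j : Fin k => m j ≠ n j).card) (hκ : 2 ^ (κ + 1) ≤ h) :
    ∃ q, 1 ≤ ‖bfun k rul bt κ m q - bfun k rul bt κ n q‖ₑ := by
  obtain ⟨i, hi1, hi2⟩ := exists_idx m n h κ hl hκ
  by_cases hmn : m i = n i
  · set p := m i with hp
    let y : Fin k → Fin (p + 1) := fun j => ⟨min (n j) p, by omega⟩
    have hy : ∀ j, j < i → (y j : ℕ) = n j := by
      intro j hj
      have := hn hj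
      simp only [y]
      omega
    refine ⟨enc k p (i, some y), ?_⟩
    rw [bfun_enc, bfun_enc]
    simp only
    rw [if_pos ⟨hp.symm, hi1⟩, if_pos ⟨hmn.symm, hi1⟩]
    have h1 : coef k (bt κ) n i (some y) = 0 := by
      simp only [coef]
      have : (univ.filter fun j : Fin k => j < i ∧ n j ≠ (y j : ℕ)) = ∅ := by
        rw [Finset.filter_eq_empty_iff]
        rintro j - ⟨hj, hj'⟩
        exact hj' (hy j hj).symm
      rw [this]
      simp
    have h2 : coef k (bt κ) m i (some y) = 1 := by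
      simp only [coef]
      apply min_eq_left
      have h3 : (univ.filter fun j : Fin k => j < i ∧ m j ≠ n j).card ≤
          (univ.filter fun j : Fin k => j < i ∧ m j ≠ (y j : ℕ)).card := by
        refine card_le_card fun j hj => ?_
        rw [mem_filter] at hj ⊢
        exact ⟨mem_univ _, hj.2.1, by rw [hy j hj.2.1]; exact hj.2.2⟩
      have h4 : 2 ^ (κ + 1) ≤ (univ.filter fun j : Fin k => j < i ∧ m j ≠ (y j : ℕ)).card :=
        hκ.trans (hi2.trans h3)
      have h5 : ((2 : ℝ) ^ (κ + 1)) ≤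
          ((univ.filter fun j : Fin k => j < i ∧ m j ≠ (y j : ℕ)).card : ℝ) := by exact_mod_cast h4
      have h6 : bt κ * 2 ^ (κ + 1) = 1 := by
        unfold bt
        rw [pow_succ]
        field_simp
      calc (1 : ℝ) = bt κ * 2 ^ (κ + 1) := h6.symm
        _ ≤ _ := mul_le_mul_of_nonneg_left h5 (bt_nonneg κ)
    rw [h1, h2]
    simp
  · refine ⟨enc k (m i) (i, none), ?_⟩
    have e1 : bfun k rul bt κ m (enc k (m i) (i, none)) = 1 := by
      rw [bfun_enc]; exact if_pos ⟨rfl, hi1⟩
    have e2 : bfun k rul bt κ n (enc k (m i) (i, none)) = 0 := by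
      rw [bfun_enc]; exact if_neg (fun hcon => hmn hcon.1.symm)
    rw [e1, e2]
    simp

open Classical in
/-- **The Hamming graphs embed equi-coarsely** into a sum of spaces with far-out `ℓ_∞^n`'s, as soon
as the outer norm is unbounded on the indicators of initial segments. -/
theorem hamming_embeds (𝓑 : TestFam)
    (hunb : ∀ C : ℝ≥0∞, C ≠ ∞ → ∃ P : ℕ, C < 𝓑.nrm (fun n => if n < P then 1 else 0))
    (Z : Type) [NormedAddCommGroup Z] [NormedSpace ℝ Z] (nz : (ℕ → ℝ≥0∞) → ℝ≥0∞) (hnz : UpNorm nz)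
    (J : (ℕ →₀ ℝ) →ₗ[ℝ] Z) (hlow : ∀ b n, ‖b n‖ₑ ≤ ‖J b‖ₑ) (hup : ∀ b, ‖J b‖ₑ ≤ nz (fun n => ‖b n‖ₑ)) :
    EquiCoarselyEmbeds HV dH (KSum 𝓑 Z) := by
  have hsingle : ∀ (a : ℕ) (c : ℝ≥0∞), 𝓑.nrm (fun κ => if a = κ then c else 0) ≤ c := by
    intro a c
    have e : (fun κ => if a = κ then c else 0) = Pi.single a c := by
      funext κ
      by_cases h : a = κ
      · subst h; simp
      · have : κ ≠ a := fun h' => h h'.symm
        simp [h, this]
    rw [e]
    exact TestFam.nrm_single_le _ _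
  have hfin : ∀ t : ℝ, 𝓑.nrm (fun κ => if 2 ^ (κ + 1) ≤ ⌊t⌋₊ / 2 then 1 else 0) ≠ ∞ := by
    intro t
    have h1 : (fun κ => if 2 ^ (κ + 1) ≤ ⌊t⌋₊ / 2 then (1 : ℝ≥0∞) else 0) ≤
        fun κ => ∑ a ∈ range ⌊t⌋₊, (if a = κ then 1 else 0) := by
      intro κ
      simp only
      split_ifs with hk
      · have h2 : κ < ⌊t⌋₊ := by
          have h3 : κ < 2 ^ κ := Nat.lt_two_pow_self
          have h4 : 2 ^ (κ + 1) = 2 * 2 ^ κ := by rw [pow_succ]; ring
          omega
        rw [Finset.sum_ite_eq' (range ⌊t⌋₊) κ (fun _ => (1 : ℝ≥0∞)), if_pos (mem_range.2 h2)]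
      · exact bot_le
    refine ne_top_of_le_ne_top ?_ ((TestFam.nrm_mono h1).trans ((TestFam.nrm_sum_le _ _).trans
      (Finset.sum_le_sum fun a _ => hsingle a 1)))
    exact ENNReal.sum_ne_top.2 fun _ _ => ENNReal.one_ne_top
  refine ⟨fun t => (𝓑.nrm (fun κ => if 2 ^ (κ + 1) ≤ ⌊t⌋₊ / 2 then 1 else 0)).toReal,
    fun t => 8 * t, ?_, ?_, ?_, ?_, ?_⟩
  · intro s _ t _ hst
    refine ENNReal.toReal_mono (hfin t) (TestFam.nrm_mono fun κ => ?_)
    simp only
    split_ifs with h1 h2
    · exact le_rfl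
    · exact absurd (h1.trans (Nat.div_le_div_right (Nat.floor_mono hst))) h2
    · exact bot_le
    · exact le_rfl
  · intro s _ t _ hst
    simp only
    linarith
  · intro t ht
    exact ⟨ENNReal.toReal_nonneg, by positivity⟩
  · rw [tendsto_atTop]
    intro C
    obtain ⟨P, hP⟩ := hunb (ENNReal.ofReal C) ENNReal.ofReal_ne_top
    filter_upwards [eventually_ge_atTop ((2 : ℝ) ^ (P + 2))] with t ht
    rw [← ENNReal.ofReal_le_iff_le_toReal (hfin t)]
    refine hP.le.trans (TestFam.nrm_mono fun κ => ?_)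
    simp only
    split_ifs with h1 h2
    · exact le_rfl
    · exfalso
      apply h2
      have h3 : 2 ^ (P + 2) ≤ ⌊t⌋₊ := by
        apply Nat.le_floor
        exact_mod_cast ht
      have h4 : 2 ^ (κ + 1) ≤ 2 ^ P := Nat.pow_le_pow_right (by norm_num) h1
      have h5 : 2 ^ (P + 2) = 4 * 2 ^ P := by rw [pow_add]; ring
      omega
    · exact bot_le
    · exact le_rfl
  · intro k
    have hnu : ∀ m : Fin k → ℕ, 𝓑.nrm (fun κ => ‖J (bfin k rul bt κ m)‖ₑ) ≠ ∞ := by
      intro m
      have h1 : (fun κ => ‖J (bfin k rul bt κ m)‖ₑ) ≤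
          fun κ => ∑ i : Fin k, (if rul i = κ then 2 else 0) := fun κ =>
        (hup _).trans (nz_single_block_le hnz k rul bt bt_nonneg κ m)
      refine ne_top_of_le_ne_top ?_ ((TestFam.nrm_mono h1).trans ((TestFam.nrm_sum_le _ _).trans
        (Finset.sum_le_sum fun a _ => hsingle (rul a) 2)))
      exact ENNReal.sum_ne_top.2 fun _ _ => by norm_num
    refine ⟨fun m => KSum.mk (fun κ => J (bfin k rul bt κ m.1)) (hnu m.1), fun m n => ?_⟩
    set l : ℕ := (univ.filter fun i => m.1 i ≠ n.1 i).card with hldef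
    have hval : ∀ κ, (KSum.mk (𝓑 := 𝓑) (fun κ => J (bfin k rul bt κ m.1)) (hnu m.1) -
        KSum.mk (fun κ => J (bfin k rul bt κ n.1)) (hnu n.1)).val κ =
        J (bfin k rul bt κ m.1 - bfin k rul bt κ n.1) := by
      intro κ
      rw [map_sub]
      rfl
    have hdl : dH k m n = (l : ℝ) := rfl
    refine ⟨?_, ?_⟩
    · -- lower bound
      rw [hdl, ← toReal_enorm (KSum.mk (𝓑 := 𝓑) (fun κ => J (bfin k rul bt κ m.1)) (hnu m.1) -
        KSum.mk (fun κ => J (bfin k rul bt κ n.1)) (hnu n.1))]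
      refine ENNReal.toReal_mono enorm_ne_top ?_
      rw [KSum.enorm_eq]
      refine TestFam.nrm_mono fun κ => ?_
      simp only [Nat.floor_natCast]
      split_ifs with h1
      · obtain ⟨q, hq⟩ := exists_big m.2 n.2 (h := l / 2) (κ := κ) (by rw [← hldef]; omega) h1
        rw [hval]
        refine hq.trans ?_
        exact hlow (bfin k rul bt κ m.1 - bfin k rul bt κ n.1) q
      · exact bot_le
    · -- upper bound
      rw [hdl, ← toReal_enorm (KSum.mk (𝓑 := 𝓑) (fun κ => J (bfin k rul bt κ m.1)) (hnu m.1) -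
        KSum.mk (fun κ => J (bfin k rul bt κ n.1)) (hnu n.1))]
      refine ENNReal.toReal_le_of_le_ofReal (by positivity) ?_
      rw [KSum.enorm_eq]
      have h1 : ∀ κ, ‖(KSum.mk (𝓑 := 𝓑) (fun κ => J (bfin k rul bt κ m.1)) (hnu m.1) -
          KSum.mk (fun κ => J (bfin k rul bt κ n.1)) (hnu n.1)).val κ‖ₑ ≤
          4 * ENNReal.ofReal (bt κ * (l : ℝ)) +
          ∑ i ∈ univ.filter (fun i : Fin k => m.1 i ≠ n.1 i), (if rul i = κ then 4 else 0) := by
        intro κ
        rw [hval]
        exact (hup _).trans (nz_block_le hnz k rul bt bt_nonneg κ m.1 n.1)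
      refine (TestFam.nrm_mono h1).trans ((TestFam.nrm_add_le _ _).trans ?_)
      have h2 : 𝓑.nrm (fun κ => 4 * ENNReal.ofReal (bt κ * (l : ℝ))) ≤ 4 * ENNReal.ofReal l := by
        refine TestFam.nrm_le fun t ht => ?_
        calc ∑' κ, 4 * ENNReal.ofReal (bt κ * (l : ℝ)) * t κ
            ≤ ∑' κ, 4 * ENNReal.ofReal (bt κ * (l : ℝ)) := by
              refine ENNReal.tsum_le_tsum fun κ => ?_
              calc 4 * ENNReal.ofReal (bt κ * (l : ℝ)) * t κ
                  ≤ 4 * ENNReal.ofReal (bt κ * (l : ℝ)) * 1 :=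
                    mul_le_mul' le_rfl (𝓑.le_one t ht κ)
                _ = _ := mul_one _
          _ = 4 * ENNReal.ofReal l := by
              rw [ENNReal.tsum_mul_left]
              congr 1
              have hs : HasSum (fun κ => bt κ * (l : ℝ)) (1 * l) := (hasSum_geometric_two' 1).mul_right _
              rw [← ENNReal.ofReal_tsum_of_nonneg (fun κ => mul_nonneg (bt_nonneg κ) (by positivity))
                hs.summable, hs.tsum_eq, one_mul]
      have h3 : 𝓑.nrm (fun κ => ∑ i ∈ univ.filter (fun i : Fin k => m.1 i ≠ n.1 i),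
          (if rul i = κ then (4 : ℝ≥0∞) else 0)) ≤ 4 * ENNReal.ofReal l := by
        refine (TestFam.nrm_sum_le _ _).trans
          ((Finset.sum_le_sum fun (a : Fin k) _ => hsingle (rul a) 4).trans ?_)
        rw [Finset.sum_const, ← hldef, nsmul_eq_mul, ENNReal.ofReal_natCast, mul_comm]
      refine (add_le_add h2 h3).trans (le_of_eq ?_)
      rw [← add_mul, ENNReal.ofReal_mul (by norm_num)]
      norm_num

end Pool.Agent.W696.TS
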