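import Mathlib
import Pool.Agent.H825R3.Tsi.Func

/-!
The modified Tsirelson norm on nonnegative sequences (admissible families of disjoint sets) and its
dual norm. The index `n` stands for the position `n + 1`.
-/
set_option autoImplicit false
open scoped ENNReal
open Finset
open Pool.Agent.H825R3.Tsi (ind pr ind_apply_mem ind_apply_notMem ind_le ind_mono ind_add ind_smul
  ind_ind pr_unit pr_mono pr_add pr_ind_comm sum_iSup_le)

namespace Pool.Agent.W696.TS

/-- norming functionals of the modified Tsirelson norm -/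
inductive KM : (ℕ → ℝ≥0∞) → Prop
  | unit (n : ℕ) : KM (Pi.single n 1)
  | half (k : ℕ) (f : ℕ → ℕ → ℝ≥0∞) (hf : ∀ i, KM (f i))
      (hd : ∀ i < k, ∀ j < k, i ≠ j → ∀ n, f i n = 0 ∨ f j n = 0)
      (hk : ∀ i < k, ∀ n, f i n ≠ 0 → k ≤ n + 1) :
      KM (fun n => 2⁻¹ * ∑ i ∈ range k, f i n)

lemma ind_zero' (A : Set ℕ) : ind A (0 : ℕ → ℝ≥0∞) = 0 := by
  unfold ind; exact Set.indicator_zero _ _

lemma KM.zero : KM 0 := by
  have h := KM.half 0 (fun _ => Pi.single 0 1) (fun _ => KM.unit 0) (by intro i hi; omega)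
    (by intro i hi; omega)
  convert h using 1
  funext n
  simp

lemma ind_ne_zero {A : Set ℕ} {x : ℕ → ℝ≥0∞} {n : ℕ} (h : ind A x n ≠ 0) : n ∈ A ∧ x n ≠ 0 := by
  by_cases hn : n ∈ A
  · rw [ind_apply_mem hn] at h; exact ⟨hn, h⟩
  · rw [ind_apply_notMem hn] at h; exact absurd rfl h

lemma KM.restr {f : ℕ → ℝ≥0∞} (hf : KM f) (A : Set ℕ) : KM (ind A f) := by
  induction hf with
  | unit n =>
    by_cases h : n ∈ A
    · convert KM.unit n using 1
      funext m
      by_cases hm : m ∈ A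
      · rw [ind_apply_mem hm]
      · rw [ind_apply_notMem hm]
        have : m ≠ n := fun h' => hm (h' ▸ h)
        simp [this]
    · convert KM.zero using 1
      funext m
      by_cases hm : m ∈ A
      · rw [ind_apply_mem hm]
        have : m ≠ n := fun h' => h (h' ▸ hm)
        simp [this]
      · rw [ind_apply_notMem hm]; rfl
  | half k f hf hd hk ih =>
    have h := KM.half k (fun i => ind A (f i)) ih (by
      intro i hi j hj hij n
      by_cases hn : n ∈ A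
      · simp only [ind_apply_mem hn]; exact hd i hi j hj hij n
      · left; exact ind_apply_notMem hn _) (by
      intro i hi n hn
      exact hk i hi n (ind_ne_zero hn).2)
    convert h using 1
    funext n
    by_cases hn : n ∈ A
    · simp only [ind_apply_mem hn]
    · simp only [ind_apply_notMem hn]; simp

lemma KM.le_one {f : ℕ → ℝ≥0∞} (hf : KM f) (n : ℕ) : f n ≤ 1 := by
  induction hf with
  | unit m =>
    by_cases h : n = m
    · subst h; simp
    · simp [h]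
  | half k f hf hd hk ih =>
    show 2⁻¹ * ∑ i ∈ range k, f i n ≤ 1
    by_cases h : ∃ i < k, f i n ≠ 0
    · obtain ⟨i, hi, hin⟩ := h
      rw [Finset.sum_eq_single_of_mem i (mem_range.2 hi)]
      · calc 2⁻¹ * f i n ≤ 1 * 1 := mul_le_mul' (by norm_num) (ih i)
          _ = 1 := by simp
      · intro j hj hji
        rcases hd j (mem_range.1 hj) i hi hji n with h | h
        · exact h
        · exact absurd h hin
    · push Not at h
      rw [Finset.sum_eq_zero fun i hi => h i (mem_range.1 hi)]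
      simp

/-- the modified Tsirelson norm -/
noncomputable def NM (t : ℕ → ℝ≥0∞) : ℝ≥0∞ := ⨆ f : {f : ℕ → ℝ≥0∞ // KM f}, pr f.1 t

lemma KM.pr_le {f : ℕ → ℝ≥0∞} (hf : KM f) (t : ℕ → ℝ≥0∞) : pr f t ≤ NM t :=
  le_iSup (fun f : {f : ℕ → ℝ≥0∞ // KM f} => pr f.1 t) ⟨f, hf⟩

lemma NM_le {t : ℕ → ℝ≥0∞} {B : ℝ≥0∞} (h : ∀ f, KM f → pr f t ≤ B) : NM t ≤ B :=
  iSup_le fun f => h f.1 f.2

lemma pr_comm (f t : ℕ → ℝ≥0∞) : pr f t = pr t f := by
  unfold pr
  exact tsum_congr fun n => mul_comm _ _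

lemma pr_smul (f t : ℕ → ℝ≥0∞) (c : ℝ≥0∞) : pr f (c • t) = c * pr f t := by
  unfold pr
  rw [← ENNReal.tsum_mul_left]
  refine tsum_congr fun n => ?_
  simp only [Pi.smul_apply, smul_eq_mul]
  ring

lemma NM_mono {s t : ℕ → ℝ≥0∞} (h : s ≤ t) : NM s ≤ NM t :=
  NM_le fun f hf => (pr_mono f h).trans (hf.pr_le t)

lemma NM_smul_le (c : ℝ≥0∞) (t : ℕ → ℝ≥0∞) : NM (c • t) ≤ c * NM t :=
  NM_le fun f hf => by
    rw [pr_smul]
    gcongr
    exact hf.pr_le t

lemma NM_add (s t : ℕ → ℝ≥0∞) : NM (s + t) ≤ NM s + NM t :=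
  NM_le fun f hf => by
    rw [pr_add]
    exact add_le_add (hf.pr_le s) (hf.pr_le t)

lemma le_NM (t : ℕ → ℝ≥0∞) (n : ℕ) : t n ≤ NM t := by
  rw [← pr_unit n t]; exact (KM.unit n).pr_le t

lemma NM_ind_le (A : Set ℕ) (t : ℕ → ℝ≥0∞) : NM (ind A t) ≤ NM t := NM_mono (ind_le A t)

lemma pr_single_right (f : ℕ → ℝ≥0∞) (n : ℕ) (c : ℝ≥0∞) : pr f (Pi.single n c) = f n * c := by
  unfold pr
  rw [tsum_eq_single n]
  · simp
  · intro m hm; simp [hm]

lemma NM_single_le (n : ℕ) (c : ℝ≥0∞) : NM (Pi.single n c) ≤ c :=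
  NM_le fun f hf => by
    rw [pr_single_right]
    calc f n * c ≤ 1 * c := mul_le_mul' (hf.le_one n) le_rfl
      _ = c := one_mul c

/-- lower `ℓ₁` estimate for disjoint sets -/
lemma sum_NM_le (k : ℕ) (E : ℕ → Set ℕ) (hd : ∀ i < k, ∀ j < k, i ≠ j → Disjoint (E i) (E j))
    (hk : ∀ i < k, ∀ n ∈ E i, k ≤ n + 1) (t : ℕ → ℝ≥0∞) :
    ∑ i ∈ range k, NM (ind (E i) t) ≤ 2 * NM t := by
  have : Nonempty {f : ℕ → ℝ≥0∞ // KM f} := ⟨⟨_, KM.unit 0⟩⟩
  have h1 : ∑ i ∈ range k, (⨆ f : {f : ℕ → ℝ≥0∞ // KM f}, pr f.1 (ind (E i) t)) + 0 ≤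
      2 * NM t := by
    apply sum_iSup_le
    intro φ
    rw [add_zero]
    have h2 := (KM.half k (fun i => ind (E i) (φ i).1) (fun i => (φ i).2.restr _) (by
      intro i hi j hj hij n
      by_cases hn : n ∈ E i
      · right
        exact ind_apply_notMem (Set.disjoint_left.1 (hd i hi j hj hij) hn) _
      · left
        exact ind_apply_notMem hn _) (by
      intro i hi n hn
      exact hk i hi n (ind_ne_zero hn).1)).pr_le t
    have h3 : pr (fun n => 2⁻¹ * ∑ i ∈ range k, ind (E i) (φ i).1 n) t =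
        2⁻¹ * ∑ i ∈ range k, pr (φ i).1 (ind (E i) t) := by
      unfold pr
      rw [← Summable.tsum_finsetSum (fun i _ => ENNReal.summable), ← ENNReal.tsum_mul_left]
      refine tsum_congr fun n => ?_
      rw [mul_assoc, Finset.sum_mul]
      congr 1
      refine Finset.sum_congr rfl fun i _ => ?_
      by_cases hn : n ∈ E i
      · rw [ind_apply_mem hn, ind_apply_mem hn]
      · rw [ind_apply_notMem hn, ind_apply_notMem hn, zero_mul, mul_zero]
    rw [h3] at h2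
    calc ∑ i ∈ range k, pr (φ i).1 (ind (E i) t)
        = 2 * (2⁻¹ * ∑ i ∈ range k, pr (φ i).1 (ind (E i) t)) := by
          rw [← mul_assoc, ENNReal.mul_inv_cancel (by norm_num) (by norm_num), one_mul]
      _ ≤ _ := by gcongr
  rw [add_zero] at h1
  exact h1

/-- the dual norm -/
noncomputable def WM (a : ℕ → ℝ≥0∞) : ℝ≥0∞ := ⨆ t : {t : ℕ → ℝ≥0∞ // NM t ≤ 1}, pr a t.1

lemma pr_le_WM (a : ℕ → ℝ≥0∞) {t : ℕ → ℝ≥0∞} (ht : NM t ≤ 1) : pr a t ≤ WM a :=
  le_iSup (fun t : {t : ℕ → ℝ≥0∞ // NM t ≤ 1} => pr a t.1) ⟨t, ht⟩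

lemma WM_le {a : ℕ → ℝ≥0∞} {B : ℝ≥0∞} (h : ∀ t, NM t ≤ 1 → pr a t ≤ B) : WM a ≤ B :=
  iSup_le fun t => h t.1 t.2

lemma pr_mono_left {f g : ℕ → ℝ≥0∞} (t : ℕ → ℝ≥0∞) (h : f ≤ g) : pr f t ≤ pr g t := by
  rw [pr_comm f, pr_comm g]; exact pr_mono t h

lemma WM_mono {a b : ℕ → ℝ≥0∞} (h : a ≤ b) : WM a ≤ WM b :=
  WM_le fun t ht => (pr_mono_left t h).trans (pr_le_WM b ht)

lemma le_WM (a : ℕ → ℝ≥0∞) (n : ℕ) : a n ≤ WM a := by
  have h := pr_le_WM a (NM_single_le n 1)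
  rwa [pr_single_right, mul_one] at h

lemma WM_single_le (n : ℕ) (c : ℝ≥0∞) : WM (Pi.single n c) ≤ c :=
  WM_le fun t ht => by
    rw [pr_comm, pr_single_right]
    calc t n * c ≤ 1 * c := mul_le_mul' ((le_NM t n).trans ht) le_rfl
      _ = c := one_mul c

/-- Hölder -/
lemma pr_le_mul (a t : ℕ → ℝ≥0∞) : pr a t ≤ WM a * NM t := by
  rcases eq_or_ne (NM t) 0 with h0 | h0
  · have : t = 0 := by
      funext n
      have := le_NM t n
      rw [h0] at this
      exact le_antisymm this bot_le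
    rw [this]
    simp [pr]
  rcases eq_or_ne (NM t) ∞ with h1 | h1
  · rcases eq_or_ne (WM a) 0 with h2 | h2
    · have : a = 0 := by
        funext n
        have := le_WM a n
        rw [h2] at this
        exact le_antisymm this bot_le
      rw [this]
      simp [pr]
    · rw [h1, ENNReal.mul_top h2]; exact le_top
  · have h3 : NM ((NM t)⁻¹ • t) ≤ 1 := (NM_smul_le _ _).trans (by
      rw [ENNReal.inv_mul_cancel h0 h1])
    have h4 := pr_le_WM a h3
    rw [pr_smul] at h4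
    calc pr a t = NM t * ((NM t)⁻¹ * pr a t) := by
          rw [← mul_assoc, ENNReal.mul_inv_cancel h0 h1, one_mul]
      _ ≤ NM t * WM a := by gcongr
      _ = _ := mul_comm _ _

/-- upper `c₀` estimate for disjoint pieces -/
lemma WM_disj (k : ℕ) (E : ℕ → Set ℕ) (hd : ∀ i < k, ∀ j < k, i ≠ j → Disjoint (E i) (E j))
    (hk : ∀ i < k, ∀ n ∈ E i, k ≤ n + 1) (a : ℕ → ℝ≥0∞) (hs : ∀ n, a n ≠ 0 → ∃ i < k, n ∈ E i)
    {B : ℝ≥0∞} (hB : ∀ i < k, WM (ind (E i) a) ≤ B) : WM a ≤ 2 * B := by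
  refine WM_le fun t ht => ?_
  have h1 : pr a t ≤ ∑ i ∈ range k, pr (ind (E i) a) (ind (E i) t) := by
    unfold pr
    rw [← Summable.tsum_finsetSum (fun i _ => ENNReal.summable)]
    refine ENNReal.tsum_le_tsum fun n => ?_
    rcases eq_or_ne (a n) 0 with h0 | h0
    · rw [h0, zero_mul]; exact bot_le
    · obtain ⟨i, hi, hn⟩ := hs n h0
      refine le_trans (le_of_eq ?_) (Finset.single_le_sum
        (f := fun i => ind (E i) a n * ind (E i) t n) (fun _ _ => bot_le) (mem_range.2 hi))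
      simp only [ind_apply_mem hn]
  calc pr a t ≤ ∑ i ∈ range k, pr (ind (E i) a) (ind (E i) t) := h1
    _ ≤ ∑ i ∈ range k, B * NM (ind (E i) t) := by
        refine Finset.sum_le_sum fun i hi => (pr_le_mul _ _).trans ?_
        gcongr
        exact hB i (mem_range.1 hi)
    _ = B * ∑ i ∈ range k, NM (ind (E i) t) := by rw [Finset.mul_sum]
    _ ≤ B * (2 * 1) := by
        gcongr
        exact (sum_NM_le k E hd hk t).trans (by gcongr)
    _ = 2 * B := by rw [mul_one, mul_comm]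

end Pool.Agent.W696.TS
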