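import Mathlib
import Pool.Agent.W696.TS.Norm

/-!
The dual of the modified Tsirelson norm is order continuous: tails of a vector of finite norm tend
to zero.
-/
set_option autoImplicit false
open scoped ENNReal
open Finset
open Pool.Agent.H825R3.Tsi (ind pr ind_apply_mem ind_apply_notMem ind_le ind_mono ind_add ind_smul
  ind_ind pr_unit pr_mono pr_add pr_ind_comm)

namespace Pool.Agent.W696.TS

/-- the splitting norm: at most `k` disjoint pieces -/
noncomputable def DD (k : ℕ) (t : ℕ → ℝ≥0∞) : ℝ≥0∞ :=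
  ⨆ p : {p : Finset ℕ × (ℕ → ℕ) // p.1.card ≤ k}, ∑ s ∈ p.1.1, NM (ind {n | p.1.2 n = s} t)

lemma le_DD {k : ℕ} (S : Finset ℕ) (c : ℕ → ℕ) (h : S.card ≤ k) (t : ℕ → ℝ≥0∞) :
    ∑ s ∈ S, NM (ind {n | c n = s} t) ≤ DD k t :=
  le_iSup (fun p : {p : Finset ℕ × (ℕ → ℕ) // p.1.card ≤ k} =>
    ∑ s ∈ p.1.1, NM (ind {n | p.1.2 n = s} t)) ⟨(S, c), h⟩

lemma DD_le {k : ℕ} {t : ℕ → ℝ≥0∞} {B : ℝ≥0∞}
    (h : ∀ (S : Finset ℕ) (c : ℕ → ℕ), S.card ≤ k → ∑ s ∈ S, NM (ind {n | c n = s} t) ≤ B) :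
    DD k t ≤ B :=
  iSup_le fun p => h p.1.1 p.1.2 p.2

lemma NM_le_DD {k : ℕ} (hk : 1 ≤ k) (t : ℕ → ℝ≥0∞) : NM t ≤ DD k t := by
  have h := le_DD (k := k) {0} (fun _ => 0) (by simpa using hk) t
  rw [Finset.sum_singleton] at h
  convert h using 2
  funext n
  rw [ind_apply_mem (by simp)]

/-- finite sums of suprema -/
lemma sum_iSup_le' {J : Type*} [Nonempty J] (B : ℝ≥0∞) (F : ℕ → J → ℝ≥0∞) (S : Finset ℕ) :
    ∀ C : ℝ≥0∞, (∀ φ : ℕ → J, (∑ i ∈ S, F i (φ i)) + C ≤ B) →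
      (∑ i ∈ S, (⨆ j, F i j)) + C ≤ B := by
  induction S using Finset.induction_on with
  | empty => intro C h; simpa using h (fun _ => Classical.arbitrary J)
  | insert a S ha ih =>
    intro C h
    rw [Finset.sum_insert ha, add_comm (⨆ j, F a j), add_assoc, ENNReal.iSup_add, ENNReal.add_iSup]
    refine iSup_le fun j => ih (F a j + C) fun φ => ?_
    have := h (fun i => if i = a then j else φ i)
    rw [Finset.sum_insert ha] at this
    simp only [if_true] at this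
    rw [add_comm (F a j), add_assoc] at this
    refine le_trans (le_of_eq ?_) this
    congr 1
    refine Finset.sum_congr rfl fun i hi => ?_
    rw [if_neg (by rintro rfl; exact ha hi)]

/-- lower `ℓ₁` estimate for a finite family of disjoint sets -/
lemma sum_NM_le_finset (S : Finset ℕ) (c : ℕ → ℕ) (t : ℕ → ℝ≥0∞)
    (ht : ∀ n, t n ≠ 0 → S.card ≤ n + 1) :
    ∑ s ∈ S, NM (ind {n | c n = s} t) ≤ 2 * NM t := by
  classical
  set k := S.card with hk
  let g : ℕ → ℕ := fun j => if h : j < k then (S.equivFin.symm ⟨j, h⟩ : ℕ) else 0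
  let E : ℕ → Set ℕ := fun j => {n | c n = g j ∧ k ≤ n + 1}
  have h1 : ∑ s ∈ S, NM (ind {n | c n = s} t) = ∑ j ∈ range k, NM (ind (E j) t) := by
    have e1 : ∀ s, ind {n | c n = s} t = ind {n | c n = s ∧ k ≤ n + 1} t := by
      intro s
      funext n
      by_cases hn : c n = s
      · by_cases hn' : k ≤ n + 1
        · rw [ind_apply_mem (show n ∈ {n | c n = s} from hn),
            ind_apply_mem (show n ∈ {n | c n = s ∧ k ≤ n + 1} from ⟨hn, hn'⟩)]
        · rw [ind_apply_mem (show n ∈ {n | c n = s} from hn),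
            ind_apply_notMem (show n ∉ {n | c n = s ∧ k ≤ n + 1} from fun h => hn' h.2)]
          by_contra h
          exact hn' (ht n h)
      · rw [ind_apply_notMem (show n ∉ {n | c n = s} from hn),
          ind_apply_notMem (show n ∉ {n | c n = s ∧ k ≤ n + 1} from fun h => hn h.1)]
    rw [Finset.sum_congr rfl fun s _ => by rw [e1 s]]
    rw [← Finset.sum_coe_sort, ← Equiv.sum_comp S.equivFin.symm, Finset.sum_range]
    refine Finset.sum_congr rfl fun j _ => ?_
    have : g j = (S.equivFin.symm j : ℕ) := dif_pos j.2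
    simp only [E, this]
  rw [h1]
  refine sum_NM_le k E ?_ ?_ t
  · intro i hi j hj hij
    rw [Set.disjoint_left]
    rintro n ⟨h2, -⟩ ⟨h3, -⟩
    apply hij
    have h4 : g i = g j := h2.symm.trans h3
    simp only [g, hi, hj, dif_pos] at h4
    have h5 := S.equivFin.symm.injective (Subtype.ext h4)
    simpa using h5
  · rintro i hi n ⟨-, hn⟩
    exact hn

lemma DD_le_two {k : ℕ} {t : ℕ → ℝ≥0∞} (ht : ∀ n, t n ≠ 0 → k ≤ n + 1) : DD k t ≤ 2 * NM t :=
  DD_le fun S c hS => sum_NM_le_finset S c t fun n hn => hS.trans (ht n hn)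

/-- refinement of a colouring by disjointly supported functionals -/
lemma refine_le (S : Finset ℕ) (c : ℕ → ℕ) (p : ℕ → ℕ) (g : ℕ → ℕ → ℕ → ℝ≥0∞) (q : ℕ)
    (hg : ∀ s ∈ S, ∀ i, KM (g s i)) (hp : ∀ s ∈ S, p s ≤ q)
    (hd : ∀ s ∈ S, ∀ i < p s, ∀ j < p s, i ≠ j → ∀ n, g s i n = 0 ∨ g s j n = 0)
    (y : ℕ → ℝ≥0∞) :
    ∑ s ∈ S, ∑ i ∈ range (p s), pr (g s i) (ind {n | c n = s} y) ≤ DD (S.card * q) y := by
  classical
  let c' : ℕ → ℕ := fun n => if h : ∃ i, i < p (c n) ∧ g (c n) i n ≠ 0 then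
    Nat.pair (c n) h.choose else Nat.pair (c n) q
  have h1 : ∀ s ∈ S, ∀ i < p s, pr (g s i) (ind {n | c n = s} y) ≤
      NM (ind {n | c' n = Nat.pair s i} y) := by
    intro s hs i hi
    refine le_trans ?_ ((hg s hs i).pr_le _)
    unfold pr
    refine ENNReal.tsum_le_tsum fun n => ?_
    rcases eq_or_ne (g s i n) 0 with h0 | h0
    · rw [h0, zero_mul, zero_mul]
    · by_cases hn : c n = s
      · subst hn
        have hex : ∃ i, i < p (c n) ∧ g (c n) i n ≠ 0 := ⟨i, hi, h0⟩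
        have hch := hex.choose_spec
        have hi' : hex.choose = i := by
          by_contra hne
          rcases hd (c n) hs _ hch.1 i hi hne n with h | h
          · exact hch.2 h
          · exact h0 h
        have : c' n = Nat.pair (c n) i := by
          simp only [c', dif_pos hex, hi']
        rw [ind_apply_mem (show n ∈ {m | c m = c n} from rfl),
          ind_apply_mem (show n ∈ {m | c' m = Nat.pair (c n) i} from this)]
      · rw [ind_apply_notMem (show n ∉ {n | c n = s} from hn), mul_zero]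
        exact bot_le
  calc ∑ s ∈ S, ∑ i ∈ range (p s), pr (g s i) (ind {n | c n = s} y)
      ≤ ∑ s ∈ S, ∑ i ∈ range (p s), NM (ind {n | c' n = Nat.pair s i} y) :=
        Finset.sum_le_sum fun s hs => Finset.sum_le_sum fun i hi => h1 s hs i (mem_range.1 hi)
    _ ≤ ∑ s ∈ S, ∑ i ∈ range q, NM (ind {n | c' n = Nat.pair s i} y) := by
        refine Finset.sum_le_sum fun s hs => ?_
        exact Finset.sum_le_sum_of_subset (Finset.range_mono (hp s hs))
    _ = ∑ z ∈ (S ×ˢ range q).image (fun z => Nat.pair z.1 z.2), NM (ind {n | c' n = z} y) := by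
        rw [Finset.sum_image, Finset.sum_product]
        rintro ⟨a, b⟩ _ ⟨a', b'⟩ _ h
        have := Nat.pair_eq_pair.1 h
        exact Prod.ext this.1 this.2
    _ ≤ DD (S.card * q) y := by
        refine le_DD _ c' ?_ y
        refine Finset.card_image_le.trans ?_
        rw [Finset.card_product, card_range]

/-- the structure of a norming functional against successive blocks -/
lemma struct {f : ℕ → ℝ≥0∞} (hf : KM f) (A : Set ℕ) (y : ℕ → ℕ → ℝ≥0∞) (ns : ℕ → ℕ)
    (hns : Monotone ns) (hy : ∀ j i, y j i ≠ 0 → ns j ≤ i ∧ i < ns (j + 1)) :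
    ∃ (J p : ℕ) (g : ℕ → ℕ → ℝ≥0∞), (∀ i, KM (g i)) ∧
      (∀ i < p, ∀ j < p, i ≠ j → ∀ n, g i n = 0 ∨ g j n = 0) ∧
      (∀ j < J, pr f (ind A (y j)) = 0) ∧
      (∀ j, J < j → p ≤ ns j + 1 ∧
        pr f (ind A (y j)) ≤ 2⁻¹ * ∑ i ∈ range p, pr (g i) (ind A (y j))) := by
  classical
  cases hf with
  | unit n =>
    by_cases h : ∃ j, y j n ≠ 0
    · obtain ⟨J, hJ⟩ := h
      have huniq : ∀ j, j ≠ J → y j n = 0 := by
        intro j hj
        by_contra hjn
        have h1 := hy J n hJ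
        have h2 := hy j n hjn
        rcases lt_or_gt_of_ne hj with hlt | hlt
        · have := hns (show j + 1 ≤ J from hlt); omega
        · have := hns (show J + 1 ≤ j from hlt); omega
      have hz : ∀ j, j ≠ J → pr (Pi.single n 1) (ind A (y j)) = 0 := by
        intro j hj
        rw [pr_unit]
        have := ind_le A (y j) n
        rw [huniq j hj] at this
        exact le_antisymm this bot_le
      refine ⟨J, 0, fun _ => 0, fun _ => KM.zero, by intro i hi; omega, fun j hj => hz j hj.ne,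
        fun j hj => ⟨Nat.zero_le _, ?_⟩⟩
      rw [hz j hj.ne']
      exact bot_le
    · push Not at h
      have hz : ∀ j, pr (Pi.single n 1) (ind A (y j)) = 0 := by
        intro j
        rw [pr_unit]
        have := ind_le A (y j) n
        rw [h j] at this
        exact le_antisymm this bot_le
      refine ⟨0, 0, fun _ => 0, fun _ => KM.zero, by intro i hi; omega, fun j hj => hz j,
        fun j hj => ⟨Nat.zero_le _, ?_⟩⟩
      rw [hz j]
      exact bot_le
  | half p g hg hd hk =>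
    set f : ℕ → ℝ≥0∞ := fun n => 2⁻¹ * ∑ i ∈ range p, g i n with hfdef
    have hzero : ∀ j, (¬ ∃ a, ind A (y j) a ≠ 0 ∧ f a ≠ 0) → pr f (ind A (y j)) = 0 := by
      intro j hj
      push Not at hj
      unfold pr
      rw [ENNReal.tsum_eq_zero]
      intro a
      by_cases ha : ind A (y j) a = 0
      · rw [ha, mul_zero]
      · rw [hj a ha, zero_mul]
    by_cases h : ∃ j a, ind A (y j) a ≠ 0 ∧ f a ≠ 0
    · obtain ⟨a, ha1, ha2⟩ := Nat.find_spec h
      refine ⟨Nat.find h, p, g, hg, hd, fun j hj => hzero j (Nat.find_min h hj), fun j hj => ⟨?_, ?_⟩⟩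
      · have h1 := hy _ a (ind_ne_zero ha1).2
        have h2 : ∃ i < p, g i a ≠ 0 := by
          by_contra hcon
          push Not at hcon
          apply ha2
          simp only [hfdef]
          rw [Finset.sum_eq_zero fun i hi => hcon i (mem_range.1 hi), mul_zero]
        obtain ⟨i, hi, hia⟩ := h2
        have h3 := hk i hi a hia
        have h4 := hns (show Nat.find h + 1 ≤ j from hj)
        omega
      · have h3 : pr f (ind A (y j)) = 2⁻¹ * ∑ i ∈ range p, pr (g i) (ind A (y j)) := by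
          unfold pr
          rw [← Summable.tsum_finsetSum (fun i _ => ENNReal.summable), ← ENNReal.tsum_mul_left]
          refine tsum_congr fun n => ?_
          simp only [hfdef]
          rw [mul_assoc, Finset.sum_mul]
        rw [h3]
    · push Not at h
      have hz : ∀ j, pr f (ind A (y j)) = 0 := fun j => hzero j (by
        push Not; exact h j)
      refine ⟨0, 0, fun _ => 0, fun _ => KM.zero, by intro i hi; omega, fun j hj => hz j,
        fun j hj => ⟨Nat.zero_le _, ?_⟩⟩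
      rw [hz j]
      exact bot_le

lemma pr_ind_sum (f : ℕ → ℝ≥0∞) (A : Set ℕ) (r : ℕ) (y : ℕ → ℕ → ℝ≥0∞) (c : ℝ≥0∞) :
    pr f (ind A (c • ∑ j ∈ range r, y j)) = c * ∑ j ∈ range r, pr f (ind A (y j)) := by
  rw [ind_smul, pr_smul]
  congr 1
  induction r with
  | zero =>
    simp only [range_zero, Finset.sum_empty]
    rw [ind_zero']
    simp [pr]
  | succ r ih => rw [Finset.sum_range_succ, Finset.sum_range_succ, ind_add, pr_add, ih]

/-- the averaging estimate -/
lemma average (l : ℕ) (hl : 1 ≤ l) (y : ℕ → ℕ → ℝ≥0∞) (ns : ℕ → ℕ)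
    (hns : Monotone ns) (hy : ∀ j i, y j i ≠ 0 → ns j ≤ i ∧ i < ns (j + 1)) (B : ℝ≥0∞)
    (hB : ∀ j, DD (l * (ns j + 1)) (y j) ≤ B) (r : ℕ) :
    DD l ((r : ℝ≥0∞)⁻¹ • ∑ j ∈ range r, y j) ≤ (r : ℝ≥0∞)⁻¹ * (l * B + r * (2⁻¹ * B)) := by
  classical
  have : Nonempty {f : ℕ → ℝ≥0∞ // KM f} := ⟨⟨_, KM.unit 0⟩⟩
  refine DD_le fun S c hS => ?_
  have key := sum_iSup_le' ((r : ℝ≥0∞)⁻¹ * (l * B + r * (2⁻¹ * B)))
    (fun s (f : {f : ℕ → ℝ≥0∞ // KM f}) =>
      pr f.1 (ind {n | c n = s} ((r : ℝ≥0∞)⁻¹ • ∑ j ∈ range r, y j))) S 0 ?_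
  · rw [add_zero] at key
    exact key
  intro φ
  rw [add_zero]
  choose J p g hg hd hJ1 hJ2 using fun s => struct (φ s).2 {n | c n = s} y ns hns hy
  have hj : ∀ j, ∑ s ∈ S, pr (φ s).1 (ind {n | c n = s} (y j)) ≤
      ((S.filter fun s => J s = j).card : ℝ≥0∞) * B + 2⁻¹ * B := by
    intro j
    have h1 : ∑ s ∈ S, pr (φ s).1 (ind {n | c n = s} (y j)) ≤
        ∑ s ∈ S.filter (fun s => J s = j), pr (φ s).1 (ind {n | c n = s} (y j)) +
        ∑ s ∈ S.filter (fun s => J s < j), pr (φ s).1 (ind {n | c n = s} (y j)) := by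
      rw [Finset.sum_filter, Finset.sum_filter, ← Finset.sum_add_distrib]
      refine Finset.sum_le_sum fun s _ => ?_
      rcases lt_trichotomy (J s) j with h | h | h
      · simp [h, h.ne]
      · simp [h]
      · rw [hJ1 s j h]; exact bot_le
    refine h1.trans (add_le_add ?_ ?_)
    · calc ∑ s ∈ S.filter (fun s => J s = j), pr (φ s).1 (ind {n | c n = s} (y j))
          ≤ ∑ s ∈ S.filter (fun s => J s = j), B := by
            refine Finset.sum_le_sum fun s _ => ?_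
            refine ((φ s).2.pr_le _).trans ((NM_ind_le _ _).trans ((NM_le_DD ?_ _).trans (hB j)))
            exact Nat.mul_pos hl (Nat.succ_pos _)
        _ = _ := by rw [Finset.sum_const, nsmul_eq_mul]
    · calc ∑ s ∈ S.filter (fun s => J s < j), pr (φ s).1 (ind {n | c n = s} (y j))
          ≤ ∑ s ∈ S.filter (fun s => J s < j), 2⁻¹ * ∑ i ∈ range (p s),
              pr (g s i) (ind {n | c n = s} (y j)) :=
            Finset.sum_le_sum fun s hs => (hJ2 s j (mem_filter.1 hs).2).2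
        _ = 2⁻¹ * ∑ s ∈ S.filter (fun s => J s < j), ∑ i ∈ range (p s),
              pr (g s i) (ind {n | c n = s} (y j)) := by rw [Finset.mul_sum]
        _ ≤ 2⁻¹ * DD ((S.filter (fun s => J s < j)).card * (ns j + 1)) (y j) := by
            gcongr
            exact refine_le _ c p g (ns j + 1) (fun s _ => hg s)
              (fun s hs => (hJ2 s j (mem_filter.1 hs).2).1) (fun s _ => hd s) (y j)
        _ ≤ 2⁻¹ * B := by
            gcongr
            refine le_trans ?_ (hB j)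
            refine DD_le fun S' c' hS' => le_DD S' c' (hS'.trans ?_) _
            exact Nat.mul_le_mul_right _ ((Finset.card_filter_le _ _).trans hS)
  calc ∑ s ∈ S, pr (φ s).1 (ind {n | c n = s} ((r : ℝ≥0∞)⁻¹ • ∑ j ∈ range r, y j))
      = (r : ℝ≥0∞)⁻¹ * ∑ j ∈ range r, ∑ s ∈ S, pr (φ s).1 (ind {n | c n = s} (y j)) := by
        rw [Finset.sum_comm, Finset.mul_sum]
        refine Finset.sum_congr rfl fun s _ => ?_
        rw [pr_ind_sum]
    _ ≤ (r : ℝ≥0∞)⁻¹ * ∑ j ∈ range r, (((S.filter fun s => J s = j).card : ℝ≥0∞) * B + 2⁻¹ * B) := by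
        gcongr with j _
        exact hj j
    _ ≤ (r : ℝ≥0∞)⁻¹ * (l * B + r * (2⁻¹ * B)) := by
        gcongr
        rw [Finset.sum_add_distrib, ← Finset.sum_mul, Finset.sum_const, card_range, nsmul_eq_mul]
        gcongr
        have h2 : ∑ j ∈ range r, (S.filter fun s => J s = j).card ≤ l := by
          refine le_trans ?_ hS
          rw [← Finset.card_biUnion]
          · exact Finset.card_le_card (Finset.biUnion_subset.2 fun j _ => Finset.filter_subset _ _)
          · intro i _ j _ hij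
            rw [Function.onFun, Finset.disjoint_left]
            intro s hs hs'
            exact hij ((mem_filter.1 hs).2.symm.trans (mem_filter.1 hs').2)
        exact_mod_cast h2

/-- admissible test vectors -/
def Test (a : ℕ → ℝ≥0∞) (n : ℕ) (y : ℕ → ℝ≥0∞) : Prop :=
  ∃ m, (∀ i, y i ≠ 0 → n ≤ i ∧ i < m) ∧ 1 ≤ pr a y

/-- the splitting infimum -/
noncomputable def del (a : ℕ → ℝ≥0∞) (k n : ℕ) : ℝ≥0∞ := ⨅ y : {y : ℕ → ℝ≥0∞ // Test a n y}, DD k y.1

lemma del_le {a : ℕ → ℝ≥0∞} {k n : ℕ} {y : ℕ → ℝ≥0∞} (h : Test a n y) : del a k n ≤ DD k y :=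
  iInf_le (fun y : {y : ℕ → ℝ≥0∞ // Test a n y} => DD k y.1) ⟨y, h⟩

lemma exists_test {a : ℕ → ℝ≥0∞} {ε : ℝ≥0∞} (hε : ε ≠ 0) (hε' : ε ≠ ∞)
    (h : ∀ n, ε < WM (ind (Set.Ici n) a)) (n : ℕ) : ∃ y, Test a n y ∧ NM y ≤ ε⁻¹ := by
  obtain ⟨⟨t, ht⟩, ht'⟩ := lt_iSup_iff.1 (h n)
  simp only at ht'
  rw [pr_ind_comm] at ht'
  unfold pr at ht'
  rw [ENNReal.tsum_eq_iSup_nat] at ht'
  obtain ⟨m, hm⟩ := lt_iSup_iff.1 ht'
  refine ⟨ε⁻¹ • ind (Set.Ico n m) t, ⟨m, ?_, ?_⟩, ?_⟩
  · intro i hi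
    have : ind (Set.Ico n m) t i ≠ 0 := by
      intro h0
      apply hi
      simp [h0]
    exact (ind_ne_zero this).1
  · rw [pr_smul]
    have h1 : ε ≤ pr a (ind (Set.Ico n m) t) := by
      refine hm.le.trans ?_
      unfold pr
      refine le_trans ?_ (ENNReal.sum_le_tsum (Finset.range m))
      refine Finset.sum_le_sum fun i hi => ?_
      have hi' := Finset.mem_range.1 hi
      by_cases hni : n ≤ i
      · rw [ind_apply_mem (show i ∈ Set.Ici n from hni),
          ind_apply_mem (show i ∈ Set.Ico n m from ⟨hni, hi'⟩)]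
      · rw [ind_apply_notMem (show i ∉ Set.Ici n from hni)]
        simp
    calc (1 : ℝ≥0∞) = ε⁻¹ * ε := (ENNReal.inv_mul_cancel hε hε').symm
      _ ≤ _ := by gcongr
  · refine (NM_smul_le _ _).trans ?_
    calc ε⁻¹ * NM (ind (Set.Ico n m) t) ≤ ε⁻¹ * 1 := by
          gcongr
          exact (NM_ind_le _ _).trans ht
      _ = ε⁻¹ := mul_one _

lemma num_eq (l : ℕ) (hl : 1 ≤ l) {δ : ℝ≥0∞} (h : δ ≠ ∞) :
    ((8 * l : ℕ) : ℝ≥0∞)⁻¹ * (l * ((9 / 8 : ℝ≥0∞) * δ) +
      ((8 * l : ℕ) : ℝ≥0∞) * (2⁻¹ * ((9 / 8 : ℝ≥0∞) * δ))) = (45 / 64 : ℝ≥0∞) * δ := by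
  lift δ to NNReal using h
  have hl1' : (l : NNReal) ≠ 0 := by
    have : l ≠ 0 := by omega
    exact_mod_cast this
  have e1 : ((8 * l : ℕ) : ℝ≥0∞) = ((8 * (l : NNReal) : NNReal) : ℝ≥0∞) := by simp
  have e2 : (l : ℝ≥0∞) = ((l : NNReal) : ℝ≥0∞) := by simp
  have e3 : (9 / 8 : ℝ≥0∞) = ((9 / 8 : NNReal) : ℝ≥0∞) := by
    rw [ENNReal.coe_div (by norm_num)]; norm_num
  have e4 : (45 / 64 : ℝ≥0∞) = ((45 / 64 : NNReal) : ℝ≥0∞) := by
    rw [ENNReal.coe_div (by norm_num)]; norm_num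
  have e5 : (2 : ℝ≥0∞)⁻¹ = ((2⁻¹ : NNReal) : ℝ≥0∞) := by
    rw [ENNReal.coe_inv (by norm_num)]; norm_num
  rw [e1, e2, e3, e4, e5, ← ENNReal.coe_inv (by positivity)]
  norm_cast
  push_cast
  field_simp
  ring

lemma num_le : (45 / 64 : ℝ≥0∞) ≤ 3 / 4 := by
  have e4 : (45 / 64 : ℝ≥0∞) = ((45 / 64 : NNReal) : ℝ≥0∞) := by
    rw [ENNReal.coe_div (by norm_num)]; norm_num
  have e5 : (3 / 4 : ℝ≥0∞) = ((3 / 4 : NNReal) : ℝ≥0∞) := by
    rw [ENNReal.coe_div (by norm_num)]; norm_num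
  rw [e4, e5, ENNReal.coe_le_coe]
  rw [← NNReal.coe_le_coe]
  push_cast
  norm_num

/-- **Tails tend to zero.** -/
theorem tail (a : ℕ → ℝ≥0∞) (ha : WM a ≠ ∞) {ε : ℝ≥0∞} (hε : ε ≠ 0) :
    ∃ n, WM (ind (Set.Ici n) a) ≤ ε := by
  by_contra hcon
  push Not at hcon
  have hε' : ε ≠ ∞ := fun h => by
    have := hcon 0
    rw [h] at this
    exact not_top_lt this
  have htest := exists_test hε hε' hcon
  set δ : ℝ≥0∞ := ⨆ k, ⨆ n, del a k n with hδ
  have hup : δ ≤ 2 * ε⁻¹ := by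
    refine iSup_le fun k => iSup_le fun n => ?_
    obtain ⟨y, ⟨m, hm, h1⟩, hy⟩ := htest (max n k)
    have h2 : Test a n y := ⟨m, fun i hi => ⟨(le_max_left _ _).trans (hm i hi).1, (hm i hi).2⟩, h1⟩
    refine (del_le h2).trans ((DD_le_two fun i hi => ?_).trans ?_)
    · have := (le_max_right n k).trans (hm i hi).1
      omega
    · gcongr
  have htop : δ ≠ ∞ := by
    refine ne_top_of_le_ne_top ?_ hup
    exact ENNReal.mul_ne_top (by norm_num) (ENNReal.inv_ne_top.2 hε)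
  have hpos : 0 < δ := by
    have h1 : (WM a)⁻¹ ≤ δ := by
      refine le_trans ?_ (le_iSup_of_le 1 (le_iSup_of_le 0 le_rfl))
      refine le_iInf fun y => ?_
      obtain ⟨y, m, hm, h1⟩ := y
      refine le_trans ?_ (NM_le_DD le_rfl y)
      have h2 := h1.trans (pr_le_mul a y)
      rw [mul_comm] at h2
      have h3 : WM a ≠ 0 := by
        intro h
        rw [h, mul_zero] at h2
        exact absurd h2 (by norm_num)
      exact (ENNReal.inv_le_iff_le_mul (fun _ => h3) (fun h => absurd h ha)).2 (by rwa [mul_comm])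
    exact lt_of_lt_of_le (ENNReal.inv_pos.2 ha) h1
  have h34 : (3 / 4 : ℝ≥0∞) * δ < δ := by
    calc (3 / 4 : ℝ≥0∞) * δ < 1 * δ := by
          rw [ENNReal.mul_lt_mul_iff_left hpos.ne' htop]
          rw [ENNReal.div_lt_iff (by norm_num) (by norm_num)]
          norm_num
      _ = δ := one_mul _
  have h98 : δ < (9 / 8 : ℝ≥0∞) * δ := by
    calc δ = 1 * δ := (one_mul _).symm
      _ < _ := by
          rw [ENNReal.mul_lt_mul_iff_left hpos.ne' htop]
          rw [ENNReal.lt_div_iff_mul_lt (by norm_num) (by norm_num)]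
          norm_num
  rw [hδ] at h34
  obtain ⟨l, hl⟩ := lt_iSup_iff.1 h34
  obtain ⟨m0, hm0⟩ := lt_iSup_iff.1 hl
  rw [← hδ] at hm0
  have hl1 : 1 ≤ l := by
    by_contra h0
    have h0' : l = 0 := by omega
    subst h0'
    obtain ⟨y, hy, -⟩ := htest m0
    have h1 : DD 0 y ≤ 0 := DD_le fun S c hS => by
      have : S = ∅ := Finset.card_eq_zero.1 (Nat.le_zero.1 hS)
      rw [this, Finset.sum_empty]
    have h2 := (hm0.trans_le (del_le hy)).trans_le h1
    exact absurd h2 (by simp)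
  -- choice of the blocks
  have hex : ∀ n, ∃ y : ℕ → ℝ≥0∞, ∃ m, n < m ∧ (∀ i, y i ≠ 0 → n ≤ i ∧ i < m) ∧ 1 ≤ pr a y ∧
      DD (l * (n + 1)) y ≤ (9 / 8 : ℝ≥0∞) * δ := by
    intro n
    have h1 : del a (l * (n + 1)) n < (9 / 8 : ℝ≥0∞) * δ :=
      lt_of_le_of_lt (le_iSup_of_le (l * (n + 1)) (le_iSup_of_le n le_rfl)) h98
    obtain ⟨⟨y, m, hm, hy⟩, hlt⟩ := iInf_lt_iff.1 h1
    exact ⟨y, max m (n + 1), by omega, fun i hi => ⟨(hm i hi).1, lt_of_lt_of_le (hm i hi).2
      (le_max_left _ _)⟩, hy, hlt.le⟩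
  choose Y Mx hMx hY1 hY2 hY3 using hex
  let ns : ℕ → ℕ := fun j => Mx^[j] m0
  have hns1 : ∀ j, ns (j + 1) = Mx (ns j) := fun j => by
    simp only [ns, Function.iterate_succ_apply']
  have hns : Monotone ns := monotone_nat_of_le_succ fun j => by
    rw [hns1]; exact (hMx _).le
  let r : ℕ := 8 * l
  have hr : (r : ℝ≥0∞) ≠ 0 := by
    have : r ≠ 0 := by omega
    exact_mod_cast this
  have hr' : (r : ℝ≥0∞) ≠ ∞ := ENNReal.natCast_ne_top r
  have hav := average l hl1 (fun j => Y (ns j)) ns hns (fun j i hi => by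
    rw [hns1]; exact hY1 _ i hi) ((9 / 8 : ℝ≥0∞) * δ) (fun j => hY3 _) r
  have htx : Test a m0 ((r : ℝ≥0∞)⁻¹ • ∑ j ∈ range r, Y (ns j)) := by
    refine ⟨ns r, fun i hi => ?_, ?_⟩
    · have : ∃ j ∈ range r, Y (ns j) i ≠ 0 := by
        by_contra hcon'
        push Not at hcon'
        apply hi
        rw [Pi.smul_apply, Finset.sum_apply, Finset.sum_eq_zero hcon', smul_zero]
      obtain ⟨j, hj, hji⟩ := this
      have h1 := hY1 _ i hji
      have h2 : ns 0 ≤ ns j := hns (Nat.zero_le j)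
      have h3 : ns (j + 1) ≤ ns r := hns (mem_range.1 hj)
      rw [hns1] at h3
      have h4 : ns 0 = m0 := rfl
      omega
    · have h1 := pr_ind_sum a Set.univ r (fun j => Y (ns j)) ((r : ℝ≥0∞)⁻¹)
      have hu : ∀ x : ℕ → ℝ≥0∞, ind Set.univ x = x := fun x => by
        funext n; exact ind_apply_mem (Set.mem_univ n) x
      simp only [hu] at h1
      rw [h1]
      calc (1 : ℝ≥0∞) = (r : ℝ≥0∞)⁻¹ * r := (ENNReal.inv_mul_cancel hr hr').symm
        _ = (r : ℝ≥0∞)⁻¹ * ∑ j ∈ range r, 1 := by rw [Finset.sum_const, card_range, nsmul_eq_mul, mul_one]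
        _ ≤ _ := by
            gcongr with j _
            exact hY2 _
  have h1 := (hm0.trans_le (del_le htx)).trans_le hav
  rw [show r = 8 * l from rfl, num_eq l hl1 htop] at h1
  have h3 : (45 / 64 : ℝ≥0∞) * δ ≤ (3 / 4 : ℝ≥0∞) * δ := by
    gcongr ?_ * δ
    exact num_le
  exact absurd (h1.trans_le h3) (lt_irrefl _)

end Pool.Agent.W696.TS
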