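import Mathlib
import Pool.Agent.W696.TS.Tail
import Pool.Agent.W696.TS.Embed

/-!
The dual `W` of the modified Tsirelson space.
-/
set_option autoImplicit false
open scoped ENNReal
open Finset Filter Topology
open Pool.Agent.H825R3.Tsi (ind pr ind_apply_mem ind_apply_notMem ind_le ind_mono ind_add ind_smul
  ind_ind pr_unit pr_mono pr_add pr_ind_comm)

namespace Pool.Agent.W696.TS

/-- the test family of the modified Tsirelson norm -/
noncomputable def famM : TestFam where
  B := {t | NM t ≤ 1}
  single_mem n := NM_single_le n 1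
  le_one t ht n := (le_NM t n).trans ht

lemma famM_nrm (a : ℕ → ℝ≥0∞) : famM.nrm a = WM a := rfl

lemma WM_add (a b : ℕ → ℝ≥0∞) : WM (fun n => a n + b n) ≤ WM a + WM b := by
  rw [← famM_nrm, ← famM_nrm, ← famM_nrm]; exact TestFam.nrm_add_le a b

/-- upper estimate for colourings -/
lemma WM_color (c : ℕ → ℕ) (S : Finset ℕ) (a : ℕ → ℝ≥0∞) (B : ℝ≥0∞)
    (hS : ∀ n, a n ≠ 0 → c n ∈ S ∧ S.card ≤ n + 1)
    (hB : ∀ s ∈ S, WM (fun n => if c n = s then a n else 0) ≤ B) : WM a ≤ 2 * B := by
  refine WM_le fun t ht => ?_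
  set t' : ℕ → ℝ≥0∞ := fun n => if S.card ≤ n + 1 then t n else 0 with ht'
  have ht'1 : NM t' ≤ 1 := by
    refine (NM_mono fun n => ?_).trans ht
    simp only [ht']
    split_ifs
    · exact le_rfl
    · exact bot_le
  calc pr a t ≤ ∑ s ∈ S, pr (fun n => if c n = s then a n else 0) (ind {n | c n = s} t') := by
        unfold pr
        rw [← Summable.tsum_finsetSum (fun i _ => ENNReal.summable)]
        refine ENNReal.tsum_le_tsum fun n => ?_
        rcases eq_or_ne (a n) 0 with h0 | h0
        · rw [h0, zero_mul]; exact bot_le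
        · obtain ⟨h1, h2⟩ := hS n h0
          refine le_trans (le_of_eq ?_) (Finset.single_le_sum (f := fun s =>
            (if c n = s then a n else 0) * ind {n | c n = s} t' n) (fun _ _ => bot_le) h1)
          simp only [if_true]
          rw [ind_apply_mem (show n ∈ {m | c m = c n} from rfl)]
          simp only [ht', h2, if_true]
    _ ≤ ∑ s ∈ S, B * NM (ind {n | c n = s} t') := by
        refine Finset.sum_le_sum fun s hs => (pr_le_mul _ _).trans ?_
        gcongr
        exact hB s hs
    _ = B * ∑ s ∈ S, NM (ind {n | c n = s} t') := by rw [Finset.mul_sum]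
    _ ≤ B * (2 * 1) := by
        gcongr
        refine (sum_NM_le_finset S c t' ?_).trans (by gcongr)
        intro n hn
        by_contra hcon
        simp only [ht', hcon, if_false] at hn
        exact hn rfl
    _ = 2 * B := by rw [mul_one, mul_comm]

lemma upNorm_WM : UpNorm WM where
  mono := WM_mono
  add := WM_add
  single_le := WM_single_le
  succ c _ S a B hS hB := WM_color c S a B hS hB

/-- the outer norm is unbounded on initial segments -/
lemma WM_unbounded (C : ℝ≥0∞) (hC : C ≠ ∞) : ∃ P : ℕ, C < WM (fun n => if n < P then 1 else 0) := by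
  by_contra hcon
  push Not at hcon
  have h1 : WM (fun _ => 1) ≤ C := by
    refine WM_le fun t ht => ?_
    unfold pr
    rw [ENNReal.tsum_eq_iSup_nat]
    refine iSup_le fun P => ?_
    calc ∑ n ∈ range P, 1 * t n ≤ ∑ n ∈ range P, (if n < P then 1 else 0) * t n := by
          refine Finset.sum_le_sum fun n hn => ?_
          rw [if_pos (mem_range.1 hn)]
      _ ≤ pr (fun n => if n < P then 1 else 0) t := ENNReal.sum_le_tsum _
      _ ≤ WM (fun n => if n < P then 1 else 0) := pr_le_WM _ ht
      _ ≤ C := hcon P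
  obtain ⟨n, hn⟩ := tail (fun _ => 1) (ne_top_of_le_ne_top hC h1) (ε := 1 / 2) (by norm_num)
  have h2 := le_WM (ind (Set.Ici n) (fun _ => 1)) n
  rw [ind_apply_mem (Set.mem_Ici.2 le_rfl)] at h2
  have h3 := h2.trans hn
  exact absurd h3 (by norm_num)

/-- the dual of the modified Tsirelson space -/
abbrev W : Type := KSum famM ℝ

/-- finitely supported sequences in a scalar sequence space -/
noncomputable def finTo (𝓑 : TestFam) : (ℕ →₀ ℝ) →ₗ[ℝ] KSum 𝓑 ℝ where
  toFun b := KSum.mk (fun n => b n) (by
    have h1 : (fun n => ‖b n‖ₑ) ≤ fun n => ∑ a ∈ b.support, (Pi.single a ‖b a‖ₑ : ℕ → ℝ≥0∞) n := by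
      intro n
      by_cases hn : n ∈ b.support
      · refine le_trans (le_of_eq ?_) (Finset.single_le_sum
          (f := fun a => (Pi.single a ‖b a‖ₑ : ℕ → ℝ≥0∞) n) (fun _ _ => bot_le) hn)
        simp
      · simp [Finsupp.notMem_support_iff.1 hn]
    refine ne_top_of_le_ne_top ?_ ((TestFam.nrm_mono h1).trans ((TestFam.nrm_sum_le _ _).trans
      (Finset.sum_le_sum fun a _ => TestFam.nrm_single_le a _)))
    exact ENNReal.sum_ne_top.2 fun _ _ => enorm_ne_top)
  map_add' _ _ := KSum.ext' (by funext n; simp)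
  map_smul' _ _ := KSum.ext' (by funext n; simp)

@[simp] lemma finTo_val (𝓑 : TestFam) (b : ℕ →₀ ℝ) (n : ℕ) : (finTo 𝓑 b).val n = b n := rfl

/-- The Hamming graphs embed equi-coarsely into `W(W)`. -/
theorem hamming_WW : EquiCoarselyEmbeds HV dH (KSum famM W) :=
  hamming_embeds famM WM_unbounded W WM upNorm_WM (finTo famM)
    (fun b n => by
      have := (finTo famM b).enorm_apply_le n
      simpa using this)
    (fun b => by rw [KSum.enorm_eq]; exact le_rfl)

end Pool.Agent.W696.TS
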