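import Mathlib
import Pool.Agent.W696.TS.InstM

/-!
The space `X = W(W)`: projections, density of finitely supported vectors, selection lemma.
-/
set_option autoImplicit false
open scoped ENNReal
open Finset Filter Topology
open Pool.Agent.H825R3.Tsi (ind pr ind_apply_mem ind_apply_notMem ind_le ind_mono ind_add ind_smul
  ind_ind pr_unit pr_mono pr_add pr_ind_comm)

namespace Pool.Agent.W696.TS

/-- the space `W(W)` -/
abbrev X : Type := KSum famM W

/-- the norm on double sequences -/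
noncomputable def RR (a : ℕ → ℕ → ℝ≥0∞) : ℝ≥0∞ := WM (fun κ => WM (a κ))

/-- coordinates -/
noncomputable def co (x : X) (κ n : ℕ) : ℝ := (x.val κ).val n

lemma enorm_X (x : X) : ‖x‖ₑ = RR (fun κ n => ‖co x κ n‖ₑ) := by
  rw [KSum.enorm_eq]
  unfold RR
  rw [famM_nrm]
  congr 1
  funext κ
  rw [KSum.enorm_eq]
  rfl

lemma X_ext {x y : X} (h : ∀ κ n, co x κ n = co y κ n) : x = y :=
  KSum.ext' (funext fun κ => KSum.ext' (funext fun n => h κ n))

@[simp] lemma co_add (x y : X) (κ n : ℕ) : co (x + y) κ n = co x κ n + co y κ n := rfl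
@[simp] lemma co_sub (x y : X) (κ n : ℕ) : co (x - y) κ n = co x κ n - co y κ n := rfl
@[simp] lemma co_neg (x : X) (κ n : ℕ) : co (-x) κ n = -co x κ n := rfl
@[simp] lemma co_smul (c : ℝ) (x : X) (κ n : ℕ) : co (c • x) κ n = c * co x κ n := rfl
@[simp] lemma co_zero (κ n : ℕ) : co 0 κ n = 0 := rfl

lemma RR_mono {a b : ℕ → ℕ → ℝ≥0∞} (h : ∀ κ n, a κ n ≤ b κ n) : RR a ≤ RR b :=
  WM_mono fun κ => WM_mono (h κ)

lemma RR_add (a b : ℕ → ℕ → ℝ≥0∞) : RR (fun κ n => a κ n + b κ n) ≤ RR a + RR b :=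
  (WM_mono fun κ => WM_add (a κ) (b κ)).trans (WM_add _ _)

lemma le_RR (a : ℕ → ℕ → ℝ≥0∞) (κ n : ℕ) : a κ n ≤ RR a :=
  (le_WM (a κ) n).trans (le_WM (fun κ => WM (a κ)) κ)

/-- construct an element of `X` -/
noncomputable def mkX (a : ℕ → ℕ → ℝ) (h : RR (fun κ n => ‖a κ n‖ₑ) ≠ ∞) : X :=
  KSum.mk (fun κ => (KSum.mk (a κ) (by
    refine ne_top_of_le_ne_top h ?_
    rw [famM_nrm]
    exact le_WM (fun κ => WM (fun n => ‖a κ n‖ₑ)) κ) : W)) (by
    rw [famM_nrm]
    have : (fun κ => ‖(KSum.mk (a κ) (by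
      refine ne_top_of_le_ne_top h ?_
      rw [famM_nrm]
      exact le_WM (fun κ => WM (fun n => ‖a κ n‖ₑ)) κ) : W)‖ₑ) = fun κ => WM (fun n => ‖a κ n‖ₑ) := by
      funext κ
      rw [KSum.enorm_eq]
      rfl
    rw [this]
    exact h)

@[simp] lemma co_mkX (a : ℕ → ℕ → ℝ) (h : RR (fun κ n => ‖a κ n‖ₑ) ≠ ∞) (κ n : ℕ) :
    co (mkX a h) κ n = a κ n := rfl

lemma X_fin (x : X) : RR (fun κ n => ‖co x κ n‖ₑ) ≠ ∞ := by
  rw [← enorm_X]; exact enorm_ne_top

open Classical in
/-- coordinate projection -/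
noncomputable def PP (A : Set (ℕ × ℕ)) : X →L[ℝ] X :=
  LinearMap.mkContinuous
    { toFun := fun x => mkX (fun κ n => if (κ, n) ∈ A then co x κ n else 0) (by
        refine ne_top_of_le_ne_top (X_fin x) (RR_mono fun κ n => ?_)
        split_ifs
        · exact le_rfl
        · simp)
      map_add' := fun x y => X_ext fun κ n => by
        simp only [co_mkX, co_add]
        split_ifs <;> simp
      map_smul' := fun c x => X_ext fun κ n => by
        simp only [co_mkX, co_smul, RingHom.id_apply]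
        split_ifs <;> simp } 1 (fun x => by
    rw [one_mul, ← toReal_enorm, ← toReal_enorm x]
    refine ENNReal.toReal_mono enorm_ne_top ?_
    rw [enorm_X, enorm_X]
    refine RR_mono fun κ n => ?_
    simp only [LinearMap.coe_mk, AddHom.coe_mk, co_mkX]
    split_ifs
    · exact le_rfl
    · simp)

open Classical in
@[simp] lemma co_PP (A : Set (ℕ × ℕ)) (x : X) (κ n : ℕ) :
    co (PP A x) κ n = if (κ, n) ∈ A then co x κ n else 0 := rfl

lemma norm_le_of_co {x y : X} (h : ∀ κ n, ‖co x κ n‖ₑ ≤ ‖co y κ n‖ₑ) : ‖x‖ ≤ ‖y‖ := by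
  rw [← toReal_enorm, ← toReal_enorm y]
  refine ENNReal.toReal_mono enorm_ne_top ?_
  rw [enorm_X, enorm_X]
  exact RR_mono h

lemma norm_PP_le (A : Set (ℕ × ℕ)) (x : X) : ‖PP A x‖ ≤ ‖x‖ :=
  norm_le_of_co fun κ n => by
    rw [co_PP]
    split_ifs
    · exact le_rfl
    · simp

lemma norm_sub_PP_le (A : Set (ℕ × ℕ)) (x : X) : ‖x - PP A x‖ ≤ ‖x‖ :=
  norm_le_of_co fun κ n => by
    rw [co_sub, co_PP]
    split_ifs
    · simp
    · simp

/-- squares -/
def Qs (s : ℕ) : Set (ℕ × ℕ) := {z | z.1 < s ∧ z.2 < s}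

lemma Qs_mono {s t : ℕ} (h : s ≤ t) : Qs s ⊆ Qs t := fun _ hz =>
  ⟨lt_of_lt_of_le hz.1 h, lt_of_lt_of_le hz.2 h⟩

lemma WM_sum_le {ι : Type*} (s : Finset ι) (a : ι → ℕ → ℝ≥0∞) :
    WM (fun n => ∑ j ∈ s, a j n) ≤ ∑ j ∈ s, WM (a j) := by
  simp only [← famM_nrm]
  exact TestFam.nrm_sum_le s a

lemma WM_single_if_le (κ : ℕ) (c : ℝ≥0∞) : WM (fun j => if j = κ then c else 0) ≤ c := by
  have e : (fun j => if j = κ then c else 0) = Pi.single κ c := by
    funext j
    by_cases h : j = κ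
    · subst h; simp
    · simp [h]
  rw [e]
  exact WM_single_le κ c

/-- finitely supported vectors are dense -/
lemma exists_sq (x : X) {ε : ℝ} (hε : 0 < ε) : ∃ s₀, ∀ s ≥ s₀, ‖x - PP (Qs s) x‖ ≤ ε := by
  set a : ℕ → ℕ → ℝ≥0∞ := fun κ n => ‖co x κ n‖ₑ with ha
  have hfin : RR a ≠ ∞ := X_fin x
  have hε2 : ENNReal.ofReal (ε / 2) ≠ 0 := by
    simp only [ne_eq, ENNReal.ofReal_eq_zero, not_le]; linarith
  obtain ⟨s1, hs1⟩ := tail (fun κ => WM (a κ)) hfin hε2
  have hrow : ∀ κ, ∃ t, WM (ind (Set.Ici t) (a κ)) ≤ ENNReal.ofReal (ε / 2 / (s1 + 1)) := by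
    intro κ
    refine tail (a κ) (ne_top_of_le_ne_top hfin (le_WM (fun κ => WM (a κ)) κ)) ?_
    simp only [ne_eq, ENNReal.ofReal_eq_zero, not_le]
    positivity
  choose t ht using hrow
  refine ⟨max s1 ((range s1).sup t), fun s hs => ?_⟩
  have hs1' : s1 ≤ s := (le_max_left _ _).trans hs
  have hst : ∀ κ < s1, t κ ≤ s := fun κ hκ =>
    (Finset.le_sup (f := t) (mem_range.2 hκ)).trans ((le_max_right _ _).trans hs)
  rw [← toReal_enorm]
  refine ENNReal.toReal_le_of_le_ofReal hε.le ?_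
  rw [enorm_X]
  have h1 : ∀ κ, WM (fun n => ‖co (x - PP (Qs s) x) κ n‖ₑ) ≤
      ind (Set.Ici s1) (fun κ => WM (a κ)) κ +
      ∑ j ∈ range s1, (if κ = j then ENNReal.ofReal (ε / 2 / (s1 + 1)) else 0) := by
    intro κ
    by_cases hκ : s1 ≤ κ
    · rw [ind_apply_mem (show κ ∈ Set.Ici s1 from hκ)]
      refine le_trans (WM_mono fun n => ?_) le_self_add
      rw [co_sub, co_PP]
      split_ifs
      · simp
      · simp [ha]
    · push Not at hκ
      refine le_trans ?_ le_add_self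
      refine le_trans ?_ (Finset.single_le_sum
        (f := fun j => if κ = j then ENNReal.ofReal (ε / 2 / (s1 + 1)) else 0)
        (fun _ _ => bot_le) (mem_range.2 hκ))
      simp only [if_true]
      refine le_trans (WM_mono fun n => ?_) (ht κ)
      rw [co_sub, co_PP]
      by_cases hn : n < s
      · rw [if_pos (show (κ, n) ∈ Qs s from ⟨by omega, hn⟩)]
        simp
      · rw [if_neg (show (κ, n) ∉ Qs s from fun h => hn h.2), sub_zero,
          ind_apply_mem (show n ∈ Set.Ici (t κ) from by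
            have := hst κ hκ
            rw [Set.mem_Ici]; omega)]
  unfold RR
  refine (WM_mono h1).trans ((WM_add _ _).trans ?_)
  have h2 : WM (fun κ => ∑ j ∈ range s1,
      (if κ = j then ENNReal.ofReal (ε / 2 / (s1 + 1)) else 0)) ≤ ENNReal.ofReal (ε / 2) := by
    refine (WM_sum_le _ _).trans ((Finset.sum_le_sum fun j _ => WM_single_if_le j _).trans ?_)
    rw [Finset.sum_const, card_range, nsmul_eq_mul, ← ENNReal.ofReal_natCast,
      ← ENNReal.ofReal_mul (by positivity)]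
    apply ENNReal.ofReal_le_ofReal
    rw [mul_div_assoc']
    rw [div_le_iff₀ (by positivity)]
    nlinarith
  refine (add_le_add hs1 h2).trans (le_of_eq ?_)
  rw [← ENNReal.ofReal_add (by linarith) (by linarith)]
  congr 1
  ring

/-- the profile lemma: among many vectors of the unit ball of `W` there are `n` with a bounded
supremum -/
lemma profile (n : ℕ) (hn : 1 ≤ n) (b : ℕ → ℕ → ℝ≥0∞) (N : ℕ) (hN : n * (n + 1) ^ n ≤ N)
    (hb : ∀ j < N, WM (b j) ≤ 1) :
    ∃ D : Finset ℕ, D ⊆ range N ∧ D.card = n ∧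
      ∀ S : Finset ℕ, S ⊆ D → WM (fun κ => S.sup fun j => b j κ) ≤ 4 := by
  classical
  -- colours
  have hfl : ∀ j < N, ∀ κ, ⌊(n : ℝ) * (b j κ).toReal⌋₊ < n + 1 := by
    intro j hj κ
    have h1 : (b j κ).toReal ≤ 1 :=
      ENNReal.toReal_le_of_le_ofReal zero_le_one (by
        rw [ENNReal.ofReal_one]; exact (le_WM (b j) κ).trans (hb j hj))
    have h2 : (n : ℝ) * (b j κ).toReal ≤ n := by
      calc (n : ℝ) * (b j κ).toReal ≤ n * 1 := by gcongr
        _ = n := mul_one _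
    have h3 : ⌊(n : ℝ) * (b j κ).toReal⌋₊ ≤ n := by
      have := Nat.floor_le_floor h2
      simpa using this
    omega
  let col : ℕ → (Fin n → Fin (n + 1)) := fun j κ => Fin.ofNat (n + 1) ⌊(n : ℝ) * (b j κ).toReal⌋₊
  have hcard : (univ : Finset (Fin n → Fin (n + 1))).card * n ≤ (range N).card := by
    rw [card_range, Finset.card_univ, Fintype.card_fun, Fintype.card_fin, Fintype.card_fin, mul_comm]
    exact hN
  obtain ⟨y, -, hy⟩ := Finset.exists_le_card_fiber_of_mul_le_card_of_maps_to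
    (f := col) (s := range N) (t := univ) (fun _ _ => mem_univ _) ⟨fun _ => 0, mem_univ _⟩ hcard
  obtain ⟨D, hD1, hD2⟩ := Finset.exists_subset_card_eq hy
  have hDN : D ⊆ range N := hD1.trans (filter_subset _ _)
  refine ⟨D, hDN, hD2, fun S hSD => ?_⟩
  have hclose : ∀ i ∈ D, ∀ j ∈ D, ∀ κ < n, b i κ ≤ b j κ + ENNReal.ofReal (1 / n) := by
    intro i hi j hj κ hκ
    have hi' := (mem_filter.1 (hD1 hi)).2
    have hj' := (mem_filter.1 (hD1 hj)).2
    have hiN := mem_range.1 (hDN hi)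
    have hjN := mem_range.1 (hDN hj)
    have h1 := congrFun (hi'.trans hj'.symm) ⟨κ, hκ⟩
    simp only [col] at h1
    have h2 := congrArg Fin.val h1
    simp only [Fin.ofNat_eq_cast, Fin.val_natCast] at h2
    rw [Nat.mod_eq_of_lt (hfl i hiN κ), Nat.mod_eq_of_lt (hfl j hjN κ)] at h2
    have hn0 : (0 : ℝ) < n := by exact_mod_cast hn
    have h3 := Nat.lt_floor_add_one ((n : ℝ) * (b i κ).toReal)
    have h4 := Nat.floor_le (show 0 ≤ (n : ℝ) * (b j κ).toReal by positivity)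
    rw [h2] at h3
    have h5 : (b i κ).toReal ≤ (b j κ).toReal + 1 / n := by
      rw [← mul_le_mul_iff_right₀ hn0, mul_add, mul_one_div_cancel hn0.ne']
      linarith
    have fi : b i κ ≠ ∞ := ne_top_of_le_ne_top ENNReal.one_ne_top ((le_WM (b i) κ).trans (hb i hiN))
    have fj : b j κ ≠ ∞ := ne_top_of_le_ne_top ENNReal.one_ne_top ((le_WM (b j) κ).trans (hb j hjN))
    rw [← ENNReal.ofReal_toReal fi, ← ENNReal.ofReal_toReal fj,
      ← ENNReal.ofReal_add ENNReal.toReal_nonneg (by positivity)]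
    exact ENNReal.ofReal_le_ofReal h5
  rcases S.eq_empty_or_nonempty with hS0 | hS0
  · rw [hS0]
    simp only [Finset.sup_empty]
    have : WM (fun _ => (⊥ : ℝ≥0∞)) ≤ 0 := WM_le fun t _ => by simp [pr]
    exact this.trans bot_le
  obtain ⟨j0, hj0⟩ := hS0
  have hsplit : ∀ κ, (S.sup fun j => b j κ) ≤
      (b j0 κ + ∑ i ∈ range n, (if κ = i then ENNReal.ofReal (1 / n) else 0)) +
      (if n ≤ κ then S.sup fun j => b j κ else 0) := by
    intro κ
    by_cases hκ : n ≤ κ
    · rw [if_pos hκ]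
      exact le_add_self
    · push Not at hκ
      refine le_trans ?_ le_self_add
      refine Finset.sup_le fun i hi => (hclose i (hSD hi) j0 (hSD hj0) κ hκ).trans ?_
      gcongr
      refine le_trans (le_of_eq ?_) (Finset.single_le_sum
        (f := fun i => if κ = i then ENNReal.ofReal (1 / n) else 0)
        (fun _ _ => bot_le) (mem_range.2 hκ))
      simp
  refine (WM_mono hsplit).trans ((WM_add _ _).trans ?_)
  have h1 : WM (fun κ => b j0 κ + ∑ i ∈ range n, (if κ = i then ENNReal.ofReal (1 / n) else 0)) ≤ 2 := by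
    refine (WM_add _ _).trans ?_
    have h2 : WM (fun κ => ∑ i ∈ range n, (if κ = i then ENNReal.ofReal (1 / (n : ℝ)) else 0)) ≤ 1 := by
      refine (WM_sum_le _ _).trans ((Finset.sum_le_sum fun j _ => WM_single_if_le j _).trans ?_)
      rw [Finset.sum_const, card_range, nsmul_eq_mul, ← ENNReal.ofReal_natCast,
        ← ENNReal.ofReal_mul (by positivity)]
      have hn0 : (n : ℝ) ≠ 0 := by positivity
      rw [mul_one_div_cancel hn0, ENNReal.ofReal_one]
    calc _ ≤ (1 : ℝ≥0∞) + 1 := add_le_add (hb j0 (mem_range.1 (hDN (hSD hj0)))) h2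
      _ = 2 := by norm_num
  have h3 : WM (fun κ => if n ≤ κ then S.sup fun j => b j κ else 0) ≤ 2 * 1 := by
    -- colour by the maximiser
    have hmax : ∀ κ, ∃ j ∈ S, (S.sup fun j => b j κ) = b j κ := fun κ =>
      Finset.exists_mem_eq_sup S ⟨j0, hj0⟩ fun j => b j κ
    choose c hc1 hc2 using hmax
    refine WM_color c S _ 1 ?_ ?_
    · intro κ hκ
      refine ⟨hc1 κ, ?_⟩
      by_cases h : n ≤ κ
      · have := card_le_card hSD
        omega
      · rw [if_neg h] at hκ; exact absurd rfl hκ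
    · intro s hs
      refine le_trans (WM_mono fun κ => ?_) (hb s (mem_range.1 (hDN (hSD hs))))
      simp only
      split_ifs with h4 h5
      · rw [hc2 κ, h4]
      · exact bot_le
      · exact bot_le
  calc _ ≤ (2 : ℝ≥0∞) + 2 * 1 := add_le_add h1 h3
    _ = 4 := by norm_num

end Pool.Agent.W696.TS
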