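import Mathlib
import Pool.Agent.W696.TS.XSp

/-!
Selection lemma, shrinking basis and reflexivity of `X = W(W)`.
-/
set_option autoImplicit false
open scoped ENNReal
open Finset Filter Topology
open Pool.Agent.H825R3.Tsi (ind pr ind_apply_mem ind_apply_notMem ind_le ind_mono ind_add ind_smul
  ind_ind pr_unit pr_mono pr_add pr_ind_comm)

namespace Pool.Agent.W696.TS

/-- number of vectors needed -/
def NB (n : ℕ) : ℕ := n * (n + 1) ^ n

/-- level function of a strictly increasing sequence -/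
def lv (s : ℕ → ℕ) (q : ℕ) : ℕ := Nat.findGreatest (fun p => s p ≤ q) q

lemma lv_eq {s : ℕ → ℕ} (hs : StrictMono s) {q p : ℕ} (h1 : s p ≤ q) (h2 : q < s (p + 1)) :
    lv s q = p := by
  have hp : p ≤ q := (hs.le_apply).trans h1
  apply le_antisymm
  · by_contra hcon
    push Not at hcon
    have h3 : lv s q ≠ 0 := by omega
    have h4 : s (lv s q) ≤ q :=
      Nat.findGreatest_of_ne_zero (m := lv s q) (P := fun p => s p ≤ q) rfl h3
    have h5 : s (p + 1) ≤ s (lv s q) := hs.monotone hcon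
    omega
  · exact Nat.le_findGreatest hp h1

/-- **Selection lemma.** -/
lemma select (n : ℕ) (hn : 1 ≤ n) (N : ℕ) (hN : NB n ≤ N) (s : ℕ → ℕ) (hs : StrictMono s)
    (hs0 : N ≤ s 0) (a : ℕ → ℕ → ℕ → ℝ≥0∞) (ha : ∀ j < N, RR (a j) ≤ 1)
    (hsupp : ∀ j < N, ∀ κ m, a j κ m ≠ 0 → (κ < s (j + 1) ∧ m < s (j + 1)) ∧ (s j ≤ κ ∨ s j ≤ m)) :
    ∃ D : Finset ℕ, D ⊆ range N ∧ D.card = n ∧ RR (fun κ m => ∑ j ∈ D, a j κ m) ≤ 10 := by
  classical
  obtain ⟨D, hDN, hDn, hD⟩ := profile n hn (fun j κ => WM (a j κ)) N hN ha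
  refine ⟨D, hDN, hDn, ?_⟩
  have hDs : ∀ j, D.card ≤ s j := fun j => by
    have h1 : D.card ≤ N := by simpa using card_le_card hDN
    exact h1.trans (hs0.trans (hs.monotone (Nat.zero_le j)))
  have hjN : ∀ j ∈ D, j < N := fun j hj => mem_range.1 (hDN hj)
  have hsplit : ∀ κ m, ∑ j ∈ D, a j κ m ≤
      (∑ j ∈ D, if s j ≤ κ then a j κ m else 0) + ∑ j ∈ D, if s j ≤ κ then 0 else a j κ m := by
    intro κ m
    rw [← Finset.sum_add_distrib]
    refine Finset.sum_le_sum fun j _ => ?_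
    split_ifs <;> simp
  refine (RR_mono hsplit).trans ((RR_add _ _).trans ?_)
  -- outer part
  have hZ : RR (fun κ m => ∑ j ∈ D, if s j ≤ κ then a j κ m else 0) ≤ 2 * 1 := by
    unfold RR
    refine WM_color (lv s) D _ 1 ?_ ?_
    · intro κ hκ
      have h1 : ∃ m, (∑ j ∈ D, if s j ≤ κ then a j κ m else 0) ≠ 0 := by
        by_contra hcon
        push Not at hcon
        apply hκ
        have : (fun m => ∑ j ∈ D, if s j ≤ κ then a j κ m else 0) = fun _ => 0 := funext hcon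
        simp only [this]
        exact le_antisymm (WM_le fun t _ => by simp [pr]) bot_le
      obtain ⟨m, hm⟩ := h1
      obtain ⟨j, hj, hjm⟩ := Finset.exists_ne_zero_of_sum_ne_zero hm
      by_cases h2 : s j ≤ κ
      · rw [if_pos h2] at hjm
        have h3 := (hsupp j (hjN j hj) κ m hjm).1.1
        rw [lv_eq hs h2 h3]
        exact ⟨hj, by have := hDs j; omega⟩
      · rw [if_neg h2] at hjm; exact absurd rfl hjm
    · intro j hj
      refine le_trans (WM_mono fun κ => ?_) (ha j (hjN j hj))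
      simp only
      split_ifs with h1
      · refine WM_mono fun m => ?_
        refine le_trans (Finset.sum_le_sum (g := fun i => if i = j then a j κ m else 0)
          fun i hi => ?_) (le_of_eq ?_)
        · split_ifs with h2 h3 h3
          · rw [h3]
          · have h4 : a i κ m = 0 := by
              by_contra hne
              have h5 := (hsupp i (hjN i hi) κ m hne).1.1
              exact h3 ((lv_eq hs h2 h5).symm.trans h1)
            rw [h4]
          · exact bot_le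
          · exact bot_le
        · rw [Finset.sum_ite_eq' D j (fun _ => a j κ m), if_pos hj]
      · exact bot_le
  -- inner part
  have hY : RR (fun κ m => ∑ j ∈ D, if s j ≤ κ then 0 else a j κ m) ≤ 2 * 4 := by
    unfold RR
    have h1 : ∀ κ, WM (fun m => ∑ j ∈ D, if s j ≤ κ then 0 else a j κ m) ≤
        2 * (D.sup fun j => WM (a j κ)) := by
      intro κ
      refine WM_color (lv s) D _ _ ?_ ?_
      · intro m hm
        obtain ⟨j, hj, hjm⟩ := Finset.exists_ne_zero_of_sum_ne_zero hm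
        by_cases h2 : s j ≤ κ
        · rw [if_pos h2] at hjm; exact absurd rfl hjm
        · rw [if_neg h2] at hjm
          have h3 := hsupp j (hjN j hj) κ m hjm
          have h4 : s j ≤ m := by
            rcases h3.2 with h | h
            · exact absurd h h2
            · exact h
          rw [lv_eq hs h4 h3.1.2]
          exact ⟨hj, by have := hDs j; omega⟩
      · intro j hj
        refine le_trans (WM_mono fun m => ?_) (Finset.le_sup (f := fun j => WM (a j κ)) hj)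
        simp only
        split_ifs with h1
        · refine le_trans (Finset.sum_le_sum (g := fun i => if i = j then a j κ m else 0)
            fun i hi => ?_) (le_of_eq ?_)
          · split_ifs with h2 h3 h3
            · exact bot_le
            · exact bot_le
            · rw [h3]
            · have h4 : a i κ m = 0 := by
                by_contra hne
                have h5 := hsupp i (hjN i hi) κ m hne
                have h6 : s i ≤ m := by
                  rcases h5.2 with h | h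
                  · exact absurd h h2
                  · exact h
                exact h3 ((lv_eq hs h6 h5.1.2).symm.trans h1)
              rw [h4]
          · rw [Finset.sum_ite_eq' D j (fun _ => a j κ m), if_pos hj]
        · exact bot_le
    refine (WM_mono h1).trans ?_
    have h2 : WM (fun κ => 2 * (D.sup fun j => WM (a j κ))) ≤
        2 * WM (fun κ => D.sup fun j => WM (a j κ)) := by
      rw [← famM_nrm, ← famM_nrm, TestFam.nrm_mul]
    refine h2.trans ?_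
    gcongr
    exact hD D (Subset.refl D)
  calc _ ≤ (2 : ℝ≥0∞) * 1 + 2 * 4 := add_le_add hZ hY
    _ = 10 := by norm_num

/-- selection for vectors of `X` -/
lemma select_X (n : ℕ) (hn : 1 ≤ n) (N : ℕ) (hN : NB n ≤ N) (s : ℕ → ℕ) (hs : StrictMono s)
    (hs0 : N ≤ s 0) (x : ℕ → X) (hx : ∀ j < N, ‖x j‖ ≤ 1)
    (hsupp : ∀ j < N, ∀ κ m, co (x j) κ m ≠ 0 →
      (κ < s (j + 1) ∧ m < s (j + 1)) ∧ (s j ≤ κ ∨ s j ≤ m)) :
    ∃ D : Finset ℕ, D ⊆ range N ∧ D.card = n ∧ ∀ (c : ℕ → ℝ) (M : ℝ), 0 ≤ M →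
      (∀ j ∈ D, |c j| ≤ M) → ‖∑ j ∈ D, c j • x j‖ ≤ 10 * M := by
  obtain ⟨D, h1, h2, h3⟩ := select n hn N hN s hs hs0 (fun j κ m => ‖co (x j) κ m‖ₑ)
    (fun j hj => by
      rw [← enorm_X, ← ofReal_norm, ← ENNReal.ofReal_one]
      exact ENNReal.ofReal_le_ofReal (hx j hj))
    (fun j hj κ m h => hsupp j hj κ m (by simpa using h))
  refine ⟨D, h1, h2, fun c M hM hc => ?_⟩
  have hco : ∀ (T : Finset ℕ) κ m, co (∑ j ∈ T, c j • x j) κ m = ∑ j ∈ T, c j * co (x j) κ m := by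
    classical
    intro T κ m
    induction T using Finset.induction_on with
    | empty => simp
    | insert j T hj ih => rw [Finset.sum_insert hj, Finset.sum_insert hj, co_add, co_smul, ih]
  rw [← toReal_enorm]
  refine ENNReal.toReal_le_of_le_ofReal (by positivity) ?_
  rw [enorm_X]
  have h4 : ∀ κ m, ‖co (∑ j ∈ D, c j • x j) κ m‖ₑ ≤
      ENNReal.ofReal M * ∑ j ∈ D, ‖co (x j) κ m‖ₑ := by
    intro κ m
    rw [hco, Finset.mul_sum]
    refine (enorm_sum_le _ _).trans (Finset.sum_le_sum fun j hj => ?_)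
    rw [enorm_mul]
    gcongr
    rw [← ofReal_norm]
    exact ENNReal.ofReal_le_ofReal (hc j hj)
  refine (RR_mono h4).trans ?_
  have h5 : RR (fun κ m => ENNReal.ofReal M * ∑ j ∈ D, ‖co (x j) κ m‖ₑ) =
      ENNReal.ofReal M * RR (fun κ m => ∑ j ∈ D, ‖co (x j) κ m‖ₑ) := by
    unfold RR
    simp only [← famM_nrm, TestFam.nrm_mul]
  rw [h5, ENNReal.ofReal_mul (by norm_num), mul_comm]
  gcongr
  refine h3.trans (le_of_eq ?_)
  norm_num

/-- the basis of `X` is shrinking -/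
lemma shrinking (ψ : StrongDual ℝ X) {ε : ℝ} (hε : 0 < ε) :
    ∃ s, ‖ψ - ψ ∘L PP (Qs s)‖ ≤ ε := by
  by_contra hcon
  push Not at hcon
  have h1 : ∀ s, ∃ z : X, ∃ s' > s, ‖z‖ ≤ 1 ∧ ε / 2 ≤ ψ z ∧ ∀ κ m, co z κ m ≠ 0 →
      (κ < s' ∧ m < s') ∧ (s ≤ κ ∨ s ≤ m) := by
    intro s
    have h2 : ∃ x : X, ‖x‖ ≤ 1 ∧ ε < |(ψ - ψ ∘L PP (Qs s)) x| := by
      by_contra hcon2
      push Not at hcon2
      have h3 : ‖ψ - ψ ∘L PP (Qs s)‖ ≤ ε := by
        refine ContinuousLinearMap.opNorm_le_of_unit_norm hε.le fun x hx => ?_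
        exact hcon2 x hx.le
      exact absurd (hcon s) (not_lt.2 h3)
    obtain ⟨x, hx1, hx2⟩ := h2
    -- choose the sign
    obtain ⟨x, hx1, hx2⟩ : ∃ x : X, ‖x‖ ≤ 1 ∧ ε < (ψ - ψ ∘L PP (Qs s)) x := by
      rcases le_total 0 ((ψ - ψ ∘L PP (Qs s)) x) with h | h
      · exact ⟨x, hx1, by rwa [abs_of_nonneg h] at hx2⟩
      · exact ⟨-x, by rwa [norm_neg], by rwa [map_neg, ← abs_of_nonpos h]⟩
    set y := x - PP (Qs s) x with hy
    have hy1 : ‖y‖ ≤ 1 := (norm_sub_PP_le _ x).trans hx1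
    have hy2 : ε < ψ y := by
      have : (ψ - ψ ∘L PP (Qs s)) x = ψ y := by
        simp [hy]
      rwa [← this]
    obtain ⟨s₀, hs₀⟩ := exists_sq y (ε := ε / (2 * (‖ψ‖ + 1))) (by positivity)
    set s' := max s₀ (s + 1) with hs'
    refine ⟨PP (Qs s') y, s', by omega, (norm_PP_le _ y).trans hy1, ?_, ?_⟩
    · have h3 := hs₀ s' (le_max_left _ _)
      have h4 : ψ y - ψ (PP (Qs s') y) ≤ ε / 2 := by
        rw [← map_sub]
        calc ψ (y - PP (Qs s') y) ≤ ‖ψ (y - PP (Qs s') y)‖ := Real.le_norm_self _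
          _ ≤ ‖ψ‖ * ‖y - PP (Qs s') y‖ := ψ.le_opNorm _
          _ ≤ (‖ψ‖ + 1) * (ε / (2 * (‖ψ‖ + 1))) := by
              gcongr
              linarith
          _ = ε / 2 := by
              have : ‖ψ‖ + 1 ≠ 0 := by positivity
              field_simp
      linarith
    · intro κ m hκ
      rw [co_PP] at hκ
      by_cases h3 : (κ, m) ∈ Qs s'
      · refine ⟨h3, ?_⟩
        rw [if_pos h3, hy, co_sub, co_PP] at hκ
        by_cases h4 : (κ, m) ∈ Qs s
        · rw [if_pos h4, sub_self] at hκ; exact absurd rfl hκ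
        · by_contra h5
          push Not at h5
          exact h4 h5
      · rw [if_neg h3] at hκ; exact absurd rfl hκ
  choose Z S hS hZ1 hZ2 hZ3 using h1
  obtain ⟨n, hn⟩ := exists_nat_gt (20 * ‖ψ‖ / ε)
  have hn1 : 1 ≤ n := by
    by_contra h0
    have : n = 0 := by omega
    subst this
    have : 0 ≤ 20 * ‖ψ‖ / ε := by positivity
    simp at hn
    linarith
  let s : ℕ → ℕ := fun j => S^[j] (NB n)
  have hs1 : ∀ j, s (j + 1) = S (s j) := fun j => by
    simp only [s, Function.iterate_succ_apply']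
  have hs : StrictMono s := strictMono_nat_of_lt_succ fun j => by rw [hs1]; exact hS _
  obtain ⟨D, -, hDn, hD⟩ := select_X n hn1 (NB n) le_rfl s hs le_rfl (fun j => Z (s j))
    (fun j _ => hZ1 _) (fun j _ κ m h => by rw [hs1]; exact hZ3 _ κ m h)
  have h2 := hD (fun _ => 1) 1 zero_le_one (fun j _ => by simp)
  simp only [one_smul, mul_one] at h2
  have h3 : (n : ℝ) * (ε / 2) ≤ ψ (∑ j ∈ D, Z (s j)) := by
    rw [map_sum]
    calc (n : ℝ) * (ε / 2) = ∑ j ∈ D, ε / 2 := by rw [Finset.sum_const, hDn, nsmul_eq_mul]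
      _ ≤ _ := Finset.sum_le_sum fun j _ => hZ2 _
  have h4 : ψ (∑ j ∈ D, Z (s j)) ≤ ‖ψ‖ * 10 :=
    (Real.le_norm_self _).trans ((ψ.le_opNorm _).trans (by gcongr))
  rw [div_lt_iff₀ hε] at hn
  linarith

/-- coordinate functionals -/
noncomputable def cf (κ n : ℕ) : StrongDual ℝ X := KSum.coord n ∘L KSum.coord κ

@[simp] lemma cf_apply (κ n : ℕ) (x : X) : cf κ n x = co x κ n := rfl

/-- finite combinations of coordinate functionals -/
lemma norm_comb_cf_le (F : Finset (ℕ × ℕ)) (c : ℕ × ℕ → ℝ) (t : ℕ → ℝ≥0∞) (ht : NM t ≤ 1)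
    (u : ℕ → ℕ → ℝ≥0∞) (hu : ∀ κ, NM (u κ) ≤ 1)
    (hc : ∀ z ∈ F, ‖c z‖ₑ ≤ t z.1 * u z.1 z.2) : ‖∑ z ∈ F, c z • cf z.1 z.2‖ ≤ 1 := by
  classical
  refine ContinuousLinearMap.opNorm_le_bound _ zero_le_one fun x => ?_
  rw [one_mul, ← toReal_enorm, ← toReal_enorm x]
  refine ENNReal.toReal_mono enorm_ne_top ?_
  rw [_root_.sum_apply]
  calc ‖∑ z ∈ F, (c z • cf z.1 z.2) x‖ₑ ≤ ∑ z ∈ F, ‖(c z • cf z.1 z.2) x‖ₑ := enorm_sum_le _ _
    _ ≤ ∑ z ∈ F, (t z.1 * u z.1 z.2) * ‖co x z.1 z.2‖ₑ := by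
        refine Finset.sum_le_sum fun z hz => ?_
        rw [smul_apply, cf_apply, smul_eq_mul, enorm_mul]
        gcongr
        exact hc z hz
    _ ≤ ∑' z : ℕ × ℕ, (t z.1 * u z.1 z.2) * ‖co x z.1 z.2‖ₑ := ENNReal.sum_le_tsum _
    _ = ∑' κ, ∑' n, (t κ * u κ n) * ‖co x κ n‖ₑ :=
        ENNReal.tsum_prod (f := fun κ n => (t κ * u κ n) * ‖co x κ n‖ₑ)
    _ = ∑' κ, (∑' n, ‖co x κ n‖ₑ * u κ n) * t κ := by
        refine tsum_congr fun κ => ?_
        rw [← ENNReal.tsum_mul_right]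
        exact tsum_congr fun n => by ring
    _ ≤ ∑' κ, WM (fun n => ‖co x κ n‖ₑ) * t κ := by
        refine ENNReal.tsum_le_tsum fun κ => ?_
        gcongr
        exact pr_le_WM (fun n => ‖co x κ n‖ₑ) (hu κ)
    _ ≤ RR (fun κ n => ‖co x κ n‖ₑ) := pr_le_WM (fun κ => WM (fun n => ‖co x κ n‖ₑ)) ht
    _ = ‖x‖ₑ := (enorm_X x).symm

/-- the bidual element has finite norm -/
lemma bidual_fin (Φ : StrongDual ℝ (StrongDual ℝ X)) :
    RR (fun κ n => ‖Φ (cf κ n)‖ₑ) ≤ ‖Φ‖ₑ := by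
  classical
  unfold RR
  refine WM_le fun t ht => ?_
  have ht1 : ∀ n, t n ≠ ∞ := fun n => ne_top_of_le_ne_top ENNReal.one_ne_top ((le_NM t n).trans ht)
  unfold pr
  rw [ENNReal.tsum_eq_iSup_nat]
  refine iSup_le fun K => ?_
  -- pass to tuples of test sequences
  have : Nonempty {u : ℕ → ℝ≥0∞ // NM u ≤ 1} :=
    ⟨⟨0, NM_le fun f _ => by simp [pr]⟩⟩
  have key := sum_iSup_le' (J := {u : ℕ → ℝ≥0∞ // NM u ≤ 1}) ‖Φ‖ₑ
    (fun κ u => pr (fun n => ‖Φ (cf κ n)‖ₑ) u.1 * t κ) (range K) 0 ?_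
  · rw [add_zero] at key
    refine le_trans (Finset.sum_le_sum fun κ _ => ?_) key
    unfold WM
    rw [ENNReal.iSup_mul]
  intro φ
  rw [add_zero]
  have hφ1 : ∀ κ n, (φ κ).1 n ≠ ∞ := fun κ n =>
    ne_top_of_le_ne_top ENNReal.one_ne_top ((le_NM (φ κ).1 n).trans (φ κ).2)
  have h1 : ∑ κ ∈ range K, pr (fun n => ‖Φ (cf κ n)‖ₑ) (φ κ).1 * t κ =
      ∑' n, ∑ κ ∈ range K, ‖Φ (cf κ n)‖ₑ * ((φ κ).1 n * t κ) := by
    rw [Summable.tsum_finsetSum (fun _ _ => ENNReal.summable)]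
    refine Finset.sum_congr rfl fun κ _ => ?_
    unfold pr
    rw [← ENNReal.tsum_mul_right]
    exact tsum_congr fun n => by ring
  rw [h1, ENNReal.tsum_eq_iSup_nat]
  refine iSup_le fun N => ?_
  -- the finite combination
  set F : Finset (ℕ × ℕ) := range N ×ˢ range K with hF
  set c : ℕ × ℕ → ℝ := fun z =>
    (SignType.sign (Φ (cf z.1 z.2)) : ℝ) * (t z.1 * (φ z.1).1 z.2).toReal with hc
  set G : Finset (ℕ × ℕ) := range K ×ˢ range N with hG
  have hcomb : ‖∑ z ∈ G, c z • cf z.1 z.2‖ ≤ 1 := by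
    refine norm_comb_cf_le G c t ht (fun κ => (φ κ).1) (fun κ => (φ κ).2) fun z _ => ?_
    have hfin : t z.1 * (φ z.1).1 z.2 ≠ ∞ := ENNReal.mul_ne_top (ht1 _) (hφ1 _ _)
    rw [← ofReal_norm, ← ENNReal.ofReal_toReal hfin]
    refine ENNReal.ofReal_le_ofReal ?_
    rw [hc]
    simp only
    rw [norm_mul, Real.norm_of_nonneg (ENNReal.toReal_nonneg (a := t z.1 * (φ z.1).1 z.2))]
    refine mul_le_of_le_one_left ENNReal.toReal_nonneg ?_
    rcases SignType.sign (Φ (cf z.1 z.2)) with _ | _ | _ <;> simp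
  have hterm : ∀ κ n, Φ (c (κ, n) • cf κ n) = ‖Φ (cf κ n)‖ * (t κ * (φ κ).1 n).toReal := by
    intro κ n
    rw [map_smul, hc, smul_eq_mul]
    simp only
    rw [mul_right_comm, Real.norm_eq_abs]
    congr 1
    exact sign_mul_self _
  have hval : ∑ n ∈ range N, ∑ κ ∈ range K, ‖Φ (cf κ n)‖ₑ * ((φ κ).1 n * t κ) =
      ENNReal.ofReal (Φ (∑ z ∈ G, c z • cf z.1 z.2)) := by
    rw [map_sum, Finset.sum_comm, hG, Finset.sum_product, ENNReal.ofReal_sum_of_nonneg]
    · refine Finset.sum_congr rfl fun κ _ => ?_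
      rw [ENNReal.ofReal_sum_of_nonneg]
      · refine Finset.sum_congr rfl fun n _ => ?_
        rw [hterm, ENNReal.ofReal_mul (norm_nonneg _), ofReal_norm,
          ENNReal.ofReal_toReal (ENNReal.mul_ne_top (ht1 _) (hφ1 _ _)), mul_comm (t κ)]
      · intro n _
        rw [hterm]; positivity
    · intro κ _
      refine Finset.sum_nonneg fun n _ => ?_
      rw [hterm]; positivity
  rw [hval]
  calc ENNReal.ofReal (Φ (∑ z ∈ G, c z • cf z.1 z.2))
      ≤ ENNReal.ofReal (‖Φ‖ * 1) := by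
        refine ENNReal.ofReal_le_ofReal ((Real.le_norm_self _).trans ((Φ.le_opNorm _).trans ?_))
        gcongr
    _ = ‖Φ‖ₑ := by rw [mul_one]; exact ofReal_norm Φ

/-- unit vectors of `X` -/
lemma ee_aux (κ n : ℕ) :
    RR (fun i j => ‖(if i = κ ∧ j = n then (1 : ℝ) else 0)‖ₑ) ≤ 1 := by
  unfold RR
  refine le_trans (WM_mono fun i => ?_) (WM_single_if_le κ 1)
  by_cases h : i = κ
  · rw [if_pos h]
    refine le_trans (WM_mono fun j => ?_) (WM_single_if_le n 1)
    by_cases h2 : j = n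
    · simp [h, h2]
    · simp [h2]
  · rw [if_neg h]
    refine WM_le fun t _ => ?_
    simp [pr, h]

/-- unit vectors of `X` -/
noncomputable def ee (κ n : ℕ) : X := mkX (fun i j => if i = κ ∧ j = n then 1 else 0)
  (ne_top_of_le_ne_top ENNReal.one_ne_top (ee_aux κ n))

@[simp] lemma co_ee (κ n i j : ℕ) : co (ee κ n) i j = if i = κ ∧ j = n then 1 else 0 := rfl

lemma co_finset_sum {ι : Type*} (T : Finset ι) (x : ι → X) (κ n : ℕ) :
    co (∑ j ∈ T, x j) κ n = ∑ j ∈ T, co (x j) κ n := by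
  simp only [← cf_apply]
  exact map_sum _ _ _

lemma PP_Qs (s : ℕ) (x : X) :
    PP (Qs s) x = ∑ z ∈ range s ×ˢ range s, co x z.1 z.2 • ee z.1 z.2 := by
  classical
  refine X_ext fun κ n => ?_
  rw [co_finset_sum, co_PP]
  simp only [co_smul, co_ee]
  by_cases h : (κ, n) ∈ Qs s
  · rw [if_pos h, Finset.sum_eq_single (κ, n)]
    · simp
    · intro z _ hz
      rw [if_neg, mul_zero]
      rintro ⟨h1, h2⟩
      exact hz (Prod.ext h1.symm h2.symm)
    · intro h2
      exact absurd (Finset.mem_product.2 ⟨mem_range.2 h.1, mem_range.2 h.2⟩) h2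
  · rw [if_neg h]
    symm
    refine Finset.sum_eq_zero fun z hz => ?_
    rw [if_neg, mul_zero]
    rintro ⟨h1, h2⟩
    have h3 := Finset.mem_product.1 hz
    exact h ⟨h1 ▸ mem_range.1 h3.1, h2 ▸ mem_range.1 h3.2⟩

/-- **Reflexivity of `X`.** -/
theorem X_reflexive : Function.Surjective (NormedSpace.inclusionInDoubleDual ℝ X) := by
  intro Φ
  have hfin : RR (fun κ n => ‖Φ (cf κ n)‖ₑ) ≠ ∞ := ne_top_of_le_ne_top enorm_ne_top (bidual_fin Φ)
  set a : X := mkX (fun κ n => Φ (cf κ n)) hfin with ha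
  refine ⟨a, ?_⟩
  ext ψ
  rw [NormedSpace.dual_def]
  -- both sides agree up to `ε`
  have key : ∀ ε : ℝ, 0 < ε → |ψ a - Φ ψ| ≤ ε * (‖Φ‖ + ‖a‖) := by
    intro ε hε
    obtain ⟨s, hs⟩ := shrinking ψ hε
    have h1 : ψ ∘L PP (Qs s) = ∑ z ∈ range s ×ˢ range s, ψ (ee z.1 z.2) • cf z.1 z.2 := by
      ext x
      rw [ContinuousLinearMap.comp_apply, PP_Qs, map_sum, _root_.sum_apply]
      refine Finset.sum_congr rfl fun z _ => ?_
      rw [map_smul, smul_apply, cf_apply, smul_eq_mul, smul_eq_mul, mul_comm]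
    have h2 : Φ (ψ ∘L PP (Qs s)) = (ψ ∘L PP (Qs s)) a := by
      rw [h1, map_sum, _root_.sum_apply]
      refine Finset.sum_congr rfl fun z _ => ?_
      rw [map_smul, smul_apply, cf_apply, ha, co_mkX]
    have h3 : ψ a - Φ ψ = (ψ - ψ ∘L PP (Qs s)) a - Φ (ψ - ψ ∘L PP (Qs s)) := by
      rw [map_sub, h2, sub_apply]
      ring
    rw [h3]
    calc |(ψ - ψ ∘L PP (Qs s)) a - Φ (ψ - ψ ∘L PP (Qs s))|
        ≤ |(ψ - ψ ∘L PP (Qs s)) a| + |Φ (ψ - ψ ∘L PP (Qs s))| := abs_sub _ _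
      _ ≤ ε * ‖a‖ + ‖Φ‖ * ε := by
          refine add_le_add ?_ ?_
          · exact ((ψ - ψ ∘L PP (Qs s)).le_opNorm a).trans (by gcongr)
          · exact (Φ.le_opNorm _).trans (by gcongr)
      _ = ε * (‖Φ‖ + ‖a‖) := by ring
  have h0 : |ψ a - Φ ψ| ≤ 0 := by
    refine le_of_forall_pos_le_add fun δ hδ => ?_
    have h1 := key (δ / (‖Φ‖ + ‖a‖ + 1)) (by positivity)
    refine h1.trans ?_
    rw [zero_add, div_mul_eq_mul_div, div_le_iff₀ (by positivity)]
    have h2 : ‖Φ‖ + ‖a‖ ≤ ‖Φ‖ + ‖a‖ + 1 := by linarith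
    gcongr
  have h1 := abs_nonpos_iff.1 h0
  linarith

lemma norm_ee (κ n : ℕ) : ‖ee κ n‖ = 1 := by
  apply le_antisymm
  · rw [← toReal_enorm]
    refine ENNReal.toReal_le_of_le_ofReal zero_le_one ?_
    rw [enorm_X, ENNReal.ofReal_one]
    exact ee_aux κ n
  · rw [← toReal_enorm]
    have h1 : (1 : ℝ≥0∞) ≤ ‖ee κ n‖ₑ := by
      rw [enorm_X]
      refine le_trans (le_of_eq ?_) (le_RR _ κ n)
      simp
    have h2 := ENNReal.toReal_mono enorm_ne_top h1
    simpa using h2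

/-- `X` is infinite-dimensional -/
theorem X_infinite : ¬ FiniteDimensional ℝ X := by
  intro hfd
  have hli : LinearIndependent ℝ (fun n : ℕ => ee 0 n) := by
    rw [linearIndependent_iff']
    intro T g hg i hi
    have h1 := congrArg (fun x => co x 0 i) hg
    simp only [co_finset_sum, co_smul, co_ee, co_zero, true_and, mul_ite, mul_one, mul_zero] at h1
    rwa [Finset.sum_ite_eq T i g, if_pos hi] at h1
  exact Module.Finite.not_linearIndependent_of_infinite _ hli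

end Pool.Agent.W696.TS
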