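import Mathlib
import Pool.Agent.W696.TS.Refl

/-!
Asymptotic structure of a Banach space, and the proof that `X = W(W)` is
asymptotic-subsequential-`c₀`.
-/
set_option autoImplicit false
open scoped ENNReal
open Finset Filter Topology

namespace Pool.Agent.W696.TS

section defs

/-- `C`-equivalence of two systems of `N` vectors, expressed through the norms `p a`, `q a` of
their linear combinations with coefficients `a`. -/
def CEquiv {N : ℕ} (C : ℝ) (p q : (Fin N → ℝ) → ℝ) : Prop :=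
  ∃ A B : ℝ, 0 < A ∧ 0 < B ∧ A * B ≤ C ∧ ∀ a, A⁻¹ * q a ≤ p a ∧ p a ≤ B * q a

variable (X : Type*) [NormedAddCommGroup X] [NormedSpace ℝ X]

/-- the closed finite-codimensional subspaces -/
def cof : Set (Submodule ℝ X) := {Y | IsClosed (Y : Set X) ∧ FiniteDimensional ℝ (X ⧸ Y)}

/-- `Game X N P`: for every `X₁` in `cof X` there is a norm-one vector `x₁` of `X₁`, such that for
every `X₂` in `cof X` there is a norm-one vector `x₂` of `X₂`, and so on up to `x_N`, such that
`P (x₁, …, x_N)`. -/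
def Game : (N : ℕ) → ((Fin N → X) → Prop) → Prop
  | 0, P => P Fin.elim0
  | N + 1, P => ∀ Y ∈ cof X, ∃ y ∈ Y, ‖y‖ = 1 ∧ Game N (fun x => P (Fin.cons y x))

/-- The `N`-th asymptotic structure `{X}_N`: norms `p` on `ℝ^N` with normalised unit vectors such
that for every `ε > 0` the vector player can produce `(1+ε)`-equivalent systems. -/
def AsymStructure (N : ℕ) : Set (Seminorm ℝ (Fin N → ℝ)) :=
  {p | (∀ a, p a = 0 → a = 0) ∧ (∀ i, p (Pi.single i 1) = 1) ∧
    ∀ ε : ℝ, 0 < ε → Game X N (fun x => CEquiv (1 + ε) (fun a => ‖∑ j, a j • x j‖) p)}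

/-- asymptotic-subsequential-`c₀` spaces -/
def AsymptoticSubsequentialC0 : Prop :=
  ∃ C : ℝ, 1 ≤ C ∧ ∀ n : ℕ, ∃ N : ℕ, ∀ p ∈ AsymStructure X N,
    ∃ i : Fin n → Fin N, StrictMono i ∧
      CEquiv C (fun a : Fin n → ℝ => p (∑ l, a l • Pi.single (i l) (1 : ℝ))) (fun a => ‖a‖)

end defs

/-- the finite-codimensional subspace of vectors vanishing on the square -/
noncomputable def VV (s : ℕ) : Submodule ℝ X :=
  LinearMap.ker (ContinuousLinearMap.pi (fun z : Fin s × Fin s => cf z.1 z.2) :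
    X →L[ℝ] (Fin s × Fin s → ℝ)).toLinearMap

lemma mem_VV {s : ℕ} {x : X} (h : x ∈ VV s) {κ m : ℕ} (hκ : κ < s) (hm : m < s) :
    co x κ m = 0 := by
  have h1 := congrFun (LinearMap.mem_ker.1 h) (⟨κ, hκ⟩, ⟨m, hm⟩)
  simpa using h1

lemma VV_cof (s : ℕ) : VV s ∈ cof X := by
  refine ⟨ContinuousLinearMap.isClosed_ker _, ?_⟩
  unfold VV
  exact LinearEquiv.finiteDimensional
    (LinearMap.quotKerEquivRange (ContinuousLinearMap.pi (fun z : Fin s × Fin s => cf z.1 z.2) :
    X →L[ℝ] (Fin s × Fin s → ℝ)).toLinearMap).symm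

/-- extraction of an almost disjointly supported play -/
lemma extract {η : ℝ} (hη : 0 < η) : ∀ (N : ℕ) (P : (Fin N → X) → Prop) (s₀ : ℕ), Game X N P →
    ∃ x : Fin N → X, P x ∧ ∃ S : ℕ → ℕ, StrictMono S ∧ S 0 = s₀ ∧ ∀ i : Fin N, ‖x i‖ = 1 ∧
      (∀ κ < S i, ∀ m < S i, co (x i) κ m = 0) ∧
      ‖x i - PP (Qs (S (i + 1))) (x i)‖ ≤ η := by
  intro N
  induction N with
  | zero =>
    intro P s₀ h
    exact ⟨Fin.elim0, h, fun n => s₀ + n, fun a b hab => by simpa using hab, rfl, fun i => i.elim0⟩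
  | succ N ih =>
    intro P s₀ h
    obtain ⟨y, hyV, hy1, hg⟩ := h (VV s₀) (VV_cof s₀)
    obtain ⟨s₁, hs₁⟩ := exists_sq y hη
    obtain ⟨x, hx, S, hS, hS0, hxS⟩ := ih _ (max s₁ (s₀ + 1)) hg
    refine ⟨Fin.cons y x, hx, fun n => if n = 0 then s₀ else S (n - 1), ?_, by simp, ?_⟩
    · refine strictMono_nat_of_lt_succ fun n => ?_
      rcases Nat.eq_zero_or_pos n with rfl | hn
      · simp only [if_true]
        rw [if_neg (by omega)]
        simp only [zero_add, Nat.sub_self]
        rw [hS0]; omega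
      · rw [if_neg (by omega), if_neg (by omega)]
        exact hS (by omega)
    · intro i
      refine Fin.cases ?_ (fun i => ?_) i
      · refine ⟨by simpa using hy1, fun κ hκ m hm => ?_, ?_⟩
        · simp only [Fin.cons_zero]
          simp only [Fin.val_zero, if_true] at hκ hm
          exact mem_VV hyV hκ hm
        · simp only [Fin.cons_zero, Fin.val_zero, zero_add]
          rw [if_neg one_ne_zero, Nat.sub_self, hS0]
          exact hs₁ _ (le_max_left _ _)
      · obtain ⟨h1, h2, h3⟩ := hxS i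
        refine ⟨by simpa using h1, fun κ hκ m hm => ?_, ?_⟩
        · simp only [Fin.cons_succ]
          simp only [Fin.val_succ, Nat.add_eq_zero_iff, one_ne_zero, and_false, if_false,
            Nat.add_sub_cancel] at hκ hm
          exact h2 κ hκ m hm
        · simp only [Fin.cons_succ, Fin.val_succ, Nat.add_eq_zero_iff, one_ne_zero, and_false,
            if_false, Nat.add_sub_cancel]
          exact h3

/-- **`X = W(W)` is asymptotic-subsequential-`c₀`.** -/
theorem X_asym : AsymptoticSubsequentialC0 X := by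
  classical
  refine ⟨44, by norm_num, fun n => ?_⟩
  rcases Nat.eq_zero_or_pos n with rfl | hn
  · refine ⟨0, fun p _ => ⟨Fin.elim0, fun i => i.elim0, 1, 1, one_pos, one_pos, by norm_num,
      fun a => ?_⟩⟩
    have h1 : ‖a‖ = 0 := by rw [Subsingleton.elim a 0, norm_zero]
    have h2 : ∀ b : Fin 0 → ℝ, p b = 0 := fun b => by rw [Subsingleton.elim b 0, map_zero]
    constructor
    · beta_reduce; rw [h1, h2]; norm_num
    · beta_reduce; rw [h1, h2]; norm_num
  refine ⟨NB n, fun p hp => ?_⟩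
  obtain ⟨-, -, hgame⟩ := hp
  set η : ℝ := 1 / (2 * (n + 1)) with hη
  have hη0 : 0 < η := by positivity
  have hη1 : (n + 1) * η = 1 / 2 := by rw [hη]; field_simp
  obtain ⟨x, ⟨A, B, hA, hB, hAB, hx⟩, S, hS, hS0, hxS⟩ :=
    extract hη0 (NB n) _ (NB n) (hgame 1 one_pos)
  -- the disjoint pieces
  let x' : ℕ → X := fun j => if h : j < NB n then x ⟨j, h⟩ else 0
  let u : ℕ → X := fun j => PP (Qs (S (j + 1))) (x' j)
  have hx'1 : ∀ j (h : j < NB n), ‖x' j‖ = 1 := fun j h => by
    simp only [x', dif_pos h]; exact (hxS ⟨j, h⟩).1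
  have hx'u : ∀ j, ‖x' j - u j‖ ≤ η := fun j => by
    by_cases h : j < NB n
    · simp only [u, x', dif_pos h]; exact (hxS ⟨j, h⟩).2.2
    · simp only [u, x', dif_neg h, map_zero, sub_zero, norm_zero]; exact hη0.le
  have hx'0 : ∀ j κ m, κ < S j → m < S j → co (x' j) κ m = 0 := fun j κ m hκ hm => by
    by_cases h : j < NB n
    · simp only [x', dif_pos h]; exact (hxS ⟨j, h⟩).2.1 κ hκ m hm
    · simp only [x', dif_neg h, co_zero]
  have husupp : ∀ j κ m, co (u j) κ m ≠ 0 →
      (κ < S (j + 1) ∧ m < S (j + 1)) ∧ (S j ≤ κ ∨ S j ≤ m) := by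
    intro j κ m h
    simp only [u, co_PP] at h
    by_cases h1 : (κ, m) ∈ Qs (S (j + 1))
    · rw [if_pos h1] at h
      refine ⟨h1, ?_⟩
      by_contra h2
      push Not at h2
      exact h (hx'0 j κ m h2.1 h2.2)
    · rw [if_neg h1] at h; exact absurd rfl h
  obtain ⟨D, hD1, hD2, hD3⟩ := select_X n hn (NB n) le_rfl S hS (by rw [hS0]) u
    (fun j hj => (norm_PP_le _ _).trans (hx'1 j hj).le) (fun j _ => husupp j)
  -- the indices
  have hι : ∀ l : Fin n, D.orderEmbOfFin hD2 l < NB n := fun l =>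
    mem_range.1 (hD1 (D.orderEmbOfFin_mem hD2 l))
  set ι : Fin n → Fin (NB n) := fun l => ⟨D.orderEmbOfFin hD2 l, hι l⟩ with hιdef
  have hιmono : StrictMono ι := fun a b hab => by
    simp only [hιdef, Fin.mk_lt_mk]
    exact (D.orderEmbOfFin hD2).strictMono hab
  have hιinj : Function.Injective fun l : Fin n => (ι l : ℕ) := fun a b hab =>
    (D.orderEmbOfFin hD2).injective hab
  refine ⟨ι, hιmono, ?_⟩
  -- two-sided bound for the combinations
  have hdiff : ∀ a : Fin n → ℝ,
      ‖∑ l, a l • x (ι l) - ∑ l, a l • u (ι l)‖ ≤ n * η * ‖a‖ := by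
    intro a
    rw [← Finset.sum_sub_distrib]
    refine (norm_sum_le _ _).trans ?_
    calc ∑ l, ‖a l • x (ι l) - a l • u (ι l)‖ ≤ ∑ _l : Fin n, ‖a‖ * η := by
          refine Finset.sum_le_sum fun l _ => ?_
          rw [← smul_sub, norm_smul]
          refine mul_le_mul (norm_le_pi_norm a l) ?_ (norm_nonneg _) (norm_nonneg _)
          have h2 : (ι l : ℕ) < NB n := (ι l).2
          have h3 : x' (ι l : ℕ) = x (ι l) := by simp only [x', dif_pos h2]
          rw [← h3]
          exact hx'u _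
      _ = n * η * ‖a‖ := by
          rw [Finset.sum_const, card_univ, Fintype.card_fin, nsmul_eq_mul]; ring
  have hupper : ∀ a : Fin n → ℝ, ‖∑ l, a l • x (ι l)‖ ≤ 11 * ‖a‖ := by
    intro a
    have h1 : ‖∑ l, a l • u (ι l)‖ ≤ 10 * ‖a‖ := by
      have h2 : ∑ l, a l • u (ι l) = ∑ j ∈ D, (Function.extend (fun l : Fin n => (ι l : ℕ)) a 0 j)
          • u j := by
        have h3 : D = univ.image (fun l : Fin n => (ι l : ℕ)) := by
          ext j
          simp only [hιdef, Finset.mem_image, Finset.mem_univ, true_and]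
          have h4 := D.range_orderEmbOfFin hD2
          rw [← Finset.mem_coe, ← h4]
          rfl
        rw [h3, Finset.sum_image fun a _ b _ h => hιinj h]
        refine Finset.sum_congr rfl fun l _ => ?_
        rw [hιinj.extend_apply]
      rw [h2]
      refine hD3 _ ‖a‖ (norm_nonneg _) fun j _ => ?_
      by_cases h4 : ∃ l, (ι l : ℕ) = j
      · obtain ⟨l, rfl⟩ := h4
        rw [hιinj.extend_apply]
        exact norm_le_pi_norm a l
      · rw [Function.extend_apply' _ _ _ h4]
        simp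
    have h2 := hdiff a
    have h3 : ‖∑ l, a l • x (ι l)‖ ≤
        ‖∑ l, a l • u (ι l)‖ + ‖∑ l, a l • x (ι l) - ∑ l, a l • u (ι l)‖ := by
      have := norm_add_le (∑ l, a l • u (ι l)) (∑ l, a l • x (ι l) - ∑ l, a l • u (ι l))
      simpa using this
    have h4 : (n : ℝ) * η * ‖a‖ ≤ 1 * ‖a‖ := by
      gcongr
      nlinarith
    linarith
  have hlower : ∀ a : Fin n → ℝ, 2⁻¹ * ‖a‖ ≤ ‖∑ l, a l • x (ι l)‖ := by
    intro a
    have : Nonempty (Fin n) := ⟨⟨0, hn⟩⟩
    obtain ⟨l₀, -, hl₀⟩ := Finset.exists_max_image univ (fun l => ‖a l‖) univ_nonempty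
    have hal : ‖a‖ ≤ ‖a l₀‖ := (pi_norm_le_iff_of_nonneg (norm_nonneg _)).2
      fun l => hl₀ l (mem_univ l)
    set Δ : Set (ℕ × ℕ) := Qs (S (ι l₀ + 1)) \ Qs (S (ι l₀)) with hΔ
    have h1 : PP Δ (∑ l, a l • u (ι l)) = a l₀ • u (ι l₀) := by
      rw [map_sum, Finset.sum_eq_single l₀]
      · rw [map_smul]
        congr 1
        refine X_ext fun κ m => ?_
        rw [co_PP]
        split_ifs with h
        · rfl
        · symm
          by_contra h2
          obtain ⟨h3, h4⟩ := husupp _ κ m h2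
          refine h ⟨h3, fun h5 => ?_⟩
          rcases h4 with h4 | h4
          · exact absurd h5.1 (not_lt.2 h4)
          · exact absurd h5.2 (not_lt.2 h4)
      · intro l _ hl
        rw [map_smul]
        have h2 : PP Δ (u (ι l)) = 0 := by
          refine X_ext fun κ m => ?_
          rw [co_PP, co_zero]
          split_ifs with h
          · by_contra h2
            obtain ⟨h3, h4⟩ := husupp _ κ m h2
            have hne : (ι l : ℕ) ≠ ι l₀ := fun h5 => hl (hιinj h5)
            rcases lt_or_gt_of_ne hne with h5 | h5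
            · -- earlier square
              have h6 : S (ι l + 1) ≤ S (ι l₀) := hS.monotone h5
              exact h.2 ⟨lt_of_lt_of_le h3.1 h6, lt_of_lt_of_le h3.2 h6⟩
            · have h6 : S (ι l₀ + 1) ≤ S (ι l) := hS.monotone h5
              have h7 : κ < S (ι l₀ + 1) ∧ m < S (ι l₀ + 1) := h.1
              rcases h4 with h4 | h4
              · omega
              · omega
          · rfl
        rw [h2, smul_zero]
      · intro h; exact absurd (mem_univ _) h
    have h2 : 1 - η ≤ ‖u (ι l₀)‖ := by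
      have h3 := hx'u (ι l₀)
      have h4 := hx'1 (ι l₀) (ι l₀).2
      have h5 := norm_sub_norm_le (x' (ι l₀)) (u (ι l₀))
      linarith
    have h3 : ‖a l₀ • u (ι l₀)‖ ≤ ‖∑ l, a l • u (ι l)‖ := by
      rw [← h1]; exact norm_PP_le _ _
    rw [norm_smul] at h3
    have h4 := hdiff a
    have h5 := norm_sub_norm_le (∑ l, a l • u (ι l)) (∑ l, a l • x (ι l))
    rw [norm_sub_rev] at h5
    have h6 : ‖a‖ * (1 - η) ≤ ‖a l₀‖ * ‖u (ι l₀)‖ := by
      have : 0 ≤ 1 - η := by nlinarith
      gcongr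
    have h7 : ‖a‖ * (1 - η) - n * η * ‖a‖ = 2⁻¹ * ‖a‖ := by
      have : ‖a‖ * (1 - η) - n * η * ‖a‖ = ‖a‖ * (1 - (n + 1) * η) := by ring
      rw [this, hη1]
      ring
    linarith
  -- transfer to `p`
  refine ⟨2 * B, 11 * A, by positivity, by positivity, by nlinarith, fun a => ?_⟩
  set b : Fin (NB n) → ℝ := ∑ l, a l • Pi.single (ι l) (1 : ℝ) with hb
  have hbx : ∑ j, b j • x j = ∑ l, a l • x (ι l) := by
    have h1 : ∀ j, b j = ∑ l, a l * (Pi.single (ι l) (1 : ℝ) : Fin (NB n) → ℝ) j := fun j => by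
      rw [hb, Finset.sum_apply]
      rfl
    simp only [h1, Finset.sum_smul]
    rw [Finset.sum_comm]
    refine Finset.sum_congr rfl fun l _ => ?_
    rw [Finset.sum_eq_single (ι l)]
    · simp
    · intro j _ hj
      rw [Pi.single_eq_of_ne hj]
      simp
    · intro h; exact absurd (mem_univ _) h
  obtain ⟨h1, h2⟩ := hx b
  simp only [hbx] at h1 h2
  have h3 := hupper a
  have h4 := hlower a
  constructor
  · show (2 * B)⁻¹ * ‖a‖ ≤ p b
    rw [mul_inv, mul_comm (2⁻¹ : ℝ), mul_assoc, inv_mul_le_iff₀ hB]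
    linarith
  · show p b ≤ 11 * A * ‖a‖
    rw [inv_mul_le_iff₀ hA] at h1
    calc p b ≤ A * ‖∑ l, a l • x (ι l)‖ := h1
      _ ≤ A * (11 * ‖a‖) := by gcongr
      _ = 11 * A * ‖a‖ := by ring

end Pool.Agent.W696.TS
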