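import Mathlib
import Pool.Agent.H825R3.Tsi.Oper
import Pool.Agent.H825R3.Tsi.Exist
import Pool.Agent.W696.TS.InstM

/-!
Tsirelson's space `T` (in the Figiel-Johnson form), its dual `T*` and the space `T*(T*)`.
-/
set_option autoImplicit false
open scoped ENNReal
open Finset Filter Topology
open Pool.Agent.H825R3.Tsi

namespace Pool.Agent.W696.TS

/-- every Tsirelson functional is a modified Tsirelson functional -/
lemma KM_of_K {f : ℕ → ℝ≥0∞} (hf : K f) : KM f := by
  induction hf with
  | unit n => exact KM.unit n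
  | half k t ht hk f hf ih =>
    refine KM.half k (fun i => ind (Set.Ico (t i) (t (i+1))) (f i)) (fun i => (ih i).restr _) ?_ ?_
    · intro i hi j hj hij n
      by_cases hn : n ∈ Set.Ico (t i) (t (i+1))
      · right
        refine ind_apply_notMem (fun hn' => ?_) _
        rw [Set.mem_Ico] at hn hn'
        rcases lt_or_gt_of_ne hij with h | h
        · have := ht (show i + 1 ≤ j from h); omega
        · have := ht (show j + 1 ≤ i from h); omega
      · left; exact ind_apply_notMem hn _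
    · intro i hi n hn
      have h1 := (ind_ne_zero hn).1
      rw [Set.mem_Ico] at h1
      have := ht (Nat.zero_le i)
      omega

lemma rho_le_NM (x : ℕ → ℝ≥0∞) : rho x ≤ NM x :=
  rho_le_of_K x _ fun f hf => (KM_of_K hf).pr_le x

section T

variable {T : Type} [NormedAddCommGroup T] [NormedSpace ℝ T] {e : ℕ → T}

lemma norm_e_le_one (h : IsTsirelson T e) (n : ℕ) : ‖comb e (Finsupp.single n 1)‖ ≤ 1 := by
  rw [h.norm_eq_rho]
  refine ENNReal.toReal_le_of_le_ofReal zero_le_one ?_
  rw [ENNReal.ofReal_one]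
  refine (rho_le_tsum _).trans ?_
  rw [tsum_eq_single n]
  · simp [Phi]
  · intro m hm
    simp [Phi, Finsupp.single_apply, Ne.symm hm]

/-- The test sequences `(|x_n|)` for the finitely supported `x` with `‖∑ x_n e_n‖ ≤ 1` in `T`. -/
noncomputable def famT (h : IsTsirelson T e) : TestFam where
  B := {t | ∃ x : ℕ →₀ ℝ, ‖comb e x‖ ≤ 1 ∧ ∀ n, t n = ‖x n‖ₑ}
  single_mem n := ⟨Finsupp.single n 1, norm_e_le_one h n, fun m => by
    by_cases hm : m = n
    · subst hm; simp
    · simp [Finsupp.single_apply, Ne.symm hm, hm]⟩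
  le_one := by
    rintro t ⟨x, hx, ht⟩ n
    rw [ht n, ← ofReal_norm, ← ENNReal.ofReal_one]
    exact ENNReal.ofReal_le_ofReal ((h.coord_le x n).trans hx)

variable (h : IsTsirelson T e)

lemma famT_le (a : ℕ → ℝ≥0∞) (x : ℕ →₀ ℝ) :
    ∑' n, a n * ‖x n‖ₑ ≤ (famT h).nrm a * ENNReal.ofReal ‖comb e x‖ := by
  rcases eq_or_ne ‖comb e x‖ 0 with h0 | h0
  · have hx : ∀ n, x n = 0 := fun n => by
      have := h.coord_le x n
      rw [h0] at this
      exact abs_nonpos_iff.1 this
    simp [hx]
  · have hpos : 0 < ‖comb e x‖ := lt_of_le_of_ne (norm_nonneg _) (Ne.symm h0)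
    have h1 : (fun n => ‖(‖comb e x‖⁻¹ • x) n‖ₑ) ∈ (famT h).B := by
      refine ⟨‖comb e x‖⁻¹ • x, ?_, fun n => rfl⟩
      rw [comb_eq, map_smul, ← comb_eq, norm_smul, norm_inv, norm_norm, inv_mul_cancel₀ h0]
    have h2 := (famT h).le_nrm a h1
    simp only [Finsupp.smul_apply, smul_eq_mul, enorm_mul] at h2
    have h3 : ∑' n, a n * (‖‖comb e x‖⁻¹‖ₑ * ‖x n‖ₑ) = ‖‖comb e x‖⁻¹‖ₑ * ∑' n, a n * ‖x n‖ₑ := by
      rw [← ENNReal.tsum_mul_left]
      exact tsum_congr fun n => by ring
    rw [h3] at h2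
    have h4 : ENNReal.ofReal ‖comb e x‖ * ‖‖comb e x‖⁻¹‖ₑ = 1 := by
      rw [← ofReal_norm, norm_inv, norm_norm, ← ENNReal.ofReal_mul (norm_nonneg _),
        mul_inv_cancel₀ h0, ENNReal.ofReal_one]
    calc ∑' n, a n * ‖x n‖ₑ
        = ENNReal.ofReal ‖comb e x‖ * (‖‖comb e x‖⁻¹‖ₑ * ∑' n, a n * ‖x n‖ₑ) := by
          rw [← mul_assoc, h4, one_mul]
      _ ≤ ENNReal.ofReal ‖comb e x‖ * (famT h).nrm a := by gcongr
      _ = _ := mul_comm _ _

/-- upper estimate in `T*` -/
lemma upNorm_T : UpNorm (famT h).nrm where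
  mono := TestFam.nrm_mono
  add := TestFam.nrm_add_le
  single_le := TestFam.nrm_single_le
  succ := by
    classical
    intro c hc S a B hS hB
    refine TestFam.nrm_le ?_
    rintro t ⟨x, hx, ht⟩
    set k := S.card with hk
    let g : Fin k ↪o ℕ := S.orderEmbOfFin rfl
    let g' : ℕ → ℕ := fun i => if hi : i < k then g ⟨i, hi⟩ else 0
    let E : ℕ → Finset ℕ := fun i => x.support.filter fun n => c n = g' i ∧ k ≤ n + 1
    have hg' : ∀ i (hi : i < k), g' i = g ⟨i, hi⟩ := fun i hi => dif_pos hi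
    have hadm := h.adm_le' x k E (fun i _ n hn => (mem_filter.1 hn).2.2) (by
      intro i j hij hj n hn m hm
      have h1 := (mem_filter.1 hn).2.1
      have h2 := (mem_filter.1 hm).2.1
      rw [hg' i (hij.trans hj)] at h1
      rw [hg' j hj] at h2
      have h3 : g ⟨i, hij.trans hj⟩ < g ⟨j, hj⟩ := g.lt_iff_lt.2 hij
      by_contra hcon
      have := hc (not_lt.1 hcon)
      omega)
    have hmain : ∑' n, a n * t n ≤ ∑ i ∈ range k,
        ∑' n, (if c n = g' i then a n else 0) * ‖restr (E i) x n‖ₑ := by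
      rw [← Summable.tsum_finsetSum (fun i _ => ENNReal.summable)]
      refine ENNReal.tsum_le_tsum fun n => ?_
      rcases eq_or_ne (a n) 0 with h0 | h0
      · rw [h0, zero_mul]; exact bot_le
      rcases eq_or_ne (x n) 0 with h0' | h0'
      · rw [ht n, h0']; simp
      obtain ⟨h1, h2⟩ := hS n h0
      have h3 : ∃ i : Fin k, g i = c n := by
        have h6 : c n ∈ Set.range (S.orderEmbOfFin rfl) := by
          rw [S.range_orderEmbOfFin rfl]; exact h1
        exact h6
      obtain ⟨i, hi⟩ := h3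
      have hi' : g' i = c n := by rw [hg' i i.2]; exact hi
      refine le_trans (le_of_eq ?_) (Finset.single_le_sum (f := fun i =>
        (if c n = g' i then a n else 0) * ‖restr (E i) x n‖ₑ) (fun _ _ => bot_le)
        (mem_range.2 i.2))
      have h4 : n ∈ E i := mem_filter.2 ⟨Finsupp.mem_support_iff.2 h0', hi'.symm, h2⟩
      have h5 : restr (E i) x n = x n := by
        unfold restr
        rw [Finsupp.filter_apply_pos _ _ h4]
      simp only [hi', if_true, h5, ht n]
    refine hmain.trans ?_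
    calc ∑ i ∈ range k, ∑' n, (if c n = g' i then a n else 0) * ‖restr (E i) x n‖ₑ
        ≤ ∑ i ∈ range k, B * ENNReal.ofReal ‖comb e (restr (E i) x)‖ := by
          refine Finset.sum_le_sum fun i hi => (famT_le h _ _).trans ?_
          gcongr
          refine hB (g' i) ?_
          rw [hg' i (mem_range.1 hi)]
          exact S.orderEmbOfFin_mem rfl _
      _ = B * ENNReal.ofReal (∑ i ∈ range k, ‖comb e (restr (E i) x)‖) := by
          rw [← Finset.mul_sum, ENNReal.ofReal_sum_of_nonneg fun i _ => norm_nonneg _]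
      _ ≤ B * ENNReal.ofReal (2 * 1) := by
          gcongr
          linarith
      _ = 2 * B := by rw [mul_comm]; norm_num

/-- unboundedness of the outer norm -/
lemma famT_unbounded (C : ℝ≥0∞) (hC : C ≠ ∞) :
    ∃ P : ℕ, C < (famT h).nrm (fun n => if n < P then 1 else 0) := by
  obtain ⟨P, hP⟩ := WM_unbounded C hC
  refine ⟨P, hP.trans_le (WM_le fun t ht => ?_)⟩
  have ht1 : ∀ n, t n ≠ ∞ := fun n => ne_top_of_le_ne_top ENNReal.one_ne_top ((le_NM t n).trans ht)
  let x : ℕ →₀ ℝ := Finsupp.onFinset (range P) (fun n => if n < P then (t n).toReal else 0) (by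
    intro n hn
    rw [mem_range]
    by_contra hcon
    exact hn (if_neg hcon))
  have hx : ∀ n, ‖x n‖ₑ = if n < P then t n else 0 := by
    intro n
    have : x n = if n < P then (t n).toReal else 0 := rfl
    rw [this]
    split_ifs
    · rw [← ofReal_norm, Real.norm_eq_abs, abs_of_nonneg ENNReal.toReal_nonneg,
        ENNReal.ofReal_toReal (ht1 n)]
    · simp
  have hx1 : ‖comb e x‖ ≤ 1 := by
    rw [h.norm_eq_rho]
    refine ENNReal.toReal_le_of_le_ofReal zero_le_one ?_
    rw [ENNReal.ofReal_one]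
    refine ((rho_le_NM _).trans (NM_mono fun n => ?_)).trans ht
    show ‖x n‖ₑ ≤ t n
    rw [hx n]
    split_ifs
    · exact le_rfl
    · exact bot_le
  have h1 := (famT h).le_nrm (fun n => if n < P then 1 else 0) ⟨x, hx1, fun n => rfl⟩
  refine le_trans (ENNReal.tsum_le_tsum fun n => ?_) h1
  simp only [hx n]
  split_ifs
  · exact le_rfl
  · simp

/-- finite combinations of the biorthogonal functionals -/
lemma exists_J : ∃ J : (ℕ →₀ ℝ) →ₗ[ℝ] StrongDual ℝ T, (∀ b n, ‖b n‖ₑ ≤ ‖J b‖ₑ) ∧
    ∀ b, ‖J b‖ₑ ≤ (famT h).nrm (fun n => ‖b n‖ₑ) := by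
  obtain ⟨es, hes⟩ := h.exists_biorth
  refine ⟨Finsupp.linearCombination ℝ es, ?_, ?_⟩
  · intro b n
    have h1 : Finsupp.linearCombination ℝ es b (e n) = b n := by
      rw [Finsupp.linearCombination_apply, Finsupp.sum, _root_.sum_apply]
      rw [Finset.sum_eq_single n]
      · simp [hes n n]
      · intro m _ hm
        simp [hes m n, hm]
      · intro hn
        simp [Finsupp.notMem_support_iff.1 hn]
    have h2 := (Finsupp.linearCombination ℝ es b).le_opNorm (e n)
    rw [h1] at h2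
    have h3 : ‖e n‖ ≤ 1 := by
      have := norm_e_le_one h n
      rwa [comb_eq, Finsupp.linearCombination_single, one_smul] at this
    have h4 : ‖b n‖ ≤ ‖Finsupp.linearCombination ℝ es b‖ := by
      calc ‖b n‖ ≤ ‖Finsupp.linearCombination ℝ es b‖ * ‖e n‖ := h2
        _ ≤ ‖Finsupp.linearCombination ℝ es b‖ * 1 := by gcongr
        _ = _ := mul_one _
    rw [← ofReal_norm, ← ofReal_norm]
    exact ENNReal.ofReal_le_ofReal h4
  · intro b
    have hfin : (famT h).nrm (fun n => ‖b n‖ₑ) ≠ ∞ := (finTo (famT h) b).prop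
    have h1 : ‖Finsupp.linearCombination ℝ es b‖ ≤ ((famT h).nrm (fun n => ‖b n‖ₑ)).toReal := by
      refine ContinuousLinearMap.opNorm_le_bound _ ENNReal.toReal_nonneg fun y => ?_
      refine h.denseRange.induction_on (p := fun y => ‖Finsupp.linearCombination ℝ es b y‖ ≤
        ((famT h).nrm (fun n => ‖b n‖ₑ)).toReal * ‖y‖) y
        (isClosed_le (by fun_prop) (by fun_prop)) fun x => ?_
      have h2 : Finsupp.linearCombination ℝ es b (Lc e x) = ∑ n ∈ b.support, b n * x n := by
        rw [Finsupp.linearCombination_apply, Finsupp.sum, _root_.sum_apply]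
        refine Finset.sum_congr rfl fun n _ => ?_
        simp [IsTsirelson.es_Lc hes]
      rw [h2]
      have h3 : ‖∑ n ∈ b.support, b n * x n‖ₑ ≤
          (famT h).nrm (fun n => ‖b n‖ₑ) * ENNReal.ofReal ‖comb e x‖ := by
        refine (enorm_sum_le _ _).trans (le_trans ?_ (famT_le h (fun n => ‖b n‖ₑ) x))
        simp only [enorm_mul]
        exact ENNReal.sum_le_tsum _
      have h4 := ENNReal.toReal_mono (ENNReal.mul_ne_top hfin ENNReal.ofReal_ne_top) h3
      rwa [ENNReal.toReal_mul, toReal_enorm, ENNReal.toReal_ofReal (norm_nonneg _)] at h4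
    rw [← ofReal_norm]
    exact ENNReal.ofReal_le_of_le_toReal h1

/-- The space `T*(T*)`: sequences `(x_k)` in the dual `T*` of `T` with
`‖∑ ‖x_k‖ e_k^*‖_{T*} < ∞`. -/
abbrev TStarTStar (h : IsTsirelson T e) : Type := KSum (famT h) (StrongDual ℝ T)

/-- **The Hamming graphs embed equi-coarsely into `T*(T*)`.** -/
theorem hamming_TT : EquiCoarselyEmbeds HV dH (TStarTStar h) := by
  obtain ⟨J, hJ1, hJ2⟩ := exists_J h
  exact hamming_embeds (famT h) (famT_unbounded h) (StrongDual ℝ T) (famT h).nrm (upNorm_T h) J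
    hJ1 hJ2

end T

end Pool.Agent.W696.TS
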