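import Mathlib
import Pool.Agent.W696.TS.InstT

/-!
The space `T*(T*)` characterised through the functionals `∑ ‖x_k‖ e_k^*`, and the embedding of the
Hamming graphs for every realisation of it.
-/
set_option autoImplicit false
open scoped ENNReal
open Finset Filter Topology
open Pool.Agent.H825R3.Tsi

namespace Pool.Agent.W696.TS

/-- `Y`, together with the linear map `Θ` from `Y` to the sequences in `T*`, is (a realisation of)
the space `T*(T*)`: `Θ` identifies `Y` with the space of all sequences `x` in `T*` for which there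
is a functional `g` in `T*` with `g (e_k) = ‖x_k‖` for all `k` (that is, `g = ∑ ‖x_k‖ e_k^*`), and
the norm of the element with sequence `x` is the norm in `T*` of this functional. -/
structure IsTStarTStar {T : Type} [NormedAddCommGroup T] [NormedSpace ℝ T] (e : ℕ → T)
    (Y : Type) [NormedAddCommGroup Y] [NormedSpace ℝ Y] (Θ : Y →ₗ[ℝ] (ℕ → StrongDual ℝ T)) :
    Prop where
  injective : Function.Injective Θ
  range_iff : ∀ x : ℕ → StrongDual ℝ T,
    (∃ y, Θ y = x) ↔ ∃ g : StrongDual ℝ T, ∀ k, g (e k) = ‖x k‖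
  norm_eq : ∀ (y : Y) (g : StrongDual ℝ T), (∀ k, g (e k) = ‖Θ y k‖) → ‖y‖ = ‖g‖

variable {T : Type} [NormedAddCommGroup T] [NormedSpace ℝ T] {e : ℕ → T} (h : IsTsirelson T e)

/-- functionals with nonnegative coefficients: existence -/
lemma exists_functional (a : ℕ → ℝ) (ha : (famT h).nrm (fun n => ‖a n‖ₑ) ≠ ∞) :
    ∃ g : StrongDual ℝ T, ∀ k, g (e k) = a k := by
  let F : (ℕ →₀ ℝ) →ₗ[ℝ] ℝ := Finsupp.linearCombination ℝ a
  have hbd : ∀ x, ‖F x‖ ≤ ((famT h).nrm (fun n => ‖a n‖ₑ)).toReal * ‖Lc e x‖ := by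
    intro x
    have h3 : ‖F x‖ₑ ≤ (famT h).nrm (fun n => ‖a n‖ₑ) * ENNReal.ofReal ‖comb e x‖ := by
      show ‖Finsupp.linearCombination ℝ a x‖ₑ ≤ _
      rw [Finsupp.linearCombination_apply, Finsupp.sum]
      refine (enorm_sum_le _ _).trans (le_trans ?_ (famT_le h (fun n => ‖a n‖ₑ) x))
      refine le_trans (Finset.sum_le_sum fun n _ => ?_) (ENNReal.sum_le_tsum x.support)
      rw [smul_eq_mul, enorm_mul, mul_comm]
    have h4 := ENNReal.toReal_mono (ENNReal.mul_ne_top ha ENNReal.ofReal_ne_top) h3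
    rw [ENNReal.toReal_mul, toReal_enorm, ENNReal.toReal_ofReal (norm_nonneg _)] at h4
    exact h4
  refine ⟨F.extendOfNorm (Lc e), fun k => ?_⟩
  have h1 := LinearMap.extendOfNorm_eq h.denseRange ⟨_, hbd⟩ (Finsupp.single k 1)
  rw [Lc_single, one_smul] at h1
  rw [h1]
  show Finsupp.linearCombination ℝ a (Finsupp.single k 1) = a k
  simp

/-- functionals with nonnegative coefficients: norm -/
lemma functional_norm (a : ℕ → ℝ) (ha : ∀ n, 0 ≤ a n) (g : StrongDual ℝ T)
    (hg : ∀ k, g (e k) = a k) : (famT h).nrm (fun n => ‖a n‖ₑ) = ‖g‖ₑ := by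
  have hval : ∀ x : ℕ →₀ ℝ, g (Lc e x) = ∑ n ∈ x.support, x n * a n := by
    intro x
    show g (Finsupp.linearCombination ℝ e x) = _
    rw [Finsupp.linearCombination_apply, Finsupp.sum, map_sum]
    refine Finset.sum_congr rfl fun n _ => ?_
    rw [map_smul, hg, smul_eq_mul]
  apply le_antisymm
  · refine TestFam.nrm_le ?_
    rintro t ⟨x, hx, ht⟩
    -- the absolute value of `x`
    let y : ℕ →₀ ℝ := x.mapRange (fun r => |r|) abs_zero
    have hy : ∀ n, y n = |x n| := fun n => rfl
    have hPhi : Phi y = Phi x := by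
      funext n
      simp only [Phi, hy]
      rw [← ofReal_norm, ← ofReal_norm, Real.norm_eq_abs, Real.norm_eq_abs, abs_abs]
    have hy1 : ‖Lc e y‖ ≤ 1 := by
      rw [h.norm_Lc, hPhi, ← h.norm_eq_rho]
      exact hx
    have h1 : ∑' n, ‖a n‖ₑ * t n = ENNReal.ofReal (g (Lc e y)) := by
      rw [hval, ENNReal.ofReal_sum_of_nonneg]
      · rw [tsum_eq_sum (s := y.support)]
        · refine Finset.sum_congr rfl fun n _ => ?_
          rw [ht n, hy n, ENNReal.ofReal_mul (abs_nonneg _), mul_comm, ← ofReal_norm, ← ofReal_norm,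
            Real.norm_eq_abs, Real.norm_eq_abs, abs_of_nonneg (ha n)]
        · intro n hn
          have h2 : y n = 0 := Finsupp.notMem_support_iff.1 hn
          rw [hy n, abs_eq_zero] at h2
          rw [ht n, h2]
          simp
      · intro n _
        rw [hy n]
        exact mul_nonneg (abs_nonneg _) (ha n)
    rw [h1]
    calc ENNReal.ofReal (g (Lc e y)) ≤ ENNReal.ofReal (‖g‖ * 1) := by
          refine ENNReal.ofReal_le_ofReal ((Real.le_norm_self _).trans ((g.le_opNorm _).trans ?_))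
          gcongr
      _ = ‖g‖ₑ := by rw [mul_one]; exact ofReal_norm g
  · rcases eq_or_ne ((famT h).nrm (fun n => ‖a n‖ₑ)) ∞ with hfin | hfin
    · rw [hfin]; exact le_top
    have h1 : ‖g‖ ≤ ((famT h).nrm (fun n => ‖a n‖ₑ)).toReal := by
      refine ContinuousLinearMap.opNorm_le_bound _ ENNReal.toReal_nonneg fun y => ?_
      refine h.denseRange.induction_on (p := fun y => ‖g y‖ ≤
        ((famT h).nrm (fun n => ‖a n‖ₑ)).toReal * ‖y‖) y
        (isClosed_le (by fun_prop) (by fun_prop)) fun x => ?_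
      rw [hval]
      have h3 : ‖∑ n ∈ x.support, x n * a n‖ₑ ≤
          (famT h).nrm (fun n => ‖a n‖ₑ) * ENNReal.ofReal ‖comb e x‖ := by
        refine (enorm_sum_le _ _).trans (le_trans ?_ (famT_le h (fun n => ‖a n‖ₑ) x))
        refine le_trans (Finset.sum_le_sum fun n _ => ?_) (ENNReal.sum_le_tsum x.support)
        rw [enorm_mul, mul_comm]
      have h4 := ENNReal.toReal_mono (ENNReal.mul_ne_top hfin ENNReal.ofReal_ne_top) h3
      rwa [ENNReal.toReal_mul, toReal_enorm, ENNReal.toReal_ofReal (norm_nonneg _)] at h4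
    rw [← ofReal_norm]
    exact ENNReal.ofReal_le_of_le_toReal h1

/-- the coordinates as a linear map -/
noncomputable def valL : TStarTStar h →ₗ[ℝ] (ℕ → StrongDual ℝ T) where
  toFun := fun x => x.val
  map_add' := fun _ _ => rfl
  map_smul' := fun _ _ => rfl

/-- the concrete space `TStarTStar h` is a realisation of `T*(T*)` -/
lemma isTStarTStar_concrete : IsTStarTStar e (TStarTStar h) (valL h) where
  injective := fun _ _ hxy => KSum.ext' hxy
  range_iff := by
    intro x
    constructor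
    · rintro ⟨y, rfl⟩
      have h1 : (famT h).nrm (fun n => ‖(‖(valL h y) n‖ : ℝ)‖ₑ) ≠ ∞ := by
        simp only [enorm_norm]
        exact y.prop
      exact exists_functional h _ h1
    · rintro ⟨g, hg⟩
      have h1 := functional_norm h (fun k => ‖x k‖) (fun k => norm_nonneg _) g hg
      simp only [enorm_norm] at h1
      refine ⟨KSum.mk x ?_, rfl⟩
      rw [h1]
      exact enorm_ne_top
  norm_eq := by
    intro y g hg
    have h1 := functional_norm h (fun k => ‖(valL h y) k‖) (fun k => norm_nonneg _) g hg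
    simp only [enorm_norm] at h1
    rw [← toReal_enorm g, ← h1]
    rfl

include h in
/-- **The Hamming graphs embed equi-coarsely into every realisation of `T*(T*)`.** -/
theorem hamming_all (Y : Type) [NormedAddCommGroup Y] [NormedSpace ℝ Y]
    (Θ : Y →ₗ[ℝ] (ℕ → StrongDual ℝ T)) (hY : IsTStarTStar e Y Θ) :
    EquiCoarselyEmbeds HV dH Y := by
  obtain ⟨ρ, ω, h1, h2, h3, h4, hf⟩ := hamming_TT h
  have hc := isTStarTStar_concrete h
  have hex : ∀ x : TStarTStar h, ∃ y : Y, Θ y = valL h x := fun x =>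
    (hY.range_iff _).2 ((hc.range_iff _).1 ⟨x, rfl⟩)
  choose j hj using hex
  have hjn : ∀ x x', ‖j x - j x'‖ = ‖x - x'‖ := by
    intro x x'
    obtain ⟨g, hg⟩ := (hc.range_iff _).1 ⟨x - x', rfl⟩
    rw [hc.norm_eq (x - x') g hg]
    refine hY.norm_eq _ g fun k => ?_
    rw [hg k, map_sub, map_sub, hj, hj]
  refine ⟨ρ, ω, h1, h2, h3, h4, fun i => ?_⟩
  obtain ⟨f, hf⟩ := hf i
  refine ⟨fun m => j (f m), fun x y => ?_⟩
  rw [hjn]
  exact hf x y

end Pool.Agent.W696.TS
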